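import Pool.Agent.Y942.WH.Chr

open Matrix

set_option autoImplicit false
set_option maxHeartbeats 400000

namespace Pool.Agent.Y942.WH

noncomputable section

/-- The realised torsions form a submonoid. -/
def whM (π : Type) [Group π] : AddSubmonoid (Wh π) where
  carrier := WhStar π
  zero_mem' := zero_mem_whStar
  add_mem' := whStar_add

/-! ### Functoriality -/

section Map

theorem K1.mk_stab {R : Type} [Ring R] {n : ℕ} (M : (Matrix (Fin n) (Fin n) R)ˣ)
    (N : (Matrix (Fin (n + 1)) (Fin (n + 1)) R)ˣ)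
    (h : (N : Matrix (Fin (n + 1)) (Fin (n + 1)) R) = Matrix.reindex finSumFinEquiv finSumFinEquiv
      (Matrix.fromBlocks (M : Matrix (Fin n) (Fin n) R) 0 0 (1 : Matrix (Fin 1) (Fin 1) R))) :
    K1.mk N = K1.mk M := by
  have e : N = rx finSumFinEquiv (blk M (1 : (Matrix (Fin 1) (Fin 1) R)ˣ)) := Units.ext h
  rw [e, ← cl_fin, cl_rx, cl_blk_one_right, cl_fin]

variable {R S : Type} [Ring R] [Ring S] (φ : R →+* S)

def uM (n : ℕ) : (Matrix (Fin n) (Fin n) R)ˣ →* (Matrix (Fin n) (Fin n) S)ˣ :=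
  Units.map φ.mapMatrix.toMonoidHom

def K1.mapFree : FreeAbelianGroup (Σ n : ℕ, (Matrix (Fin n) (Fin n) R)ˣ) →+ K1 S :=
  FreeAbelianGroup.lift fun p => K1.mk (uM φ p.1 p.2)

theorem K1.mapFree_rel (x : FreeAbelianGroup (Σ n : ℕ, (Matrix (Fin n) (Fin n) R)ˣ))
    (hx : x ∈ AddSubgroup.closure (K1Rel R)) : K1.mapFree φ x = 0 := by
  have : AddSubgroup.closure (K1Rel R) ≤ (K1.mapFree φ).ker := by
    rw [AddSubgroup.closure_le]
    rintro x (⟨n, M, N, rfl⟩ | ⟨n, M, N, hN, rfl⟩)
    · rw [SetLike.mem_coe, AddMonoidHom.mem_ker, map_sub, map_add]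
      simp only [K1.mapFree, FreeAbelianGroup.lift_apply_of]
      rw [map_mul, K1.mk_mul, sub_self]
    · rw [SetLike.mem_coe, AddMonoidHom.mem_ker, map_sub, sub_eq_zero]
      simp only [K1.mapFree, FreeAbelianGroup.lift_apply_of]
      apply K1.mk_stab
      change (N : Matrix (Fin (n + 1)) (Fin (n + 1)) R).map φ = _
      rw [hN, Matrix.reindex_apply, ← Matrix.submatrix_map, Matrix.fromBlocks_map,
        Matrix.map_zero _ (map_zero φ), Matrix.map_zero _ (map_zero φ),
        Matrix.map_one _ (map_zero φ) (map_one φ), Matrix.reindex_apply]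
      rfl
  exact this hx

/-- The homomorphism `K₁(R) → K₁(S)` induced by a ring homomorphism. -/
def K1.map : K1 R →+ K1 S :=
  QuotientAddGroup.lift (AddSubgroup.closure (K1Rel R)) (K1.mapFree φ) (K1.mapFree_rel φ)

theorem K1.map_mk {n : ℕ} (M : (Matrix (Fin n) (Fin n) R)ˣ) : K1.map φ (K1.mk M) = K1.mk (uM φ n M) := by
  unfold K1.map
  conv_lhs => unfold K1.mk
  rw [QuotientAddGroup.mk'_apply, QuotientAddGroup.lift_mk]
  simp [K1.mapFree]

end Map

section WhMap

variable {H π : Type} [Group H] [Group π] (f : H →* π)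

theorem map_trivial (c : K1 (MonoidAlgebra ℤ H)) (hc : c ∈ trivialUnits H) :
    K1.map (fR f) c ∈ trivialUnits π := by
  have : trivialUnits H ≤ (trivialUnits π).comap (K1.map (fR f)) := by
    unfold trivialUnits
    rw [AddSubgroup.closure_le]
    rintro c ⟨g, M, hM, rfl⟩
    rw [SetLike.mem_coe, AddSubgroup.mem_comap, K1.map_mk]
    apply AddSubgroup.subset_closure
    refine ⟨f g, uM (fR f) 1 M, ?_, rfl⟩
    change fR f ((M : Matrix (Fin 1) (Fin 1) (MonoidAlgebra ℤ H)) 0 0) = _ ∨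
      fR f ((M : Matrix (Fin 1) (Fin 1) (MonoidAlgebra ℤ H)) 0 0) = _
    rcases hM with hM | hM
    · left
      rw [hM, fR_of]
    · right
      rw [hM, map_neg, fR_of]
  exact this hc

/-- The homomorphism `Wh(H) → Wh(π)` induced by a homomorphism `H → π`. -/
def Wh.map : Wh H →+ Wh π :=
  QuotientAddGroup.map (trivialUnits H) (trivialUnits π) (K1.map (fR f)) (map_trivial f)

theorem Wh.map_mk {n : ℕ} (M : (Matrix (Fin n) (Fin n) (MonoidAlgebra ℤ H))ˣ) :
    Wh.map f (Wh.mk M) = Wh.mk (fM f n M) := by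
  unfold Wh.map
  conv_lhs => unfold Wh.mk
  rw [QuotientAddGroup.mk'_apply, QuotientAddGroup.map_mk, K1.map_mk]
  rfl

theorem map_mem {x : Wh H} (hx : x ∈ WhStar H) : Wh.map f x ∈ WhStar π := by
  obtain ⟨n, B, rfl, hf⟩ := whStar_map hx
  rw [Wh.map_mk]
  exact hf π f

end WhMap

/-! ### Finite abelian groups -/

theorem fM_one {π : Type} [CommGroup π] (n : ℕ) (B : (Matrix (Fin n) (Fin n) (MonoidAlgebra ℤ π))ˣ) :
    fM (powMonoidHom 1 : π →* π) n B = B := by
  have h1 : (powMonoidHom 1 : π →* π) = MonoidHom.id π := by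
    ext g
    simp
  apply Units.ext
  refine Matrix.ext fun i j => ?_
  rw [fM_val, h1]
  have h2 : ∀ x : MonoidAlgebra ℤ π, fR (MonoidHom.id π) x = x := by
    intro x
    induction x using MonoidAlgebra.induction_on with
    | of g => rw [fR_of]; rfl
    | add f g hf hg => rw [map_add, hf, hg]
    | smul r f hf => rw [map_zsmul, hf]
  exact h2 _

theorem exists_prod {π : Type} [CommGroup π] (n : ℕ)
    (B : (Matrix (Fin n) (Fin n) (MonoidAlgebra ℤ π))ˣ) (s : ℕ) :
    ∃ C : (Matrix (Fin n) (Fin n) (MonoidAlgebra ℤ π))ˣ,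
      K1.mk C = ∑ k ∈ Finset.range s, K1.mk (fM (powMonoidHom k : π →* π) n B) ∧
      (C : Matrix (Fin n) (Fin n) (MonoidAlgebra ℤ π)).det =
        ∏ k ∈ Finset.range s, fR (powMonoidHom k : π →* π)
          (B : Matrix (Fin n) (Fin n) (MonoidAlgebra ℤ π)).det := by
  induction s with
  | zero => exact ⟨1, by rw [K1.mk_one, Finset.sum_range_zero], by simp⟩
  | succ s ih =>
    obtain ⟨C, h1, h2⟩ := ih
    refine ⟨C * fM (powMonoidHom s : π →* π) n B, ?_, ?_⟩
    · rw [K1.mk_mul, h1, Finset.sum_range_succ]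
    · rw [Units.val_mul, Matrix.det_mul, h2, Finset.prod_range_succ]
      congr 1
      exact (RingHom.map_det (fR (powMonoidHom s : π →* π)) _).symm

/-- For a finite abelian group `π`, the negative of a realised torsion is realised. -/
theorem neg_mem_whStar {π : Type} [CommGroup π] [Finite π] {x : Wh π} (hx : x ∈ WhStar π) :
    -x ∈ WhStar π := by
  obtain ⟨n, B, hxB, hf⟩ := whStar_map hx
  have hcard : 0 < Nat.card π := Nat.card_pos
  obtain ⟨e, he⟩ : ∃ e, e = 2 * Nat.card π := ⟨_, rfl⟩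
  have he0 : 0 < e := by omega
  have hexp : ∀ g : π, g ^ e = 1 := fun g => by
    rw [he, mul_comm, pow_mul, pow_card_eq_one', one_pow]
  obtain ⟨C, hC, hdet⟩ := exists_prod n B e
  let u : (MonoidAlgebra ℤ π)ˣ := Units.map Matrix.detMonoidHom B
  have hN := norm_sq e he0 hexp u
  have hdet2 : ((C * C : (Matrix (Fin n) (Fin n) (MonoidAlgebra ℤ π))ˣ) :
      Matrix (Fin n) (Fin n) (MonoidAlgebra ℤ π)).det = 1 := by
    rw [Units.val_mul, Matrix.det_mul, hdet, ← pow_two]
    exact hN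
  obtain ⟨m, hm0, hm⟩ := SK_torsion FQ_group n (C * C) hdet2
  rw [cl_fin, K1.mk_mul] at hm
  let z : ℕ → Wh π := fun k => Wh.mk (fM (powMonoidHom k : π →* π) n B)
  have hz : ∀ k, z k ∈ whM π := fun k => hf π _
  let y : Wh π := ∑ k ∈ Finset.range e, z k
  have hy : y ∈ whM π := sum_mem fun k _ => hz k
  have hyC : y = QuotientAddGroup.mk' (trivialUnits π) (K1.mk C) := by
    rw [hC, map_sum]
    rfl
  have hy0 : (2 * m) • y = 0 := by
    have h1 := congrArg (QuotientAddGroup.mk' (trivialUnits π)) hm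
    rw [map_nsmul, map_add, ← hyC, map_zero] at h1
    rw [mul_comm, mul_nsmul']
    rw [two_nsmul]
    exact h1
  have h1e : 1 ∈ Finset.range e := Finset.mem_range.mpr (by omega)
  have hsplit : y = z 1 + ∑ k ∈ (Finset.range e).erase 1, z k :=
    (Finset.add_sum_erase (Finset.range e) z h1e).symm
  have hz1 : z 1 = x := by
    rw [hxB]
    change Wh.mk (fM (powMonoidHom 1 : π →* π) n B) = Wh.mk B
    rw [fM_one]
  let w : Wh π := ∑ k ∈ (Finset.range e).erase 1, z k
  have hw : w ∈ whM π := sum_mem fun k _ => hz k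
  have hneg : -x = w + (2 * m - 1) • y := by
    have h2 : y = x + w := by rw [hsplit, hz1]
    have h3 : (2 * m - 1) • y + y = 0 := by
      rw [← succ_nsmul, show 2 * m - 1 + 1 = 2 * m by omega, hy0]
    have h4 : -y = (2 * m - 1) • y := neg_eq_of_add_eq_zero_left h3
    rw [← h4, h2]
    abel
  rw [hneg]
  exact (whM π).add_mem hw ((whM π).nsmul_mem hy _)

end

end Pool.Agent.Y942.WH
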