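import Pool.Agent.Y942.WH.Fin

open Matrix

set_option autoImplicit false
set_option maxHeartbeats 400000

namespace Pool.Agent.Y942.WH

noncomputable section

section General

variable {π : Type} [Group π]

/-- The class in `Wh(π)` of the unit `1 + s - s³` of `ℤ[π]`, for `s ∈ π` with `s⁵ = 1`. -/
def tau (s : π) (hs : s ^ 5 = 1) : Wh π := Wh.mk (BB s hs)

theorem Wh.mk_mul {n : ℕ} (M N : (Matrix (Fin n) (Fin n) (MonoidAlgebra ℤ π))ˣ) :
    Wh.mk (M * N) = Wh.mk M + Wh.mk N := by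
  unfold Wh.mk
  rw [K1.mk_mul, map_add]

theorem Wh.mk_trivial (g : π) (M : (Matrix (Fin 1) (Fin 1) (MonoidAlgebra ℤ π))ˣ)
    (h : (M : Matrix (Fin 1) (Fin 1) (MonoidAlgebra ℤ π)) 0 0 = MonoidAlgebra.of ℤ π g ∨
      (M : Matrix (Fin 1) (Fin 1) (MonoidAlgebra ℤ π)) 0 0 = -MonoidAlgebra.of ℤ π g) :
    Wh.mk M = 0 :=
  (QuotientAddGroup.eq_zero_iff _).mpr (AddSubgroup.subset_closure ⟨g, M, h, rfl⟩)

theorem unit_sq {R : Type} [Ring R] (x : R) (h5 : x ^ 5 = 1) :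
    (1 + x - x ^ 3) * (1 + x ^ 2 - (x ^ 2) ^ 3) = x ^ 4 := by
  have e : (1 + x - x ^ 3) * (1 + x ^ 2 - (x ^ 2) ^ 3) =
      1 + x + x ^ 2 - x ^ 5 - x ^ 5 * x - x ^ 5 * x ^ 2 + x ^ 5 * x ^ 4 := by noncomm_ring
  rw [e, h5, one_mul, one_mul, one_mul]
  abel

theorem tau_sq (s : π) (hs : s ^ 5 = 1) (hs2 : (s ^ 2) ^ 5 = 1) : tau (s ^ 2) hs2 = - tau s hs := by
  have h : Wh.mk (BB s hs * BB (s ^ 2) hs2) = 0 := by
    apply Wh.mk_trivial (s ^ 4)
    left
    rw [Units.val_mul, Matrix.mul_apply, Fin.sum_univ_one, BB_val, BB_val]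
    have e : sig (s ^ 2) = sig s ^ 2 := by rw [sig, map_pow]; rfl
    rw [e, unit_sq _ (sig_pow s hs), map_pow]
    rfl
  rw [Wh.mk_mul] at h
  exact (neg_eq_of_add_eq_zero_right h).symm

theorem nsmul_mem {x : Wh π} (hx : x ∈ WhStar π) (n : ℕ) : n • x ∈ WhStar π := by
  induction n with
  | zero => rw [zero_nsmul]; exact zero_mem_whStar
  | succ n ih => rw [succ_nsmul]; exact whStar_add ih hx

theorem zsmul_tau_mem (s : π) (hs : s ^ 5 = 1) (k : ℤ) : k • tau s hs ∈ WhStar π := by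
  have hs2 : (s ^ 2) ^ 5 = 1 := by rw [← pow_mul, mul_comm, pow_mul, hs, one_pow]
  obtain ⟨n, rfl | rfl⟩ := Int.eq_nat_or_neg k
  · rw [natCast_zsmul]
    exact nsmul_mem (mem_whStar s hs) n
  · rw [neg_smul, natCast_zsmul, ← neg_nsmul, ← tau_sq s hs hs2]
    exact nsmul_mem (mem_whStar (s ^ 2) hs2) n

theorem tau_ne (s : π) (hs : s ^ 5 = 1) (h : s ∉ commutator π) (k : ℤ) (hk : k ≠ 0) :
    k • tau s hs ≠ 0 := by
  obtain ⟨χ, hχ⟩ := exists_char s h
  exact infinite_order χ s hs hχ k hk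

end General

theorem d1_U0 : d1 U0 = BB sg sg_pow := by
  apply Units.ext
  refine Matrix.ext fun i j => ?_
  have hi : i = 0 := Subsingleton.elim _ _
  have hj : j = 0 := Subsingleton.elim _ _
  subst hi hj
  rw [d1_val, BB_val]
  rfl

theorem Wh_C5 (x : Wh C5) : ∃ k : ℤ, x = k • tau sg sg_pow := by
  obtain ⟨c, rfl⟩ := QuotientAddGroup.mk'_surjective _ x
  obtain ⟨u, rfl⟩ := K1_eq_unit c
  obtain ⟨k, v, rfl, j, hv⟩ := unit_form u
  refine ⟨k, ?_⟩
  have h1 : (QuotientAddGroup.mk' (trivialUnits C5)) (cl (d1 v)) = 0 := by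
    rw [cl_fin]
    apply Wh.mk_trivial (sg ^ j)
    rw [d1_val, map_pow]
    exact hv
  have h2 : cl (d1 (U0 ^ k * v)) = k • cl (d1 U0) + cl (d1 v) := by
    rw [map_mul, cl_mul]
    congr 1
    let F : Additive R5ˣ →+ K1 R5 :=
      { toFun := fun u => cl (d1 u.toMul)
        map_zero' := by rw [toMul_zero, map_one, cl_one]
        map_add' := fun a b => by rw [toMul_add, map_mul, cl_mul] }
    exact F.map_zsmul k (Additive.ofMul U0)
  rw [h2, map_add, h1, add_zero, map_zsmul, d1_U0, cl_fin]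
  rfl

theorem sg_not_mem : sg ∉ commutator C5 := by
  intro h
  have hle : commutator C5 ≤ ⊥ := by
    rw [commutator_def, Subgroup.commutator_le]
    intro a _ b _
    rw [Subgroup.mem_bot, commutatorElement_eq_one_iff_mul_comm]
    exact mul_comm a b
  have := Subgroup.mem_bot.mp (hle h)
  exact absurd this (by decide)

theorem Wh_C5_unique (x : Wh C5) : ∃! k : ℤ, x = k • tau sg sg_pow := by
  obtain ⟨k, hk⟩ := Wh_C5 x
  refine ⟨k, hk, fun l hl => ?_⟩
  by_contra hne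
  apply tau_ne sg sg_pow sg_not_mem (l - k) (sub_ne_zero.mpr hne)
  rw [sub_smul, ← hl, ← hk, sub_self]

theorem whStar_C5 : WhStar C5 = Set.univ := by
  apply Set.eq_univ_of_forall
  intro x
  obtain ⟨k, rfl⟩ := Wh_C5 x
  exact zsmul_tau_mem sg sg_pow k

end

end Pool.Agent.Y942.WH
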