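import Mathlib

open Matrix

set_option autoImplicit false

namespace Pool.Agent.Y942.WH

noncomputable section

/-! ### The Whitehead group -/

/-- The relations `[M N] = [M] + [N]` and `[M ⊕ 1] = [M]` for invertible matrices over `R`. -/
def K1Rel (R : Type) [Ring R] : Set (FreeAbelianGroup (Σ n : ℕ, (Matrix (Fin n) (Fin n) R)ˣ)) :=
  {x | (∃ (n : ℕ) (M N : (Matrix (Fin n) (Fin n) R)ˣ),
        x = FreeAbelianGroup.of ⟨n, M * N⟩ - (FreeAbelianGroup.of ⟨n, M⟩ + FreeAbelianGroup.of ⟨n, N⟩)) ∨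
      (∃ (n : ℕ) (M : (Matrix (Fin n) (Fin n) R)ˣ) (N : (Matrix (Fin (n + 1)) (Fin (n + 1)) R)ˣ),
        (N : Matrix (Fin (n + 1)) (Fin (n + 1)) R) =
          Matrix.reindex finSumFinEquiv finSumFinEquiv
            (Matrix.fromBlocks (M : Matrix (Fin n) (Fin n) R) 0 0 (1 : Matrix (Fin 1) (Fin 1) R)) ∧
        x = FreeAbelianGroup.of ⟨n + 1, N⟩ - FreeAbelianGroup.of ⟨n, M⟩)}

/-- `K₁(R)`, the abelianization of the union of the groups `GL_n(R)`: the abelian group generated by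
the classes `[M]` of the invertible matrices over `R` with the relations `[M N] = [M] + [N]`
and `[M ⊕ 1] = [M]`. -/
abbrev K1 (R : Type) [Ring R] : Type :=
  FreeAbelianGroup (Σ n : ℕ, (Matrix (Fin n) (Fin n) R)ˣ) ⧸ AddSubgroup.closure (K1Rel R)

/-- The class in `K₁(R)` of an invertible matrix over `R`. -/
def K1.mk {R : Type} [Ring R] {n : ℕ} (M : (Matrix (Fin n) (Fin n) R)ˣ) : K1 R :=
  QuotientAddGroup.mk' (AddSubgroup.closure (K1Rel R)) (FreeAbelianGroup.of ⟨n, M⟩)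

/-- The subgroup of `K₁(ℤ[π])` generated by the classes of `g` and `-g`, `g ∈ π`. -/
def trivialUnits (π : Type) [Group π] : AddSubgroup (K1 (MonoidAlgebra ℤ π)) :=
  AddSubgroup.closure {c | ∃ (g : π) (M : (Matrix (Fin 1) (Fin 1) (MonoidAlgebra ℤ π))ˣ),
    ((M : Matrix (Fin 1) (Fin 1) (MonoidAlgebra ℤ π)) 0 0 = MonoidAlgebra.of ℤ π g ∨
      (M : Matrix (Fin 1) (Fin 1) (MonoidAlgebra ℤ π)) 0 0 = -MonoidAlgebra.of ℤ π g) ∧ c = K1.mk M}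

/-- The Whitehead group `Wh(π) = K₁(ℤ[π]) / {±g : g ∈ π}`. -/
abbrev Wh (π : Type) [Group π] : Type := K1 (MonoidAlgebra ℤ π) ⧸ trivialUnits π

/-- The class in `Wh(π)` of an invertible matrix over `ℤ[π]`. -/
def Wh.mk {π : Type} [Group π] {n : ℕ} (M : (Matrix (Fin n) (Fin n) (MonoidAlgebra ℤ π))ˣ) : Wh π :=
  QuotientAddGroup.mk' (trivialUnits π) (K1.mk M)

/-! ### Two-dimensional deformation retract pairs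

Let `L` be a connected CW-complex with base point and `π₁(L) = π`, and let `K` be obtained from `L`
by attaching `n` one-cells at the base point and `n` two-cells. Up to a simple homotopy equivalence
rel `L` every finite pair `(K, L)`, `dim (K - L) ≤ 2`, with `L` a deformation retract of `K` is of
this form. The attaching maps of the two-cells give elements `r 0, …, r (n-1)` of
`π₁(L ∪ 1-cells) = π * F_n`. -/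

/-- The fundamental group `π * F_n` of the complex obtained from `L`, `π₁(L) = π`, by attaching
`n` one-cells at the base point. -/
abbrev Pi1One (π : Type) [Group π] (n : ℕ) : Type := Monoid.Coprod π (FreeGroup (Fin n))

/-- The fundamental group of the complex `K`, obtained from the previous one by attaching
two-cells along loops in the classes `r i`. -/
abbrev Pi1 {π : Type} [Group π] {n : ℕ} (r : Fin n → Pi1One π n) : Type :=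
  Pi1One π n ⧸ Subgroup.normalClosure (Set.range r)

/-- The homomorphism `π₁(L ∪ 1-cells) → π₁(K)` induced by the inclusion. -/
def toPi1 {π : Type} [Group π] {n : ℕ} (r : Fin n → Pi1One π n) : Pi1One π n →* Pi1 r :=
  QuotientGroup.mk' (Subgroup.normalClosure (Set.range r))

/-- The homomorphism `π = π₁(L) → π₁(K)` induced by the inclusion `L ⊆ K`. -/
def incl {π : Type} [Group π] {n : ℕ} (r : Fin n → Pi1One π n) : π →* Pi1 r :=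
  (toPi1 r).comp Monoid.Coprod.inl

/-- `D` is the Fox derivation with respect to `ρ : π₁(L ∪ 1-cells) → π`. When `ρ` is the map to
`π₁(K) = π₁(L) = π`, the family `D u` is the family of coordinates, in the basis of
`C₁(K', L')` given by the `n` one-cells (`K'` the universal cover of `K`, `L'` its part over `L`),
of the lift to `K'` of a loop in the class `u`, starting at the base point. -/
structure IsFox {π : Type} [Group π] {n : ℕ} (ρ : Pi1One π n →* π)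
    (D : Pi1One π n → Fin n → MonoidAlgebra ℤ π) : Prop where
  mul : ∀ u v j, D (u * v) j = D u j + MonoidAlgebra.of ℤ π (ρ u) * D v j
  base : ∀ (g : π) (j : Fin n), D (Monoid.Coprod.inl g) j = 0
  gen : ∀ i j : Fin n, D (Monoid.Coprod.inr (FreeGroup.of i)) j = if i = j then 1 else 0

/-- `Wh*(π)`: the torsions `τ(K, L)` of the pairs `(K, L)` above such that `L` is a deformation
retract of `K`. By the theorem of Whitehead this means that `π₁(L) → π₁(K)` is bijective and that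
the relative cellular chain complex `0 → C₂(K', L') → C₁(K', L') → 0` of the universal covers is
acyclic. Its boundary matrix `B` over `ℤ[π]` consists of the Fox derivatives of the `r i`, and the
torsion is the class of `B` in `Wh(π)`. -/
def WhStar (π : Type) [Group π] : Set (Wh π) :=
  {τ | ∃ (n : ℕ) (r : Fin n → Pi1One π n) (ρ : Pi1One π n →* π)
      (D : Pi1One π n → Fin n → MonoidAlgebra ℤ π)
      (B : (Matrix (Fin n) (Fin n) (MonoidAlgebra ℤ π))ˣ),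
      Function.Bijective (incl r) ∧ (∀ u, incl r (ρ u) = toPi1 r u) ∧
      IsFox ρ D ∧ (∀ i j, (B : Matrix (Fin n) (Fin n) (MonoidAlgebra ℤ π)) i j = D (r i) j) ∧
      τ = Wh.mk B}

/-! ### A presentation of the cyclic group of order five -/

/-- Words: 0 is `a`, 1 is `a⁻¹`, 2 is `s` and 3 is `s⁻¹`. -/
abbrev Rule : Type := List ℕ × List ℕ

abbrev Item : Type := List ℕ × List (ℕ × ℕ) × List (ℕ × ℕ)

def step (R : List Rule) (w : List ℕ) (q : ℕ × ℕ) : List ℕ :=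
  if (w.drop q.2).take (R.getD q.1 ([], [])).1.length = (R.getD q.1 ([], [])).1 then
    w.take q.2 ++ ((R.getD q.1 ([], [])).2 ++ (w.drop q.2).drop (R.getD q.1 ([], [])).1.length)
  else w

def addItem (R : List Rule) (t : Item) : List Rule :=
  (t.2.1.foldl (step R) t.1, t.2.2.foldl (step R) t.1) :: R

def baseRules : List Rule :=
  [([2,2,0,0], [0,0,0,2]), ([0,0,0,2], [2,2,0,0]), ([2,2,2,2,2], []), ([3,2], []), ([2,3], []),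
   ([1,0], []), ([0,1], [])]

def cert0 : List Item :=
  [([3,2,2,0,0],[(0,1)],[(3,0)]),
   ([3,0,0,0,2,3],[(5,4)],[(0,0)]),
   ([3,0,0,0,1],[(0,0)],[(8,3)]),
   ([3,2,0,0,3,1],[(0,1)],[(6,0)]),
   ([3,3,0,0,1],[(0,0)],[(10,3)]),
   ([2,2,0,0,1],[(5,0)],[(11,3)]),
   ([1,0,0,0,2,1],[(0,1)],[(11,0)]),
   ([1,2,2,0,1],[(0,0)],[(13,3)]),
   ([3,2,2,2,2,2],[(11,0)],[(10,1)]),
   ([3,2,2,2,2],[(12,0)],[(0,1)]),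
   ([2,2,2,3],[(0,0)],[(14,2)]),
   ([2,2,2,0,0],[(11,1)],[(1,0),(7,0)]),
   ([3,3,3,0,0],[(8,1)],[(1,0),(12,0)]),
   ([3,0,0,3,1,0],[(0,0)],[(18,4)]),
   ([1,0,0,3,1,1],[(9,1)],[(19,0)]),
   ([1,0,0,2,1,1],[(7,1)],[(20,0)]),
   ([1,1,2,2,3],[(0,0)],[(20,3)]),
   ([1,1,2,2,2],[(1,0)],[(7,2)]),
   ([1,0,2,1,1,2],[(0,1)],[(23,0)]),
   ([1,1,1,3,3,2],[(0,0),(3,1)],[(22,4)]),
   ([1,0,2,1,1,3],[(3,1)],[(25,0)]),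
   ([1,1,1,2,3],[(0,0)],[(25,3)]),
   ([1,1,1,3,3,0],[(3,0)],[(7,2),(27,1)]),
   ([3,2,1,1,3,3],[(1,1)],[(26,0)]),
   ([3,1,1,1,1,2],[(3,2)],[(0,0)]),
   ([3,3,3,1,1,1],[(1,2)],[(14,0)]),
   ([2,0,2,1,1,0],[(6,0)],[(31,4)]),
   ([3,1,1,1,1,1,2],[(6,3)],[(3,0)]),
   ([0,2,1,1,2,2,0],[(21,3),(33,2)],[(10,0),(31,3)]),
   ([3,1,1,1,3,3,0],[(14,3),(34,2)],[(5,0),(18,2),(13,0),(12,0)]),
   ([3,1,3,1,1,0],[(0,0)],[(35,4)]),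
   ([1,1,1,2,0,0],[(10,0)],[(0,1)]),
   ([0,1,1,2,0,0],[(1,1)],[(38,0)]),
   ([0,3,1,3,1,0],[(0,0)],[(38,4)]),
   ([0,1,2,0,0,0],[(0,1)],[(40,0)]),
   ([3,0,0,0,3,1,3],[(33,0)],[(0,2)]),
   ([2,0,2,1,1,1,2],[(15,3)],[(16,0)]),
   ([3,1,1,1,1,2,2],[(13,0)],[(21,3),(42,2)]),
   ([3,1,3,1,1,2,2],[(22,3)],[(8,0)]),
   ([3,0,0,0,0,2,0],[(37,0)],[(25,2)])]

def cert1 : List Item :=
  [([0,0,2,1,1,1,2],[(19,3)],[(32,0)]),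
   ([0,2,0,2,1,0],[(12,0)],[(46,4)]),
   ([2,1,1,3,0,0],[(10,0)],[(0,1)]),
   ([0,1,1,3,0,0],[(1,1)],[(49,0)]),
   ([1,1,3,0,0,0],[(42,2),(13,0)],[(2,0)]),
   ([3,1,3,1,3,2],[(0,0)],[(48,4)]),
   ([2,3,1,3,1,3],[(1,1)],[(50,0)]),
   ([2,2,0,0,2,0,2],[(47,0)],[(3,2)]),
   ([0,0,2,0,2,2,2],[(4,0)],[(38,4)]),
   ([0,0,2,0,2,3],[(5,0)],[(53,4)]),
   ([3,1,1,1,1,3,3],[(26,0)],[(31,2)]),
   ([1,1,1,2,1,1,3,3],[(30,0)],[(29,3)]),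
   ([1,2,2,0,2,1,1],[(45,0)],[(32,2)]),
   ([0,0,0,2,0,0,3,1],[(39,0)],[(50,3)]),
   ([1,3,1,3,1,2,2,0],[(47,4)],[(11,0),(44,4)]),
   ([3,0,0,0,3,1,1],[(53,0)],[(50,2)]),
   ([1,3,3,0,0,2,0,2],[(12,3)],[(41,0),(61,3)]),
   ([3,3,3,1,3,1,1],[(27,2)],[(46,0)]),
   ([0,0,0,2,1,2,2,0],[(51,4),(44,0)],[(52,0)]),
   ([0,0,3,1,3,0,0,0],[(57,4)],[(24,0)]),
   ([3,3,0,0,0,3,1,1],[(55,3)],[(56,0),(65,3)]),
   ([1,0,0,2,1,2,1,1],[(8,1)],[(66,0)]),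
   ([3,1,3,0,2,1,1,0],[(23,0)],[(67,6)]),
   ([2,2,2,0,2,1,1],[(53,0)],[(43,2)]),
   ([0,0,3,1,3,0,0,3],[(29,0)],[(14,3)]),
   ([0,0,3,1,3,3,0,0],[(30,0)],[(61,4),(70,3)]),
   ([3,1,3,1,3,0,0,0],[(64,4)],[(21,0)]),
   ([2,0,0,0,3,0,0,1],[(1,0)],[(73,6)]),
   ([2,2,0,0,0,0,2,0],[(68,0),(54,0)],[(54,3)]),
   ([1,1,1,3,3,1,2,2],[(50,0)],[(31,1)]),
   ([0,1,1,2,0,2,2,0],[(7,1)],[(76,0)]),
   ([2,1,1,2,0,2,1,1],[(48,0)],[(51,3)]),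
   ([3,3,3,0,3,3,0],[(11,1)],[(61,0)]),
   ([3,1,3,1,1,2,0,0],[(42,3)],[(43,0)]),
   ([3,1,3,3,1,3,1,0],[(0,0)],[(79,6)]),
   ([1,1,1,3,3,1,1,1],[(51,4)],[(56,0)]),
   ([1,2,2,0,0,2,1,1],[(68,3)],[(69,0),(81,3)]),
   ([1,2,2,1,2,2,2],[(0,0)],[(67,4)]),
   ([1,1,3,0,0,2,1,1],[(36,0)],[(70,3)]),
   ([1,0,2,0,2,2,1,1],[(0,1)],[(84,0)])]

def cert2 : List Item :=
  [([1,1,1,3,1,2,2,2],[(70,5)],[(0,0)]),
   ([3,3,0,0,0,0,2,0],[(67,3)],[(77,0),(86,3)]),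
   ([3,3,0,0,0,3,1,3],[(47,3)],[(78,0),(87,3)]),
   ([3,3,3,1,3,1,3],[(38,2)],[(72,0)]),
   ([2,0,2,1,1,1,1,2],[(63,4)],[(64,0)]),
   ([1,3,0,0,3,0,0,0],[(83,4)],[(35,0)]),
   ([1,3,3,1,3,0,0,1],[(29,0)],[(92,6)]),
   ([2,1,1,2,1,2,2,2],[(17,0)],[(77,5)]),
   ([3,1,1,1,1,3,0],[(64,0)],[(61,2)]),
   ([3,3,0,2,1,1,1,2],[(68,4)],[(25,0)]),
   ([1,3,3,0,0,2,1,1],[(82,3)],[(75,0),(95,3)]),
   ([1,3,3,1,2,2,2],[(0,0)],[(81,4)]),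
   ([1,1,3,0,0,2,0,2,1],[(50,0)],[(63,4),(98,3)]),
   ([2,1,1,2,0,2,0,2,0],[(70,0)],[(46,3)]),
   ([1,1,1,3,0,2,0,2,1],[(65,4)],[(67,0)]),
   ([0,1,1,2,0,2,0,0,0],[(101,0)],[(20,1)]),
   ([2,0,0,0,2,2,0,0],[(96,4)],[(84,0)]),
   ([1,3,3,0,2,0,2,0],[(82,0)],[(13,1)]),
   ([2,2,0,0,0,3,1,3],[(98,0),(84,0)],[(63,3)]),
   ([1,1,1,3,3,1,3,0],[(10,1)],[(80,0)]),
   ([1,2,0,2,0,0,0,2,1],[(4,0),(103,6)],[(94,4),(90,3)]),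
   ([1,0,3,1,3,3,1,1],[(0,1)],[(106,0)]),
   ([1,1,1,2,0,3,3,0],[(81,0)],[(0,1)]),
   ([0,1,3,1,1,2,0,2,0],[(9,1)],[(109,0)]),
   ([0,2,1,1,1,3,1,3,3],[(23,2)],[(0,0)]),
   ([1,0,0,0,2,2,0,2],[(57,1)],[(110,0)]),
   ([1,2,2,1,3,0,0,1],[(0,0)],[(112,6)]),
   ([2,2,0,0,2,2,1,1,3],[(107,0),(97,3)],[(66,2)]),
   ([0,0,0,2,0,0,0,2],[(94,0)],[(96,3)]),
   ([2,0,0,3,3,1,1,2,0],[(51,3)],[(53,0)]),
   ([1,1,1,2,1,1,2,0],[(89,0)],[(87,3)]),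
   ([1,0,2,0,2,2,0,2,1],[(18,1)],[(116,0)]),
   ([0,2,1,1,1,3,1,3,0],[(0,2)],[(8,0)]),
   ([1,1,1,2,0,2,0,2,0],[(92,0)],[(66,3)]),
   ([3,1,1,1,1,1,3,0],[(90,0)],[(87,3)]),
   ([1,1,1,3,3,1,1,3,0],[(0,1)],[(96,0)]),
   ([1,1,3,0,0,2,0,2],[(72,3)],[(74,0)]),
   ([1,1,3,1,3,0,0,2,1],[(0,0)],[(62,1)]),
   ([2,1,1,3,3,3,1,1,2,0],[(96,0)],[(60,4),(121,3)]),
   ([2,2,2,1,1,3,0,3,3,0],[(109,0)],[(16,2)])]

def cert3 : List Item :=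
  [([0,2,2,0,2,2,0,2,1,0],[(125,8)],[(7,0),(24,2),(125,1)]),
   ([3,1,3,1,1,2,2,1,2,2],[(91,0)],[(44,4),(126,3)]),
   ([0,2,2,0,2,2,0,2,3],[(1,0)],[(126,7)]),
   ([3,3,3,1,3,3,1,3,3],[(0,1)],[(112,0)]),
   ([3,3,1,3,3,1,3,3,0],[(109,5),(109,2)],[(1,0),(124,4),(124,1),(110,1)]),
   ([2,3,3,0,3,1,1,3,1,1],[(129,0)],[(0,1)]),
   ([3,0,3,1,1,3,1,1,1],[(0,0),(67,2)],[(102,5),(102,2),(132,1)]),
   ([2,0,2,2,0,2,2,0,1],[(0,0)],[(133,7)]),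
   ([2,3,1,3,3,1,3,3,1],[(0,1)],[(132,0)]),
   ([2,2,0,2,2,0,2,2,2],[(0,0)],[(119,6)]),
   ([2,2,0,2,2,0,2,2,3],[(1,0)],[(134,7)]),
   ([1,1,3,3,1,3,3,1,2],[(1,1),(124,0),(124,3)],[(80,0)]),
   ([0,0,2,0,0,2,1,3,3,2],[(0,0),(62,2)],[(135,8)]),
   ([2,3,1,1,3,1,2,1,1],[(0,1)],[(137,0)]),
   ([3,1,3,1,1,3,1,2,1,1],[(104,0)],[(1,2),(139,1)]),
   ([1,1,2,0,3,1,2,1,1,3],[(0,0)],[(110,4),(141,3)]),
   ([2,0,0,2,0,0,2,1,3,2],[(2,0),(48,1)],[(139,8)]),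
   ([1,2,1,1,2,1,3,3,0],[(122,5),(114,1)],[(0,0),(142,7)]),
   ([0,1,1,3,1,1,3,1,1],[(0,1)],[(144,0)]),
   ([0,2,0,0,2,0,0,2,3],[(0,0)],[(143,7)]),
   ([0,1,3,1,1,3,1,1,3],[(0,1)],[(146,0)]),
   ([0,0,0,2,0,0,2,0,0],[(127,0),(72,0)],[(0,1)]),
   ([2,2,2,0,3,0,0,3,0],[(0,1)],[(132,0),(60,0)]),
   ([2,2,0,3,0,0,3,0,0,2],[(1,0)],[(34,3),(143,0),(129,0),(141,3)]),
   ([2,0,3,1,1,3,1,1,3,2],[(147,8)],[(1,0)]),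
   ([1,1,3,1,1,3,1,1,0],[(7,0)],[(150,7)]),
   ([2,2,0,0,2,0,0,2,0],[(146,0),(146,3)],[(0,1)]),
   ([1,0,0,0,0,0,0,2,2,0],[(0,1)],[(152,0)]),
   ([0,0,0,0,0,0,2,2,0,2],[(1,0)],[(100,3)]),
   ([3,1,1,1,1,3,1,1,3,3],[(73,2)],[(125,0),(119,3)]),
   ([1,2,1,1,3,1,1,3,1,0],[(2,0),(150,5)],[(155,8)]),
   ([1,0,0,0,0,0,0,0,0,2],[(0,1)],[(156,0)]),
   ([1,1,2,1,1,3,1,1,3,3],[(100,2)],[(0,0),(156,7)]),
   ([1,1,1,1,1,1,1,1,0],[(0,0)],[(158,7)]),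
   ([3,1,1,1,1,1,1,1,1],[(130,0),(130,3)],[(1,1),(152,0),(152,3)]),
   ([0,2,2,0,2,2,1,1,2,3],[(50,0)],[(159,8)]),
   ([1,1,1,3,1,1,3,3,1,1],[(1,1)],[(80,0)]),
   ([3,2,1,1,3,1,1,3,1,2],[(160,0)],[(8,1),(155,0),(160,3)]),
   ([0,0,2,0,0,2,0,0,3,1],[(17,0)],[(155,5)]),
   ([1,3,3,1,3,3,1,3,0,0],[(28,0)],[(102,3),(144,0)])]

def cert4 : List Item :=
  [([2,2,0,0,0,0,0,0,0,0],[(160,0),(146,0),(158,3)],[(6,2)]),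
   ([1,3,1,1,2,1,1,1,3],[(89,0)],[(99,2)]),
   ([0,0,0,2,0,0,3,0,2,0],[(148,0)],[(122,3)]),
   ([3,1,1,1,1,1,3,1,1,3,0],[(68,3)],[(139,0)]),
   ([0,3,1,2,0,2,1,3,3,0],[(149,6)],[(77,0)]),
   ([1,1,1,2,1,1,3,1,1,2,0],[(54,3)],[(144,0),(27,1),(165,0),(165,3),(155,6)]),
   ([2,0,3,1,1,3,1,1,3,3,0],[(151,7),(171,6)],[(21,0),(170,7)]),
   ([3,3,0,0,0,0,2,2,0,2],[(119,3)],[(163,0),(172,3)]),
   ([3,3,0,2,2,1,3,0,0,1],[(0,0)],[(174,8)]),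
   ([1,1,1,2,0,2,2,1,2,2],[(148,0)],[(47,1)]),
   ([1,1,1,1,1,1,1,1,2,0,0],[(139,6),(127,5),(149,2)],[(17,0),(156,4)]),
   ([1,1,2,2,0,2,2,0,2,0,0],[(11,2),(176,1)],[(155,0),(176,3),(164,2)]),
   ([3,0,0,0,0,0,3,3,1,1,3],[(64,3)],[(170,0),(99,3)]),
   ([3,1,3,1,1,3,1,1,3,3,1],[(143,0)],[(14,2),(178,1)]),
   ([2,1,1,2,0,0,2,0,0,2,0],[(28,3)],[(151,0),(179,3)]),
   ([3,2,1,1,1,1,3,1,1,3,1],[(0,1)],[(178,0)]),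
   ([1,3,1,3,1,2,0,0,2,0],[(0,1)],[(133,0),(176,4)]),
   ([1,1,2,1,1,3,0,2,0,2,0],[(6,0)],[(63,2)]),
   ([3,0,0,0,0,3,0,0,3,0,0],[(176,0)],[(0,1),(154,0),(154,3),(167,5),(162,3)]),
   ([1,1,2,1,1,3,0,2,0,2,3],[(8,0)],[(183,9)]),
   ([3,0,0,0,0,3,0,0,3,0,3],[(178,0)],[(0,1),(152,0),(122,2),(164,0),(61,2)]),
   ([1,1,3,0,0,0,0,0,0,0,0],[(139,0)],[(27,3),(157,2),(162,1)]),
   ([1,1,2,0,0,2,0,0,3,0],[(25,1)],[(151,0),(115,0)]),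
   ([1,3,3,0,0,2,0,0,3,0,0],[(22,2),(186,1)],[(168,0),(188,3)]),
   ([1,0,3,1,1,3,1,1,3,0,2],[(189,0)],[(40,1),(98,0)]),
   ([3,1,3,1,1,3,1,1,3,0,2],[(155,0)],[(0,2),(190,1)]),
   ([0,1,1,2,0,3,1,1,3,0,2],[(0,1)],[(192,0)]),
   ([1,3,0,0,2,2,1,2,2,1,2],[(14,1)],[(138,0)]),
   ([0,3,0,2,0,0,0,0,3,1,0],[(1,0)],[(193,9)]),
   ([2,0,3,1,1,3,3,1,1,3,0],[(22,0)],[(74,3),(131,2)]),
   ([1,1,3,0,0,2,0,0,2,0,0],[(49,3)],[(148,0),(190,3),(190,6)]),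
   ([0,1,1,2,0,3,1,1,3,3,1],[(197,0)],[(17,1)]),
   ([1,2,1,1,2,1,1,1,1,1,3,0],[(165,7),(169,4)],[(9,0),(127,3),(126,1)]),
   ([1,2,1,1,1,3,1,1,2,1,0],[(0,0),(159,6)],[(198,9)]),
   ([1,0,0,0,3,0,3,0,3,1,3],[(0,1),(132,0),(173,5)],[(199,0)]),
   ([0,2,1,2,1,2,1,1,3,3],[(0,0)],[(173,5)]),
   ([1,0,0,3,0,3,0,3,1,3,3],[(201,0)],[(0,1),(201,0)]),
   ([1,0,3,0,3,0,3,1,3,3],[(202,0)],[(0,1)]),
   ([3,0,3,0,3,1,3,3,0],[(183,5)],[(0,0),(203,7)]),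
   ([3,0,3,0,3,0,3,1,1,0],[(204,8)],[(0,0),(204,6)])]

def cert5 : List Item :=
  [([2,3,0,3,0,3,0,3,1],[(0,1)],[(204,0)]),
   ([2,1,2,1,2,1,1,0],[(206,6)],[(0,0),(206,6)]),
   ([2,1,2,1,2,1,0],[(0,0)],[(207,5)]),
   ([1,0,3,0,3,0,3,0],[(208,0)],[(0,1)]),
   ([2,1,2,1,2,1,3,3,0],[(189,5)],[(2,0),(193,5)]),
   ([1,1,1,3,0,3,0,3,0],[(1,3),(184,1)],[(178,0)]),
   ([2,1,2,1,2,1,3,0,0,3],[(156,5)],[(4,0),(202,5),(204,3),(170,3)]),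
   ([2,1,2,1,2,0,0,2,0,1],[(213,8)],[(0,0),(213,8)]),
   ([0,0,2,2,0,2,1,2,1,2,1],[(101,0)],[(6,5),(208,2),(212,5)]),
   ([0,0,3,1,3,0,3,0,3,0],[(174,0)],[(5,4),(204,0)]),
   ([1,3,0,0,3,0,3,0,3,0],[(160,0)],[(6,4),(216,3)]),
   ([2,1,2,1,2,1,2,0,0,0],[(177,5)],[(9,0),(214,5),(209,3)]),
   ([0,1,2,2,1,3,0,2,1,2,1],[(3,1)],[(218,0)]),
   ([1,1,1,2,1,1,3,1,2,1,2],[(7,2)],[(192,0),(55,1),(213,0),(219,8)]),
   ([3,0,3,0,3,1,3,3,1,1],[(16,0)],[(113,3)]),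
   ([1,1,2,0,2,1,3,0,3,0,1],[(1,0)],[(221,9)]),
   ([0,1,2,1,2,1,1,1,1,1,1],[(1,1)],[(222,0)]),
   ([0,3,0,3,1,2,0,3,3,0,1],[(0,0),(33,1)],[(223,9)]),
   ([2,0,3,1,2,0,0,3,0,0,1],[(0,0)],[(224,9)]),
   ([2,1,2,1,2,0,0,2,2,2],[(11,0)],[(209,7)]),
   ([1,0,3,0,3,1,2,0,3,3,1],[(1,1)],[(225,0)]),
   ([1,1,2,0,0,2,2,0,3,3,0,3],[(190,0),(214,3),(206,6)],[(33,1),(226,0)]),
   ([1,0,0,0,2,2,1,3,0,2,1],[(6,1),(201,0)],[(227,0)]),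
   ([2,1,1,3,0,2,1,3,0,3,2],[(0,0)],[(226,9)]),
   ([3,1,3,1,2,0,0,3,0,0,3,1],[(157,0),(42,0)],[(211,7),(190,3)]),
   ([3,1,2,1,1,2,1,1,1,1,3,1],[(75,0)],[(0,1)]),
   ([2,0,0,0,0,3,0,3,0,0,0],[(224,7)],[(16,0)]),
   ([2,2,0,0,0,0,3,0,2,0,0,3],[(227,0),(213,0),(64,0)],[(0,1),(231,0)]),
   ([3,0,0,0,2,2,1,3,0,2,1,2],[(226,0),(231,3)],[(4,2),(211,1)]),
   ([3,2,0,0,2,1,3,0,2,1,2],[(0,1),(171,0)],[(232,0)]),
   ([2,2,1,3,1,1,2,1,3,0,1],[(0,0)],[(236,9)]),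
   ([1,0,0,2,1,3,0,2,1,2,1],[(0,1)],[(236,0)]),
   ([1,2,2,1,3,1,1,2,1,3,2],[(0,0)],[(235,9)]),
   ([0,0,0,2,1,3,0,2,1,2,1,2],[(227,0)],[(0,2),(239,1)]),
   ([2,2,0,3,0,2,1,2,1,2,3],[(0,0)],[(238,9)]),
   ([2,2,0,3,0,2,1,2,1,2,2,2],[(225,9)],[(1,0)]),
   ([2,2,2,0,3,0,2,1,2,1,3,3],[(0,1)],[(226,0)]),
   ([0,3,1,3,3,1,1,3,0,3,3,0],[(117,3)],[(136,0)]),
   ([3,0,0,3,0,3,0,2,0,0,2,2],[(75,0)],[(18,2)]),
   ([0,0,0,0,0,0,0,3,0,3,1,1],[(26,0)],[(171,5),(225,2)])]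

def cert6 : List Item :=
  [([3,3,0,0,0,0,3,0,0,3,0,3],[(60,2),(212,1),(182,3),(224,1),(121,3)],[(236,0),(245,3)]),
   ([3,0,2,2,1,1,2,1,3,1,1,1],[(217,8),(179,4),(156,3)],[(0,0),(187,4),(239,2),(30,0)]),
   ([3,3,0,2,1,1,1,3,1,1,2],[(0,1)],[(178,0),(199,4),(219,1),(126,1)]),
   ([0,3,1,3,0,2,1,2,1,2,0],[(0,1)],[(172,0)]),
   ([0,0,2,2,1,1,2,1,1,3,0,2],[(166,0)],[(0,1),(250,0)]),
   ([0,1,2,2,1,3,3,1,1,3,0,2],[(251,0)],[(0,1),(152,0)]),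
   ([2,2,2,1,3,3,1,1,3,0,2],[(236,0)],[(0,1)]),
   ([3,3,1,3,3,1,1,3,0,2,3],[(0,0)],[(251,9)]),
   ([3,2,1,1,3,1,3,0,2,0,3],[(251,0)],[(0,1),(237,0)]),
   ([0,1,1,3,1,3,0,2,0,3],[(0,1)],[(255,0)]),
   ([0,2,2,1,3,3,1,1,3,0,0],[(208,6),(235,3)],[(0,0)]),
   ([0,2,2,0,3,1,1,2,0,2,3],[(0,0)],[(255,9)]),
   ([0,2,2,0,3,1,1,2,0,2,1,1],[(1,0),(258,8)],[(232,7),(228,4),(258,3)]),
   ([0,1,3,1,3,0,2,0,3,1],[(0,1)],[(259,0)]),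
   ([3,1,3,1,3,0,2,0,3,1],[(1,1)],[(209,0)]),
   ([0,0,2,2,1,3,3,1,1,3,2],[(1,0)],[(258,9)]),
   ([2,3,1,3,0,2,0,3,1,2],[(0,1)],[(260,0)]),
   ([2,0,0,2,2,1,3,3,1,1,1],[(233,7),(147,0)],[(0,0)]),
   ([3,0,3,3,0,2,0,3,3,2],[(0,0)],[(261,8)]),
   ([0,1,3,0,2,0,3,1,2,1,2],[(265,0)],[(0,1)]),
   ([3,0,2,0,3,1,2,1,2,2,2],[(250,8)],[(0,0),(263,8)]),
   ([2,3,0,2,0,3,1,2,1,3,3],[(0,1)],[(265,0)]),
   ([2,0,3,0,3,3,0,2,0,2,3],[(266,9)],[(0,0),(251,7)]),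
   ([2,0,3,0,3,3,0,2,0,1],[(0,0)],[(269,8)]),
   ([1,0,2,0,3,1,2,1,2,2,1],[(0,1)],[(269,0)]),
   ([1,2,0,3,0,3,3,0,2,3],[(0,0)],[(269,8)]),
   ([3,2,0,3,1,2,1,2,2,1,3],[(0,1)],[(269,0)]),
   ([3,1,2,0,3,0,3,3,0,0],[(263,6),(265,4)],[(0,0)]),
   ([3,1,2,0,2,0,0,3,3,1,0],[(0,0),(162,4)],[(273,9)]),
   ([3,0,2,2,1,3,3,1,1,3,3],[(14,0)],[(243,5)]),
   ([0,3,1,2,0,0,2,2,0,2,3],[(1,0),(259,7)],[(274,9)]),
   ([3,1,2,0,2,0,0,2,2,3],[(0,0)],[(275,8)]),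
   ([1,0,3,1,2,0,0,2,2,0,3],[(277,0)],[(0,1)]),
   ([0,1,3,1,3,0,2,0,3,0,3],[(21,1)],[(279,0)]),
   ([0,0,2,2,0,3,1,1,2,0,1],[(0,0)],[(280,9)]),
   ([2,3,1,3,0,2,0,3,0,3,1],[(0,1)],[(279,0)]),
   ([2,0,0,2,2,0,3,1,1,2,3],[(0,0)],[(280,9)]),
   ([1,3,0,2,0,3,0,3,1,3,1],[(244,6)],[(0,0),(253,6),(283,5)]),
   ([1,3,0,2,0,3,1,2,0,0,1],[(284,9)],[(0,0)]),
   ([0,1,3,0,2,0,3,1,2,0],[(0,1)],[(285,0)])]

def cert7 : List Item :=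
  [([0,2,0,0,2,2,1,3,3,1,0],[(0,0)],[(285,9)]),
   ([3,0,2,0,3,1,2,0,0,0],[(0,0),(266,6)],[(247,5)]),
   ([2,0,0,2,2,0,3,1,1,2,2],[(266,7)],[(6,0)]),
   ([2,3,0,2,0,3,1,2,0,0],[(2,1)],[(287,0)]),
   ([2,0,2,0,0,2,2,1,3,3,2],[(287,9)],[(0,0)]),
   ([2,0,2,0,0,2,2,1,3,2],[(0,0)],[(288,8)]),
   ([2,0,0,3,1,2,0,0,2,2,0,3],[(283,0)],[(13,3),(292,2)]),
   ([2,3,0,0,2,0,0,2,2,0,3],[(0,1)],[(291,0)]),
   ([2,2,0,3,1,2,0,2,0,0,2,3],[(292,10)],[(0,0)]),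
   ([1,1,2,2,0,3,1,2,0,2,0,0],[(273,0),(294,3)],[(0,2),(294,1),(294,0)]),
   ([0,2,1,3,1,2,0,2,0,0,1],[(0,0)],[(296,9)]),
   ([2,2,0,0,2,2,0,3,3,1],[(0,1)],[(291,0),(281,3)]),
   ([2,0,2,1,3,1,2,0,2,0,1],[(0,0)],[(298,9)]),
   ([0,0,0,3,3,0,3,3,1,1,1],[(269,7)],[(0,0),(193,3)]),
   ([1,0,2,1,3,1,2,0,2,0,0],[(4,1)],[(299,0)]),
   ([1,2,0,0,2,2,0,3,3,0,3],[(0,0),(199,3)],[(107,0)]),
   ([1,1,2,0,0,2,2,0,3,3],[(1,1)],[(265,0),(289,3)]),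
   ([1,2,1,3,1,2,0,2,0,0,0],[(201,4)],[(0,0),(282,6)]),
   ([0,0,0,3,3,0,3,1,1,3,3,3],[(4,0)],[(287,9),(282,7)]),
   ([3,2,0,2,2,1,1,2,1,3,0,3],[(0,1),(297,0),(288,3),(16,0)],[(302,0)]),
   ([1,3,0,2,0,3,0,3,1,2,2,2],[(290,9),(23,0)],[(0,0),(303,9)]),
   ([0,2,0,0,2,2,0,3,1,1,3],[(19,0)],[(0,1),(223,0)]),
   ([3,0,2,0,3,0,3,1,3,3,3],[(291,8)],[(0,0),(306,9)]),
   ([3,0,2,0,3,0,3,1,2,2,3],[(0,0)],[(307,9)]),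
   ([2,1,2,1,2,0,3,1,1,3,3,1],[(112,3)],[(99,0)]),
   ([1,0,2,0,3,1,2,0,0,2,2],[(19,1)],[(310,0)]),
   ([2,1,1,2,0,2,0,0,2,2,1],[(0,2)],[(283,0),(275,2)]),
   ([1,1,1,1,1,1,1,1,3,1,3,3],[(226,5),(286,2)],[(154,0),(272,5),(293,2)]),
   ([1,3,1,3,1,2,0,0,2,2,0,3],[(265,0),(308,4),(298,7)],[(35,3),(136,0),(274,5)]),
   ([3,1,2,1,1,3,1,3,0,0,2,1],[(284,0)],[(254,4)]),
   ([2,0,0,3,0,3,0,0,3,0,0,1],[(131,0)],[(316,10)]),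
   ([1,0,2,0,2,0,0,2,0,3,1,3],[(41,1)],[(316,0)]),
   ([1,3,0,2,2,1,2,2,1,1,1,0],[(0,0)],[(317,10)]),
   ([2,1,2,0,3,1,2,0,0,2,2,2],[(303,9)],[(6,0)]),
   ([2,1,2,0,3,1,2,0,0,3,3,2],[(317,10)],[(0,0),(237,5),(257,0),(304,5)]),
   ([3,2,1,2,0,3,1,2,0,0,3],[(0,1)],[(318,0)]),
   ([0,1,2,2,1,3,3,1,3,0,3],[(12,1)],[(322,0)]),
   ([0,3,0,2,0,3,0,3,1,2,3],[(0,0)],[(321,9)]),
   ([3,2,2,1,3,3,1,3,0,3,3],[(0,1)],[(321,0)]),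
   ([3,0,3,0,2,0,3,0,3,1,0],[(0,0)],[(324,9)])]

def cert8 : List Item :=
  [([3,2,1,3,3,1,3,0,3,3,0],[(0,1)],[(323,0)]),
   ([1,3,3,0,3,0,2,0,3,0,3],[(306,0)],[(0,1),(232,0),(306,5)]),
   ([0,3,1,1,3,0,2,0,3,0,3,2],[(0,0)],[(325,10)]),
   ([0,3,1,2,0,2,0,3,1,1,2],[(158,0)],[(0,1),(318,0)]),
   ([2,1,1,3,3,1,3,0,3,3,0,2],[(0,2),(309,1)],[(302,0),(297,1),(309,4)]),
   ([1,2,0,3,1,1,3,0,2,0,3,0],[(136,0)],[(0,1)]),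
   ([1,0,3,0,2,0,0,0,0,3,3,0],[(0,1),(305,0)],[(331,0)]),
   ([3,2,1,1,3,0,2,0,3,1,1,2],[(330,0)],[(0,1),(244,0)]),
   ([1,1,3,0,2,0,3,1,1,2,3],[(0,0)],[(332,9)]),
   ([3,0,0,3,3,1,3,0,3,3,0,3],[(230,0),(20,1),(16,0)],[(0,1)]),
   ([0,1,3,0,2,2,1,2,2,1,1,2],[(0,1)],[(336,0)]),
   ([0,3,1,1,3,0,2,0,3,1,1,0],[(0,0),(308,6)],[(336,10)]),
   ([3,0,2,2,1,2,1,3,1,1,0],[(337,9)],[(0,0),(337,9)]),
   ([3,0,2,2,1,2,1,3,1,0],[(0,0)],[(338,8)]),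
   ([2,0,3,1,1,3,0,2,0,3,0],[(9,0)],[(0,1),(338,0)]),
   ([1,2,0,2,0,3,1,1,2,3],[(339,8)],[(0,0)]),
   ([1,2,0,2,0,3,1,1,0],[(0,0),(321,5)],[(341,7)]),
   ([1,0,2,2,1,2,0,3,1,1],[(0,1)],[(342,0)]),
   ([0,3,1,1,2,0,2,0,3,1],[(240,0)],[(0,2),(341,1)]),
   ([0,3,1,2,2,1,3,1,3,3,1,1],[(101,0)],[(0,2),(315,7),(345,6)]),
   ([1,2,2,1,3,1,3,3,1,0],[(345,8)],[(1,0),(345,7)]),
   ([1,1,2,2,1,3,1,3,3],[(325,0),(237,0)],[(0,1),(346,0)]),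
   ([3,1,1,2,0,2,0,3,3],[(186,0)],[(0,0)]),
   ([1,2,2,1,3,1,3,3,2],[(2,0)],[(346,7)]),
   ([0,2,2,0,2,2,1,1,3],[(1,0)],[(307,2)]),
   ([2,1,2,0,3,1,3,3,3],[(334,6)],[(0,0),(349,7)]),
   ([3,2,1,2,0,3,1,2,2],[(0,1)],[(349,0)]),
   ([1,1,3,0,2,1,1,1,3,1],[(36,0)],[(0,2),(326,0)]),
   ([2,0,0,3,0,3,0,0,3,0,3],[(167,0)],[(0,0),(352,8)]),
   ([3,0,2,2,1,1,2,1,3,1,1],[(108,0)],[(0,1),(352,0)]),
   ([0,0,0,3,0,3,0,0,3,0,3],[(122,0)],[(0,1),(356,0)]),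
   ([3,0,2,1,1,1,3,1,0],[(4,0),(344,4)],[(356,7)]),
   ([0,1,2,0,3,0,0,2,1],[(0,1)],[(358,0)]),
   ([1,0,2,1,2,0,3,1,2],[(9,1),(337,0),(249,0)],[(358,0)]),
   ([1,3,1,1,2,0,2,0],[(0,1)],[(260,0)]),
   ([3,1,1,2,0,2,0,1],[(1,0)],[(361,6)]),
   ([2,3,1,1,2,0,2,0],[(2,1)],[(360,0)]),
   ([2,2,2,1,2,0,3,1,2],[(347,0)],[(0,1),(334,0)]),
   ([1,2,1,2,0,3,1,2,3],[(3,0),(277,1)],[(362,7)]),
   ([2,3,3,1,2,0,3,1,2],[(363,0)],[(1,1)])]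

def cert9 : List Item :=
  [([2,2,0,2,2,1,1,2,3],[(1,0)],[(364,7)]),
   ([2,1,2,1,2,0,3,1,3],[(149,0)],[(0,1),(351,0)]),
   ([0,0,3,0,2,0,0,3,0,3,0],[(172,0)],[(0,1),(272,1)]),
   ([2,0,2,2,1,3,1,1,2,1,2,2],[(0,0)],[(126,0)]),
   ([2,1,2,0,3,0,2,0,0,3,0,0],[(59,0)],[(2,3),(368,2),(369,7)]),
   ([3,1,2,0,3,1,2,3],[(5,0)],[(369,6)]),
   ([3,2,1,2,0,3,1,2,1],[(369,0)],[(10,1),(308,0)]),
   ([1,1,2,0,3,1,2,1,1],[(0,1)],[(232,0)]),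
   ([1,2,2,1,3,1,1,2,1,3],[(136,0)],[(0,0),(232,0)]),
   ([0,0,2,1,3,0,2,1,2,1],[(138,0)],[(0,1),(375,0)]),
   ([0,2,2,1,3,1,1,2,1,3],[(135,0)],[(0,1),(376,0)]),
   ([2,2,0,3,0,2,1,2,1,2],[(137,0)],[(0,0),(280,1)]),
   ([2,0,2,2,1,3,1,1,2,1],[(9,0)],[(0,1)]),
   ([0,2,2,1,1,1,3,1,2,0,2,2],[(9,0)],[(0,0),(281,2),(376,7)]),
   ([0,3,0,2,1,1,1,3,0],[(347,4)],[(21,0),(379,6)]),
   ([0,0,3,0,2,2,0,2,1],[(206,0)],[(0,1)]),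
   ([3,3,0,2,2,1,3,0,0],[(0,0)],[(208,0)]),
   ([1,0,2,0,3,0,0,2,0],[(382,0)],[(0,1),(382,0)]),
   ([2,0,3,0,0,2,0,2],[(0,0)],[(334,3)]),
   ([0,3,0,2,2,0,2,2,0],[(255,1)],[(0,0),(377,4)]),
   ([0,3,0,2,2,0,2,2,2],[(1,0)],[(370,6)]),
   ([3,2,1,3,1,1,2,0,3],[(15,1)],[(384,0)]),
   ([3,1,1,2,0,2,0,0,0],[(28,0)],[(286,2),(387,1)]),
   ([2,1,2,0,3,1,2,0,0,3],[(68,0)],[(0,0),(260,0)]),
   ([3,0,3,1,2,0,3,3,1,1],[(68,0)],[(0,1),(260,0)]),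
   ([1,2,0,3,1,2,0,0,3,0],[(164,0)],[(0,0),(370,5),(370,2),(240,1),(345,0)]),
   ([0,3,0,3,1,2,0,3,3,1],[(167,0)],[(0,1)]),
   ([3,3,1,2,0,3,1,3,1],[(5,0)],[(354,4)]),
   ([1,1,3,1,1,2,0,3,3,1,3,1],[(162,0)],[(0,1),(385,6)]),
   ([3,2,0,3,1,3,0,0,2],[(8,1)],[(392,0)]),
   ([0,3,0,3,0,2,2,0,3,3,1],[(25,0)],[(0,1),(355,0),(384,3)]),
   ([3,2,1,3,0,2,2,1],[(394,0)],[(0,1),(394,0)]),
   ([2,1,1,3,0,2,2,1,2,2],[(0,2),(397,1)],[(222,0),(0,2),(343,0),(398,6)]),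
   ([0,2,0,2,2,0,2,2,1],[(275,0)],[(0,1),(379,0),(382,3)]),
   ([2,0,2,2,0,2,2,0],[(267,0)],[(1,0)]),
   ([2,1,3,0,3,1,3,3,1,3,3],[(99,0)],[(0,4),(393,2),(398,5),(361,1),(384,4),(388,3)]),
   ([1,1,2,1,1,3,0,2,2,1,1,2],[(88,0)],[(4,4),(401,3),(333,0),(357,0),(386,4)]),
   ([1,3,0,2,2,1,0],[(5,0),(397,2)],[(402,5)]),
   ([2,0,0,0,0,0,0,2],[(301,0)],[(0,2),(404,1),(402,0)]),
   ([0,0,3,1,2,0,0,3],[(339,0)],[(0,0),(403,2)])]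

def cert10 : List Item :=
  [([0,2,0,2,0,0,0,0,0,0],[(218,0)],[(0,3)]),
   ([1,2,1,1,2,1,1,1,1,3,1],[(176,0)],[(0,0),(405,4),(407,3)]),
   ([3,3,1,3,0,3,1,3,0,0,2],[(13,0)],[(0,1)]),
   ([1,1,3,3,1,2,1,3,0,0,2,1],[(0,1),(374,2)],[(93,0),(9,3),(407,2),(408,1)]),
   ([1,1,1,3,1,1,3,0],[(309,0)],[(0,2),(12,1),(409,0)]),
   ([3,1,1,2,0,2,1,2,0,2,1],[(0,3),(410,2),(398,1)],[(241,0),(214,0),(5,1),(361,0),(403,1)]),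
   ([1,3,1,3,0,0,2,1],[(0,3),(375,2),(361,2)],[(351,0)]),
   ([2,1,1,3,0,2,0,2,0],[(293,0)],[(0,2),(13,1),(411,0)]),
   ([2,1,1,1,1,1,3,1,3],[(246,0)],[(0,2),(413,1)]),
   ([2,2,1,3,0,2,1,2,1,1,1],[(0,2),(399,0)],[(169,0),(12,0),(307,0)]),
   ([3,3,0,2,2,1,1,3],[(320,0)],[(0,0)]),
   ([0,2,2,1,1,1,3,1,2,0],[(0,1),(310,0)],[(38,0)]),
   ([1,2,0,3,3,0,3,0,3,3,0],[(72,0)],[(0,0),(387,3),(418,2),(416,6),(417,5)]),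
   ([3,3,0,3,0,2,1,2,1,3,3],[(39,0)],[(0,2),(416,1),(416,0)]),
   ([0,2,2,1,3,3,1,3,3],[(34,0)],[(0,1),(420,0),(403,0)]),
   ([2,0,3,1,2,0,0,3,0],[(28,0)],[(0,0)]),
   ([0,0,0,3,0,3,0,0,3,0,2,2],[(177,0),(65,0),(420,5)],[(0,2)]),
   ([1,2,1,3,0,3,1,3,3,1,3],[(119,0)],[(0,2),(421,7),(423,6),(421,5)]),
   ([3,1,3,0,0,2,0,3,1,1,3],[(196,0)],[(0,0),(422,4)]),
   ([0,0,2,0,3,3,1,2,2,1,2],[(0,1),(425,0)],[(23,0),(13,2),(425,1),(419,0),(423,3)]),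
   ([2,2,0,0],[(420,0)],[(0,1),(0,0)]),
   ([0,0,0,2,1],[(415,0)],[(0,0),(427,3)]),
   ([1,2,2,0],[(415,0)],[(0,1),(427,0)]),
   ([0,0,2,1,1],[(415,0)],[(0,0),(429,1)]),
   ([1,1,2,2],[(408,0)],[(0,1),(429,0)]),
   ([0,2,1,1,3],[(408,0)],[(0,0)]),
   ([1,1,1,2],[(405,0)],[(0,1)]),
   ([2,1,1,3,3],[(0,0)],[(405,0)]),
   ([1,3,3,0],[(413,0)],[(0,0),(433,2)]),
   ([0,0,3,1,1],[(424,0)],[(0,1),(435,0)]),
   ([3,3,0,0],[(426,0)],[(0,0),(435,0)]),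
   ([3,0,0,3,1],[(418,0),(10,0)],[(0,1)]),
   ([0,0,0,0,0,0,0,0],[(278,0)],[(0,0),(430,0),(12,0)]),
   ([1,1,1,1,1,1,1,3,1,1],[(267,0),(1,0),(3,3),(439,2)],[(0,0),(4,4),(2,1),(439,0)]),
   ([3,0,0,0],[(432,0),(14,0)],[(0,0)]),
   ([0,0,0,3,3,1,1,3],[(327,0),(11,2),(13,0),(441,2)],[(0,0),(4,0)]),
   ([0,0,2,0,2],[(0,0),(2,1)],[(392,0),(2,1),(441,0)]),
   ([0,3,1,2,0,2,1],[(350,0),(9,0),(3,4)],[(0,2),(3,1)]),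
   ([1,1,1,1,1,3,1,1,3,1],[(0,0),(13,0)],[(261,0),(18,2),(18,0),(6,0),(4,0),(2,0),(441,1),(443,0)]),
   ([1,1,3,1,1,3,1,1],[(0,2)],[(301,0),(19,0),(3,1),(445,0),(5,0)])]

def cert11 : List Item :=
  [([3,1,1,1],[(416,0),(12,1),(0,0)],[(0,1),(6,0)]),
   ([0,2,0,2,1],[(0,2)],[(412,0),(7,2)]),
   ([0,2,0,2,2,1,1],[(0,2),(1,0),(2,1)],[(363,0),(5,3),(445,2)]),
   ([0,2,0,2,0,2],[(397,0)],[(0,1),(449,0),(448,0)]),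
   ([3,1,3,1,1],[(0,0)],[(414,0),(7,1),(449,0)]),
   ([0,2,1],[(4,0)],[(0,1)])]

def cert : List Item := cert0 ++ cert1 ++ cert2 ++ cert3 ++ cert4 ++ cert5 ++ cert6 ++ cert7 ++ cert8 ++ cert9 ++ cert10 ++ cert11


section Words

variable {G : Type*} [Group G] (a s : G)

def ev1 : ℕ → G
  | 0 => a
  | 1 => a⁻¹
  | 2 => s
  | _ => s⁻¹

def ev (w : List ℕ) : G := (w.map (ev1 a s)).prod

theorem ev_append (v w : List ℕ) : ev a s (v ++ w) = ev a s v * ev a s w := by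
  simp [ev]

def Good (R : List Rule) : Prop := ∀ q ∈ R, ev a s q.1 = ev a s q.2

theorem getD_good {R : List Rule} (h : Good a s R) (i : ℕ) :
    ev a s (R.getD i ([], [])).1 = ev a s (R.getD i ([], [])).2 := by
  by_cases hi : i < R.length
  · rw [List.getD_eq_getElem _ _ hi]
    exact h _ (List.getElem_mem hi)
  · rw [List.getD_eq_default _ _ (not_lt.mp hi)]

theorem step_good {R : List Rule} (h : Good a s R) (w : List ℕ) (q : ℕ × ℕ) :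
    ev a s (step R w q) = ev a s w := by
  unfold step
  split_ifs with hc
  · conv_rhs => rw [← List.take_append_drop q.2 w,
      ← List.take_append_drop (R.getD q.1 ([], [])).1.length (w.drop q.2), hc]
    rw [ev_append, ev_append, ev_append, ev_append, getD_good a s h]
  · rfl

theorem foldl_good {R : List Rule} (h : Good a s R) (l : List (ℕ × ℕ)) (w : List ℕ) :
    ev a s (l.foldl (step R) w) = ev a s w := by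
  induction l generalizing w with
  | nil => rfl
  | cons q l ih => rw [List.foldl_cons, ih, step_good a s h]

theorem addItem_good {R : List Rule} (h : Good a s R) (t : Item) : Good a s (addItem R t) := by
  intro q hq
  rcases List.mem_cons.mp hq with rfl | hq
  · simp only
    rw [foldl_good a s h, foldl_good a s h]
  · exact h q hq

theorem cert_good (c : List Item) {R : List Rule} (h : Good a s R) :
    Good a s (c.foldl addItem R) := by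
  induction c generalizing R with
  | nil => exact h
  | cons t c ih => exact ih (addItem_good a s h t)

theorem final_head : (cert.foldl addItem baseRules).head? = some ([2], [0]) := by
  decide +kernel

/-- In every group, `s ^ 5 = 1` and `a ^ 3 * s = s ^ 2 * a ^ 2` imply `a = s`. -/
theorem eq_of_rel (h5 : s ^ 5 = 1) (h : a ^ 3 * s = s ^ 2 * a ^ 2) : a = s := by
  have hb : Good a s baseRules := by
    intro q hq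
    simp only [baseRules, List.mem_cons, List.not_mem_nil, or_false] at hq
    have h1 : a * a * a * s = s * s * a * a := by
      have e1 : a * a * a * s = a ^ 3 * s := by simp only [pow_succ, pow_zero, one_mul]
      have e2 : s * s * a * a = s ^ 2 * a ^ 2 := by simp only [pow_succ, pow_zero, one_mul, mul_assoc]
      rw [e1, e2, h]
    have h2 : s * s * s * s * s = 1 := by
      rw [← h5]; simp only [pow_succ, pow_zero, one_mul]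
    rcases hq with rfl | rfl | rfl | rfl | rfl | rfl | rfl <;>
      simp only [ev, ev1, List.map_cons, List.map_nil, List.prod_cons, List.prod_nil, mul_one,
        ← mul_assoc, h1, h2, inv_mul_cancel, mul_inv_cancel]
  have hf := cert_good a s cert hb
  have hm : ([2], [0]) ∈ cert.foldl addItem baseRules := List.mem_of_mem_head? (by rw [final_head]; rfl)
  have := hf _ hm
  simpa [ev, ev1] using this.symm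

end Words

section Fox

variable {π : Type} [Group π] {n : ℕ}

/-- The action of `π` on the module `(ℤ[π])^n`, written multiplicatively. -/
def act (π : Type) [Group π] (n : ℕ) : π →* MulAut (Multiplicative (Fin n → MonoidAlgebra ℤ π)) :=
  ((MulAutMultiplicative (Fin n → MonoidAlgebra ℤ π)).symm.toMonoidHom.comp
    (DistribMulAction.toAddAut (MonoidAlgebra ℤ π)ˣ (Fin n → MonoidAlgebra ℤ π))).comp
    (MonoidAlgebra.of ℤ π).toHomUnits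

theorem act_apply (g : π) (v : Fin n → MonoidAlgebra ℤ π) (j : Fin n) :
    (act π n g (Multiplicative.ofAdd v)).toAdd j = MonoidAlgebra.of ℤ π g * v j := rfl

def affHom (c : Fin n → π) : Pi1One π n →* (Multiplicative (Fin n → MonoidAlgebra ℤ π)) ⋊[act π n] π :=
  Monoid.Coprod.lift SemidirectProduct.inr
    (FreeGroup.lift fun i => ⟨Multiplicative.ofAdd (fun j => if i = j then 1 else 0), c i⟩)

def fox (c : Fin n → π) (u : Pi1One π n) (j : Fin n) : MonoidAlgebra ℤ π := (affHom c u).left.toAdd j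

theorem aff_right (c : Fin n → π) (u : Pi1One π n) :
    (affHom c u).right = Monoid.Coprod.lift (MonoidHom.id π) (FreeGroup.lift c) u := by
  have : (SemidirectProduct.rightHom).comp (affHom c) = Monoid.Coprod.lift (MonoidHom.id π) (FreeGroup.lift c) := by
    apply Monoid.Coprod.hom_ext
    · ext g
      simp [affHom]
    · ext i
      simp [affHom]
  exact DFunLike.congr_fun this u

theorem fox_isFox (c : Fin n → π) :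
    IsFox (Monoid.Coprod.lift (MonoidHom.id π) (FreeGroup.lift c)) (fox c) where
  mul u v j := by
    rw [← aff_right]
    simp only [fox, map_mul, SemidirectProduct.mul_left, toAdd_mul, Pi.add_apply]
    rfl
  base g j := by
    simp [fox, affHom]
  gen i j := by
    simp [fox, affHom]

end Fox

section Det

variable {R : Type} [Ring R] {k : Type} [CommRing k] (ψ : R →+* k)

/-- A ring homomorphism to a commutative ring induces a homomorphism `GL_n(R) → kˣ`. -/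
def detN (n : ℕ) : (Matrix (Fin n) (Fin n) R)ˣ →* kˣ :=
  (Units.map (Matrix.detMonoidHom : Matrix (Fin n) (Fin n) k →* k)).comp
    (Units.map (ψ.mapMatrix : Matrix (Fin n) (Fin n) R →+* Matrix (Fin n) (Fin n) k).toMonoidHom)

theorem detN_val {n : ℕ} (M : (Matrix (Fin n) (Fin n) R)ˣ) :
    ((detN ψ n M : kˣ) : k) = (ψ.mapMatrix (M : Matrix (Fin n) (Fin n) R)).det := rfl

def detFree : FreeAbelianGroup (Σ n : ℕ, (Matrix (Fin n) (Fin n) R)ˣ) →+ Additive kˣ :=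
  FreeAbelianGroup.lift fun p => Additive.ofMul (detN ψ p.1 p.2)

theorem detFree_rel (x : FreeAbelianGroup (Σ n : ℕ, (Matrix (Fin n) (Fin n) R)ˣ))
    (hx : x ∈ AddSubgroup.closure (K1Rel R)) : detFree ψ x = 0 := by
  have : AddSubgroup.closure (K1Rel R) ≤ (detFree ψ).ker := by
    rw [AddSubgroup.closure_le]
    rintro x (⟨n, M, N, rfl⟩ | ⟨n, M, N, hN, rfl⟩)
    · rw [SetLike.mem_coe, AddMonoidHom.mem_ker]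
      simp [detFree]
    · rw [SetLike.mem_coe, AddMonoidHom.mem_ker, map_sub, sub_eq_zero]
      simp only [detFree, FreeAbelianGroup.lift_apply_of]
      apply congrArg
      apply Units.ext
      rw [detN_val, detN_val, hN, RingHom.mapMatrix_apply, RingHom.mapMatrix_apply,
        Matrix.reindex_apply, ← Matrix.submatrix_map, Matrix.fromBlocks_map,
        ← Matrix.reindex_apply, Matrix.det_reindex_self, Matrix.map_zero _ (map_zero ψ),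
        Matrix.map_zero _ (map_zero ψ), Matrix.map_one _ (map_zero ψ) (map_one ψ),
        Matrix.det_fromBlocks_zero₂₁, Matrix.det_one, mul_one]
  exact this hx

/-- The determinant homomorphism on `K₁(R)` after a change of rings. -/
def detK1 : K1 R →+ Additive kˣ :=
  QuotientAddGroup.lift (AddSubgroup.closure (K1Rel R)) (detFree ψ) (detFree_rel ψ)

theorem detK1_mk {n : ℕ} (M : (Matrix (Fin n) (Fin n) R)ˣ) :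
    detK1 ψ (K1.mk M) = Additive.ofMul (detN ψ n M) := by
  change detFree ψ (FreeAbelianGroup.of ⟨n, M⟩) = _
  simp [detFree]

theorem detN_one_val (M : (Matrix (Fin 1) (Fin 1) R)ˣ) :
    ((detN ψ 1 M : kˣ) : k) = ψ ((M : Matrix (Fin 1) (Fin 1) R) 0 0) := by
  rw [detN_val, Matrix.det_fin_one, RingHom.mapMatrix_apply, Matrix.map_apply]

end Det

end

end Pool.Agent.Y942.WH
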