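import Pool.Agent.Y942.WH.Sum

open Matrix

set_option autoImplicit false
set_option maxHeartbeats 400000

namespace Pool.Agent.Y942.WH

noncomputable section

theorem der_ext' {π G : Type} [Group π] [Group G] {n : ℕ} (ρ : Pi1One π n →* G)
    (E E' : Pi1One π n → MonoidAlgebra ℤ G)
    (hm : ∀ u v, E (u * v) = E u + MonoidAlgebra.of ℤ G (ρ u) * E v)
    (hm' : ∀ u v, E' (u * v) = E' u + MonoidAlgebra.of ℤ G (ρ u) * E' v)
    (hb : ∀ g, E (Monoid.Coprod.inl g) = E' (Monoid.Coprod.inl g))
    (hg : ∀ i, E (Monoid.Coprod.inr (FreeGroup.of i)) = E' (Monoid.Coprod.inr (FreeGroup.of i)))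
    (u : Pi1One π n) : E u = E' u := by
  have one : ∀ F : Pi1One π n → MonoidAlgebra ℤ G,
      (∀ u v, F (u * v) = F u + MonoidAlgebra.of ℤ G (ρ u) * F v) → F 1 = 0 := by
    intro F hF
    have h := hF 1 1
    rw [map_one, map_one, one_mul, one_mul] at h
    exact left_eq_add.mp h
  have inv : ∀ F : Pi1One π n → MonoidAlgebra ℤ G,
      (∀ u v, F (u * v) = F u + MonoidAlgebra.of ℤ G (ρ u) * F v) →
      ∀ u, F u⁻¹ = - (MonoidAlgebra.of ℤ G (ρ u)⁻¹ * F u) := by
    intro F hF u
    have h := hF u⁻¹ u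
    rw [inv_mul_cancel, one F hF, map_inv] at h
    exact eq_neg_of_add_eq_zero_left h.symm
  induction u using Monoid.Coprod.induction_on with
  | inl g => exact hb g
  | inr w =>
    induction w using FreeGroup.induction_on with
    | C1 => rw [map_one, one E hm, one E' hm']
    | of i => exact hg i
    | inv_of i hi =>
      rw [map_inv, inv E hm, inv E' hm']
      rw [hi]
    | mul x y hx hy => rw [map_mul, hm, hm', hx, hy]
  | mul x y hx hy => rw [hm, hm', hx, hy]

section Funct

variable {H π : Type} [Group H] [Group π] (f : H →* π)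

def jf (n : ℕ) : Pi1One H n →* Pi1One π n :=
  Monoid.Coprod.lift (Monoid.Coprod.inl.comp f) Monoid.Coprod.inr

theorem jf_inl {n : ℕ} (g : H) : jf f n (Monoid.Coprod.inl g) = Monoid.Coprod.inl (f g) := by
  simp [jf]

theorem jf_inr {n : ℕ} (w : FreeGroup (Fin n)) : jf f n (Monoid.Coprod.inr w) = Monoid.Coprod.inr w := by
  simp [jf]

/-- the induced homomorphism of group rings -/
def fR : MonoidAlgebra ℤ H →+* MonoidAlgebra ℤ π := MonoidAlgebra.mapDomainRingHom ℤ f

theorem fR_of (g : H) : fR f (MonoidAlgebra.of ℤ H g) = MonoidAlgebra.of ℤ π (f g) := by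
  simp [fR]

/-- the induced homomorphism of invertible matrices -/
def fM (n : ℕ) : (Matrix (Fin n) (Fin n) (MonoidAlgebra ℤ H))ˣ →*
    (Matrix (Fin n) (Fin n) (MonoidAlgebra ℤ π))ˣ :=
  Units.map (fR f).mapMatrix.toMonoidHom

theorem fM_val {n : ℕ} (M : (Matrix (Fin n) (Fin n) (MonoidAlgebra ℤ H))ˣ) (i j : Fin n) :
    ((fM f n M : (Matrix (Fin n) (Fin n) (MonoidAlgebra ℤ π))ˣ) :
      Matrix (Fin n) (Fin n) (MonoidAlgebra ℤ π)) i j = fR f ((M : Matrix _ _ (MonoidAlgebra ℤ H)) i j) :=
  rfl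

end Funct

/-- Every realised torsion over `H` is the class of a matrix all of whose images under
homomorphisms `H → π` are realised. -/
theorem whStar_map {H : Type} [Group H] {x : Wh H} (hx : x ∈ WhStar H) :
    ∃ (n : ℕ) (B : (Matrix (Fin n) (Fin n) (MonoidAlgebra ℤ H))ˣ), x = Wh.mk B ∧
      ∀ (π : Type) [Group π] (f : H →* π), Wh.mk (fM f n B) ∈ WhStar π := by
  obtain ⟨n, r, ρ, D, B, hbij, hρ, hD, hB, rfl⟩ := hx
  refine ⟨n, B, rfl, fun π _ f => ?_⟩
  let R : Fin n → Pi1One π n := fun i => jf f n (r i)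
  let c : Fin n → π := fun i => f (ρ (Monoid.Coprod.inr (FreeGroup.of i)))
  let P : Pi1One π n →* π := Monoid.Coprod.lift (MonoidHom.id π) (FreeGroup.lift c)
  have hPinl : ∀ g, P (Monoid.Coprod.inl g) = g := fun g => by simp [P]
  have hPinr : ∀ i, P (Monoid.Coprod.inr (FreeGroup.of i)) = c i := fun i => by simp [P]
  have hcomp : P.comp (jf f n) = f.comp ρ := by
    apply Monoid.Coprod.hom_ext
    · apply MonoidHom.ext
      intro g
      change P (jf f n (Monoid.Coprod.inl g)) = f (ρ (Monoid.Coprod.inl g))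
      rw [jf_inl, hPinl, rho_inl hbij.1 hρ]
    · apply FreeGroup.ext_hom
      intro i
      change P (jf f n (Monoid.Coprod.inr (FreeGroup.of i))) = f (ρ (Monoid.Coprod.inr (FreeGroup.of i)))
      rw [jf_inr, hPinr]
  have hPj : ∀ u, P (jf f n u) = f (ρ u) := fun u => DFunLike.congr_fun hcomp u
  have hPR : ∀ k, P (R k) = 1 := by
    intro k
    change P (jf f n (r k)) = 1
    rw [hPj, rho_r hbij.1 hρ, map_one]
  have hk : Subgroup.normalClosure (Set.range r) ≤ ((toPi1 R).comp (jf f n)).ker := by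
    apply Subgroup.normalClosure_le_normal
    rintro _ ⟨i, rfl⟩
    exact toPi1_r R i
  let q : Pi1 r →* Pi1 R := QuotientGroup.lift _ ((toPi1 R).comp (jf f n)) (fun x hx => hk hx)
  have hpush : ∀ u, incl R (f (ρ u)) = toPi1 R (jf f n u) := by
    intro u
    have h1 : q (incl r (ρ u)) = incl R (f (ρ u)) := by
      change toPi1 R (jf f n (Monoid.Coprod.inl (ρ u))) = toPi1 R (Monoid.Coprod.inl (f (ρ u)))
      rw [jf_inl]
    have h2 : q (toPi1 r u) = toPi1 R (jf f n u) := rfl
    rw [← h1, ← h2, hρ]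
  have hRP : (incl R).comp P = toPi1 R := by
    apply Monoid.Coprod.hom_ext
    · apply MonoidHom.ext
      intro g
      change incl R (P (Monoid.Coprod.inl g)) = toPi1 R (Monoid.Coprod.inl g)
      rw [hPinl]
      rfl
    · apply FreeGroup.ext_hom
      intro k
      change incl R (P (Monoid.Coprod.inr (FreeGroup.of k))) = toPi1 R (Monoid.Coprod.inr (FreeGroup.of k))
      rw [hPinr, ← jf_inr f]
      exact hpush _
  have hRP' : ∀ u, incl R (P u) = toPi1 R u := fun u => DFunLike.congr_fun hRP u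
  have hker : Subgroup.normalClosure (Set.range R) ≤ P.ker := by
    apply Subgroup.normalClosure_le_normal
    rintro _ ⟨i, rfl⟩
    exact hPR i
  have hbijR : Function.Bijective (incl R) := by
    constructor
    · intro g h hgh
      let Q : Pi1 R →* π := QuotientGroup.lift _ P (fun x hx => hker hx)
      have h2 : ∀ g : π, Q (incl R g) = g := fun g => by
        change P (Monoid.Coprod.inl g) = g
        rw [hPinl]
      rw [← h2 g, ← h2 h, hgh]
    · intro y
      obtain ⟨x, rfl⟩ := QuotientGroup.mk'_surjective _ y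
      exact ⟨P x, hRP' x⟩
  have hF : IsFox P (fox c) := fox_isFox c
  have hfox : ∀ u j, fox c (jf f n u) j = fR f (D u j) := by
    intro u j
    refine der_ext' (f.comp ρ) (fun u => fox c (jf f n u) j) (fun u => fR f (D u j))
      (fun u v => ?_) (fun u v => ?_) (fun g => ?_) (fun i => ?_) u
    · simp only [map_mul]
      rw [hF.mul, hPj]
      rfl
    · rw [hD.mul, map_add, map_mul, fR_of]
      rfl
    · rw [jf_inl, hF.base, hD.base, map_zero]
    · rw [jf_inr, hF.gen, hD.gen]
      split_ifs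
      · rw [map_one]
      · rw [map_zero]
  refine ⟨n, R, P, fox c, fM f n B, hbijR, hRP', hF, ?_, rfl⟩
  intro i j
  rw [fM_val, hB]
  exact (hfox (r i) j).symm

end

end Pool.Agent.Y942.WH
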