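import Pool.Agent.Y942.WH.SK
import Pool.Agent.Y942.WH.Funct

set_option autoImplicit false
set_option maxHeartbeats 400000

namespace Pool.Agent.Y942.WH

noncomputable section

/-- The product of the values of an integral polynomial at all `e`-th roots of unity is an
integer. -/
theorem prod_int (U : Polynomial ℤ) (e : ℕ) (he : 0 < e) (ζ : ℂ) (hζ : IsPrimitiveRoot ζ e) :
    ∃ D : ℤ, ∏ k ∈ Finset.range e, Polynomial.aeval (ζ ^ k) U = (D : ℂ) := by
  let f : Polynomial ℤ := Polynomial.X ^ e - Polynomial.C 1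
  have hfm : f.map (Int.castRingHom ℂ) = Polynomial.X ^ e - Polynomial.C 1 := by simp [f]
  have h := Polynomial.resultant_eq_prod_eval (f.map (Int.castRingHom ℂ))
    (U.map (Int.castRingHom ℂ)) U.natDegree Polynomial.natDegree_map_le (IsAlgClosed.splits _)
  have hlead : (f.map (Int.castRingHom ℂ)).leadingCoeff = 1 := by
    rw [hfm]
    exact Polynomial.leadingCoeff_X_pow_sub_C he
  have hroots : (f.map (Int.castRingHom ℂ)).roots = (Multiset.range e).map (fun k => ζ ^ k * 1) := by
    rw [hfm]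
    exact hζ.nthRoots_eq (one_pow e)
  rw [hlead, one_pow, one_mul, hroots, Polynomial.resultant_map_map, Multiset.map_map] at h
  refine ⟨_, Eq.trans ?_ h.symm⟩
  rw [Finset.prod_eq_multiset_prod]
  congr 1
  apply Multiset.map_congr rfl
  intro k _
  simp only [Function.comp_apply, mul_one, Polynomial.eval_map]
  rw [Polynomial.aeval_def]
  rfl

section CharTheory

variable {π : Type} [CommGroup π]

def chA (χ : AddChar (Additive π) ℂ) : π →* ℂ where
  toFun g := χ (Additive.ofMul g)
  map_one' := χ.map_zero_eq_one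
  map_mul' a b := χ.map_add_eq_mul _ _

def evA (χ : AddChar (Additive π) ℂ) : MonoidAlgebra ℤ π →+* ℂ :=
  (MonoidAlgebra.lift ℤ ℂ π (chA χ)).toRingHom

theorem evA_of (χ : AddChar (Additive π) ℂ) (g : π) :
    evA χ (MonoidAlgebra.of ℤ π g) = χ (Additive.ofMul g) := by
  simp [evA, chA]

theorem ev_poly (e : ℕ) (he : 0 < e) (ζ : ℂ) (hζ : IsPrimitiveRoot ζ e)
    (χ : AddChar (Additive π) ℂ) (hχ : ∀ g : π, g ^ e = 1) (x : MonoidAlgebra ℤ π) :
    ∃ U : Polynomial ℤ, ∀ k : ℕ,
      evA χ (fR (powMonoidHom k : π →* π) x) = Polynomial.aeval (ζ ^ k) U := by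
  haveI : NeZero e := ⟨he.ne'⟩
  induction x using MonoidAlgebra.induction_on with
  | of g =>
    have h1 : χ (Additive.ofMul g) ^ e = 1 := by
      rw [← AddChar.map_nsmul_eq_pow, ← ofMul_pow, hχ, ofMul_one, AddChar.map_zero_eq_one]
    obtain ⟨i, _, hi⟩ := hζ.eq_pow_of_pow_eq_one h1
    refine ⟨Polynomial.X ^ i, fun k => ?_⟩
    rw [fR_of, evA_of, powMonoidHom_apply, ofMul_pow, AddChar.map_nsmul_eq_pow, ← hi, map_pow,
      Polynomial.aeval_X, ← pow_mul, ← pow_mul, mul_comm]
  | add f g hf hg =>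
    obtain ⟨U, hU⟩ := hf
    obtain ⟨V, hV⟩ := hg
    exact ⟨U + V, fun k => by rw [map_add, map_add, hU, hV, map_add]⟩
  | smul r f hf =>
    obtain ⟨U, hU⟩ := hf
    exact ⟨r • U, fun k => by rw [map_zsmul, map_zsmul, hU, map_zsmul]⟩

variable [Finite π]

theorem ev_inj (x : MonoidAlgebra ℤ π) (h : ∀ χ : AddChar (Additive π) ℂ, evA χ x = 0) : x = 0 := by
  classical
  haveI : Fintype π := Fintype.ofFinite π
  haveI : Fintype (Additive π) := Fintype.ofFinite _
  have key : ∀ (y : MonoidAlgebra ℤ π) (g0 : π),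
      ∑ χ : AddChar (Additive π) ℂ, χ (-Additive.ofMul g0) * evA χ y =
        (Fintype.card (Additive π) : ℂ) * ((y.coeff g0 : ℤ) : ℂ) := by
    intro y g0
    induction y using MonoidAlgebra.induction_on with
    | of g =>
      have h1 : ∀ χ : AddChar (Additive π) ℂ, χ (-Additive.ofMul g0) * evA χ (MonoidAlgebra.of ℤ π g) =
          χ (-Additive.ofMul g0 + Additive.ofMul g) := by
        intro χ
        rw [evA_of, AddChar.map_add_eq_mul]
      rw [Finset.sum_congr rfl (fun χ _ => h1 χ), AddChar.sum_apply_eq_ite]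
      by_cases hg : g = g0
      · subst hg
        simp
      · rw [if_neg]
        · simp [Finsupp.single_apply, hg]
        · intro h2
          apply hg
          rw [neg_add_eq_zero] at h2
          exact (Additive.ofMul.injective h2).symm
    | add f g hf hg =>
      simp only [map_add, mul_add, Finset.sum_add_distrib, hf, hg, MonoidAlgebra.coeff_add,
        Finsupp.add_apply, Int.cast_add]
    | smul r f hf =>
      have h1 : ∀ χ : AddChar (Additive π) ℂ, χ (-Additive.ofMul g0) * evA χ (r • f) =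
          r • (χ (-Additive.ofMul g0) * evA χ f) := fun χ => by rw [map_zsmul, mul_smul_comm]
      rw [Finset.sum_congr rfl (fun χ _ => h1 χ), ← Finset.smul_sum, hf]
      have h2 : (r • f).coeff g0 = r * f.coeff g0 := by
        rw [MonoidAlgebra.coeff_smul]
        rfl
      rw [h2, zsmul_eq_mul, Int.cast_mul]
      ring
  apply MonoidAlgebra.ext
  ext g0
  have h2 := key x g0
  simp only [h, mul_zero, Finset.sum_const_zero] at h2
  have h3 : (Fintype.card (Additive π) : ℂ) ≠ 0 := Nat.cast_ne_zero.mpr Fintype.card_ne_zero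
  have h4 := (mul_eq_zero.mp h2.symm).resolve_left h3
  have h5 : x.coeff g0 = 0 := by exact_mod_cast h4
  rw [h5]
  rfl

/-- The product of the images of a unit under all power maps has square one. -/
theorem norm_sq (e : ℕ) (he : 0 < e) (hexp : ∀ g : π, g ^ e = 1) (u : (MonoidAlgebra ℤ π)ˣ) :
    (∏ k ∈ Finset.range e, fR (powMonoidHom k : π →* π) (u : MonoidAlgebra ℤ π)) ^ 2 = 1 := by
  rw [← sub_eq_zero]
  apply ev_inj
  intro χ
  let ζ : ℂ := Complex.exp (2 * Real.pi * Complex.I / (e : ℂ))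
  have hζ : IsPrimitiveRoot ζ e := Complex.isPrimitiveRoot_exp e he.ne'
  have hD : ∀ x : MonoidAlgebra ℤ π, ∃ D : ℤ,
      ∏ k ∈ Finset.range e, evA χ (fR (powMonoidHom k : π →* π) x) = (D : ℂ) := by
    intro x
    obtain ⟨U, hU⟩ := ev_poly e he ζ hζ χ hexp x
    simp only [hU]
    exact prod_int U e he ζ hζ
  obtain ⟨D, hD1⟩ := hD (u : MonoidAlgebra ℤ π)
  obtain ⟨D', hD2⟩ := hD ((u⁻¹ : (MonoidAlgebra ℤ π)ˣ) : MonoidAlgebra ℤ π)
  have h1 : (D : ℂ) * (D' : ℂ) = 1 := by
    rw [← hD1, ← hD2, ← Finset.prod_mul_distrib]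
    apply Finset.prod_eq_one
    intro k _
    rw [← map_mul, ← map_mul, Units.mul_inv, map_one, map_one]
  have h2 : D * D' = 1 := by exact_mod_cast h1
  have h3 : D ^ 2 = 1 := by
    rcases Int.eq_one_or_neg_one_of_mul_eq_one h2 with h | h <;> rw [h] <;> norm_num
  rw [map_sub, map_pow, map_prod, hD1, map_one, sub_eq_zero]
  exact_mod_cast h3

omit [Finite π] in
theorem ev_mul_eq_zero (a x : MonoidAlgebra ℤ π) (χ : AddChar (Additive π) ℂ) (ha : evA χ a ≠ 0)
    (h : a * x = 0) : evA χ x = 0 := by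
  have h1 := congrArg (evA χ) h
  rw [map_mul, map_zero] at h1
  exact (mul_eq_zero.mp h1).resolve_left ha

theorem finite_quot (a : MonoidAlgebra ℤ π) (ha : ∀ χ : AddChar (Additive π) ℂ, evA χ a ≠ 0) :
    Finite (MonoidAlgebra ℤ π ⧸ Ideal.span {a}) := by
  have hinj : Function.Injective (LinearMap.mulLeft ℤ a) := by
    rw [injective_iff_map_eq_zero]
    intro x hx
    exact ev_inj x (fun χ => ev_mul_eq_zero a x χ (ha χ) hx)
  have hN : Module.finrank ℤ (LinearMap.range (LinearMap.mulLeft ℤ a)) =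
      Module.finrank ℤ (MonoidAlgebra ℤ π) := (LinearEquiv.ofInjective _ hinj).finrank_eq.symm
  have hr : (Ideal.span {a}).restrictScalars ℤ = LinearMap.range (LinearMap.mulLeft ℤ a) := by
    ext x
    rw [Submodule.restrictScalars_mem, Ideal.mem_span_singleton, LinearMap.mem_range]
    constructor
    · rintro ⟨y, rfl⟩
      exact ⟨y, rfl⟩
    · rintro ⟨y, rfl⟩
      exact ⟨y, rfl⟩
  have hfin : Finite (MonoidAlgebra ℤ π ⧸ (Ideal.span {a}).restrictScalars ℤ) :=
    Submodule.finiteQuotientOfFreeOfRankEq _ (by rw [hr]; exact hN)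
  exact hfin

theorem FQ_group : FQ (MonoidAlgebra ℤ π) := by
  intro ι _ _ i0 v c h
  classical
  let σ := Fintype.equivFin ι
  let p : AddChar (Additive π) ℂ → Polynomial ℂ := fun χ => Polynomial.C (evA χ (v i0)) +
    ∑ j ∈ Finset.univ.erase i0, Polynomial.C (evA χ (v j)) * Polynomial.X ^ ((σ j : ℕ) + 1)
  have hp : ∀ χ, p χ ≠ 0 := by
    intro χ h0
    have hz : ∀ j, evA χ (v j) = 0 := by
      intro j
      by_cases hj : j = i0
      · subst hj
        have h1 := congrArg (fun q => Polynomial.coeff q 0) h0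
        simpa [p, Polynomial.coeff_X_pow] using h1
      · have h1 := congrArg (fun q => Polynomial.coeff q ((σ j : ℕ) + 1)) h0
        simp only [p, Polynomial.coeff_add, Polynomial.coeff_C_succ, zero_add,
          Polynomial.finset_sum_coeff, Polynomial.coeff_C_mul, Polynomial.coeff_X_pow,
          Polynomial.coeff_zero] at h1
        rw [Finset.sum_eq_single j] at h1
        · simpa using h1
        · intro k _ hk
          rw [if_neg, mul_zero]
          intro h2
          apply hk
          apply σ.injective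
          apply Fin.ext
          omega
        · intro h2
          exact absurd (Finset.mem_erase.mpr ⟨hj, Finset.mem_univ j⟩) h2
    have h1 := congrArg (evA χ) h
    simp only [map_sum, map_mul, hz, mul_zero, Finset.sum_const_zero, map_one] at h1
    exact zero_ne_one h1
  let P := ∏ χ, p χ
  have hP : P ≠ 0 := Finset.prod_ne_zero_iff.mpr (fun χ _ => hp χ)
  obtain ⟨T, hT⟩ : ∃ T : ℕ, P.eval (T : ℂ) ≠ 0 := by
    by_contra hcon
    push Not at hcon
    exact hP (Polynomial.eq_zero_of_infinite_isRoot P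
      (Set.infinite_of_injective_forall_mem Nat.cast_injective hcon))
  refine ⟨fun j => (T : MonoidAlgebra ℤ π) ^ ((σ j : ℕ) + 1), ?_⟩
  apply finite_quot
  intro χ
  have h1 : (p χ).eval (T : ℂ) ≠ 0 := by
    rw [Polynomial.eval_prod] at hT
    exact Finset.prod_ne_zero_iff.mp hT χ (Finset.mem_univ χ)
  have h2 : evA χ (v i0 + ∑ j ∈ Finset.univ.erase i0, (T : MonoidAlgebra ℤ π) ^ ((σ j : ℕ) + 1) * v j) =
      (p χ).eval (T : ℂ) := by
    simp only [p, map_add, map_sum, map_mul, map_pow, map_natCast, Polynomial.eval_add,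
      Polynomial.eval_C, Polynomial.eval_finset_sum, Polynomial.eval_mul, Polynomial.eval_pow,
      Polynomial.eval_X]
    congr 1
    apply Finset.sum_congr rfl
    intro j _
    ring
  rw [h2]
  exact h1

end CharTheory

end

end Pool.Agent.Y942.WH
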