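import Pool.Agent.Y942.WH.Base

open Matrix

set_option autoImplicit false

namespace Pool.Agent.Y942.WH

noncomputable section

section Cls

variable {R : Type} [Ring R]

theorem K1.mk_mul {n : ℕ} (M N : (Matrix (Fin n) (Fin n) R)ˣ) :
    K1.mk (M * N) = K1.mk M + K1.mk N := by
  unfold K1.mk
  rw [← map_add]
  apply (QuotientAddGroup.mk'_eq_mk' _).mpr
  refine ⟨(FreeAbelianGroup.of ⟨n, M⟩ + FreeAbelianGroup.of ⟨n, N⟩) - FreeAbelianGroup.of ⟨n, M * N⟩, ?_, by abel⟩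
  rw [← neg_sub]
  apply neg_mem
  exact AddSubgroup.subset_closure (Or.inl ⟨n, M, N, rfl⟩)

theorem K1.mk_one (n : ℕ) : K1.mk (1 : (Matrix (Fin n) (Fin n) R)ˣ) = 0 := by
  have h := K1.mk_mul (1 : (Matrix (Fin n) (Fin n) R)ˣ) 1
  rw [one_mul] at h
  exact left_eq_add.mp h

theorem K1.mk_inv {n : ℕ} (M : (Matrix (Fin n) (Fin n) R)ˣ) :
    K1.mk M⁻¹ = - K1.mk M := by
  have h := K1.mk_mul M M⁻¹
  rw [mul_inv_cancel, K1.mk_one] at h
  exact (neg_eq_of_add_eq_zero_right h.symm).symm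

/-- change of the index type -/
def rx {ι κ : Type} [Fintype ι] [DecidableEq ι] [Fintype κ] [DecidableEq κ] (e : ι ≃ κ) :
    (Matrix ι ι R)ˣ ≃* (Matrix κ κ R)ˣ :=
  Units.mapEquiv (Matrix.reindexAlgEquiv ℤ R e).toMulEquiv

theorem rx_val {ι κ : Type} [Fintype ι] [DecidableEq ι] [Fintype κ] [DecidableEq κ] (e : ι ≃ κ)
    (M : (Matrix ι ι R)ˣ) : ((rx e M : (Matrix κ κ R)ˣ) : Matrix κ κ R) =
      (M : Matrix ι ι R).submatrix e.symm e.symm := rfl

theorem K1.mk_perm {n : ℕ} (e : Fin n ≃ Fin n) (M : (Matrix (Fin n) (Fin n) R)ˣ) :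
    K1.mk (rx e M) = K1.mk M := by
  have hP : (e.symm.toPEquiv.toMatrix : Matrix (Fin n) (Fin n) R) * e.toPEquiv.toMatrix = 1 := by
    rw [← PEquiv.toMatrix_trans, ← Equiv.toPEquiv_trans, Equiv.symm_trans_self, Equiv.toPEquiv_refl,
      PEquiv.toMatrix_refl]
  have hP' : (e.toPEquiv.toMatrix : Matrix (Fin n) (Fin n) R) * e.symm.toPEquiv.toMatrix = 1 := by
    rw [← PEquiv.toMatrix_trans, ← Equiv.toPEquiv_trans, Equiv.self_trans_symm, Equiv.toPEquiv_refl,
      PEquiv.toMatrix_refl]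
  let P : (Matrix (Fin n) (Fin n) R)ˣ := ⟨_, _, hP, hP'⟩
  have h : rx e M = P * M * P⁻¹ := by
    apply Units.ext
    rw [rx_val]
    change _ = (e.symm.toPEquiv.toMatrix : Matrix (Fin n) (Fin n) R) * (M : Matrix (Fin n) (Fin n) R) *
      e.toPEquiv.toMatrix
    rw [PEquiv.toMatrix_toPEquiv_mul, PEquiv.mul_toMatrix_toPEquiv]
    rfl
  rw [h, K1.mk_mul, K1.mk_mul, K1.mk_inv]
  abel

theorem K1.mk_rx {n m : ℕ} (e : Fin n ≃ Fin m) (M : (Matrix (Fin n) (Fin n) R)ˣ) :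
    K1.mk (rx e M) = K1.mk M := by
  obtain rfl : n = m := by simpa using Fintype.card_congr e
  exact K1.mk_perm e M

/-- The class of an invertible matrix with rows and columns indexed by any finite type. -/
def cl {ι : Type} [Fintype ι] [DecidableEq ι] (M : (Matrix ι ι R)ˣ) : K1 R :=
  K1.mk (rx (Fintype.equivFin ι) M)

theorem rx_trans {ι κ μ : Type} [Fintype ι] [DecidableEq ι] [Fintype κ] [DecidableEq κ]
    [Fintype μ] [DecidableEq μ] (e : ι ≃ κ) (f : κ ≃ μ) (M : (Matrix ι ι R)ˣ) :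
    rx f (rx e M) = rx (e.trans f) M := by
  apply Units.ext
  rfl

theorem cl_fin {n : ℕ} (M : (Matrix (Fin n) (Fin n) R)ˣ) : cl M = K1.mk M := K1.mk_rx _ M

theorem cl_rx {ι κ : Type} [Fintype ι] [DecidableEq ι] [Fintype κ] [DecidableEq κ] (e : ι ≃ κ)
    (M : (Matrix ι ι R)ˣ) : cl (rx e M) = cl M := by
  unfold cl
  rw [rx_trans]
  have h : rx (e.trans (Fintype.equivFin κ)) M =
      rx ((Fintype.equivFin ι).symm.trans (e.trans (Fintype.equivFin κ))) (rx (Fintype.equivFin ι) M) := by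
    rw [rx_trans]
    have he : e.trans (Fintype.equivFin κ) =
        (Fintype.equivFin ι).trans ((Fintype.equivFin ι).symm.trans (e.trans (Fintype.equivFin κ))) := by
      apply Equiv.ext
      intro x
      simp
    exact congrArg (fun f => rx f M) he
  rw [h, K1.mk_rx]

theorem cl_mul {ι : Type} [Fintype ι] [DecidableEq ι] (M N : (Matrix ι ι R)ˣ) :
    cl (M * N) = cl M + cl N := by
  unfold cl
  rw [map_mul, K1.mk_mul]

theorem cl_one {ι : Type} [Fintype ι] [DecidableEq ι] : cl (1 : (Matrix ι ι R)ˣ) = 0 := by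
  unfold cl
  rw [map_one, K1.mk_one]

theorem cl_inv {ι : Type} [Fintype ι] [DecidableEq ι] (M : (Matrix ι ι R)ˣ) : cl M⁻¹ = - cl M := by
  unfold cl
  rw [map_inv, K1.mk_inv]

/-- block sum of two invertible matrices -/
def blk {ι κ : Type} [Fintype ι] [DecidableEq ι] [Fintype κ] [DecidableEq κ]
    (M : (Matrix ι ι R)ˣ) (N : (Matrix κ κ R)ˣ) : (Matrix (ι ⊕ κ) (ι ⊕ κ) R)ˣ where
  val := Matrix.fromBlocks M 0 0 N
  inv := Matrix.fromBlocks ((M⁻¹ : (Matrix ι ι R)ˣ) : Matrix ι ι R) 0 0 ((N⁻¹ : (Matrix κ κ R)ˣ) : Matrix κ κ R)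
  val_inv := by simp [Matrix.fromBlocks_multiply]
  inv_val := by simp [Matrix.fromBlocks_multiply]

theorem blk_mul {ι κ : Type} [Fintype ι] [DecidableEq ι] [Fintype κ] [DecidableEq κ]
    (M M' : (Matrix ι ι R)ˣ) (N N' : (Matrix κ κ R)ˣ) : blk (M * M') (N * N') = blk M N * blk M' N' := by
  apply Units.ext
  simp [blk, Matrix.fromBlocks_multiply]

theorem cl_blk_fin_one {n : ℕ} (M : (Matrix (Fin n) (Fin n) R)ˣ) :
    cl (blk M (1 : (Matrix (Fin 1) (Fin 1) R)ˣ)) = cl M := by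
  rw [← cl_rx finSumFinEquiv, cl_fin, cl_fin]
  unfold K1.mk
  apply (QuotientAddGroup.mk'_eq_mk' _).mpr
  refine ⟨FreeAbelianGroup.of ⟨n, M⟩ - FreeAbelianGroup.of ⟨n + 1, rx finSumFinEquiv (blk M 1)⟩, ?_, by abel⟩
  rw [← neg_sub]
  apply neg_mem
  exact AddSubgroup.subset_closure (Or.inr ⟨n, M, _, rfl, rfl⟩)

theorem cl_blk_one {ι : Type} [Fintype ι] [DecidableEq ι] (M : (Matrix ι ι R)ˣ) :
    cl (blk M (1 : (Matrix (Fin 1) (Fin 1) R)ˣ)) = cl M := by
  have h : blk M (1 : (Matrix (Fin 1) (Fin 1) R)ˣ) =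
      rx (Equiv.sumCongr (Fintype.equivFin ι).symm (Equiv.refl (Fin 1)))
        (blk (rx (Fintype.equivFin ι) M) (1 : (Matrix (Fin 1) (Fin 1) R)ˣ)) := by
    apply Units.ext
    rw [rx_val]
    ext (i | i) (j | j) <;> simp [blk, rx_val]
  rw [h, cl_rx, cl_blk_fin_one, cl_rx]

theorem cl_blk_fin {ι : Type} [Fintype ι] [DecidableEq ι] (M : (Matrix ι ι R)ˣ) (k : ℕ) :
    cl (blk M (1 : (Matrix (Fin k) (Fin k) R)ˣ)) = cl M := by
  induction k with
  | zero =>
    have h : blk M (1 : (Matrix (Fin 0) (Fin 0) R)ˣ) = rx (Equiv.sumEmpty ι (Fin 0)).symm M := by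
      apply Units.ext
      rw [rx_val]
      ext (i | i) (j | j)
      · simp [blk]
      · exact j.elim0
      · exact i.elim0
      · exact j.elim0
    rw [h, cl_rx]
  | succ k ih =>
    have h : blk M (1 : (Matrix (Fin (k + 1)) (Fin (k + 1)) R)ˣ) =
        rx ((Equiv.sumAssoc ι (Fin k) (Fin 1)).trans (Equiv.sumCongr (Equiv.refl ι) finSumFinEquiv))
          (blk (blk M (1 : (Matrix (Fin k) (Fin k) R)ˣ)) (1 : (Matrix (Fin 1) (Fin 1) R)ˣ)) := by
      apply (rx ((Equiv.sumAssoc ι (Fin k) (Fin 1)).trans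
        (Equiv.sumCongr (Equiv.refl ι) finSumFinEquiv))).symm.injective
      rw [MulEquiv.symm_apply_apply]
      apply Units.ext
      change (Matrix.fromBlocks (M : Matrix ι ι R) 0 0 (1 : Matrix (Fin (k + 1)) (Fin (k + 1)) R)).submatrix _ _ = _
      ext ((i | i) | i) ((j | j) | j)
      · simp [blk]
      · simp [blk]
      · simp [blk]
      · simp [blk]
      · simp [blk, Matrix.one_apply]
      · have h1 : Fin.castAdd 1 i ≠ Fin.natAdd k j := by
          intro h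
          have h2 := congrArg Fin.val h
          have := i.isLt
          simp at h2
          omega
        simp [blk, Matrix.one_apply, h1]
      · simp [blk]
      · have h1 : Fin.natAdd k i ≠ Fin.castAdd 1 j := by
          intro h
          have h2 := congrArg Fin.val h
          have := j.isLt
          simp at h2
          omega
        simp [blk, Matrix.one_apply, h1]
      · simp [blk, Matrix.one_apply]
    rw [h, cl_rx, cl_blk_one, ih]

end Cls

end

end Pool.Agent.Y942.WH
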