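import Pool.Agent.Y942.WH.Men

open Matrix

set_option autoImplicit false
set_option maxHeartbeats 400000

namespace Pool.Agent.Y942.WH

noncomputable section

section Stable

variable {A : Type} [CommRing A] [Finite A]

theorem exists_idem (x : A) : ∃ k : ℕ, 0 < k ∧ x ^ k * x ^ k = x ^ k := by
  obtain ⟨i, j, hne, hij⟩ := Finite.exists_ne_map_eq_of_infinite (fun n : ℕ => x ^ n)
  wlog hlt : i < j generalizing i j
  · exact this j i (Ne.symm hne) hij.symm (by omega)
  obtain ⟨p, rfl⟩ : ∃ p, j = i + p := ⟨j - i, by omega⟩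
  have hij : x ^ i = x ^ (i + p) := hij
  have h1 : ∀ m, i ≤ m → x ^ (m + p) = x ^ m := by
    intro m hm
    obtain ⟨r, rfl⟩ : ∃ r, m = i + r := ⟨m - i, by omega⟩
    rw [show i + r + p = (i + p) + r by ring, pow_add, ← hij, ← pow_add]
  have h2 : ∀ l m, i ≤ m → x ^ (m + l * p) = x ^ m := by
    intro l
    induction l with
    | zero => intro m _; simp
    | succ l ih =>
      intro m hm
      rw [show m + (l + 1) * p = (m + l * p) + p by ring, h1 _ (by omega), ih m hm]
  have hp : 0 < p := by omega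
  refine ⟨(i + 1) * p, by positivity, ?_⟩
  rw [← pow_add]
  exact h2 (i + 1) ((i + 1) * p) (by nlinarith)

/-- Finite commutative rings have stable range one. -/
theorem stable_one (x y c : A) (h : c * x + y = 1) : ∃ t, IsUnit (x + t * y) := by
  obtain ⟨k, hk0, hk⟩ := exists_idem x
  obtain ⟨k, rfl⟩ : ∃ m, k = m + 1 := ⟨k - 1, by omega⟩
  obtain ⟨e, he⟩ : ∃ e, e = x ^ (k + 1) := ⟨_, rfl⟩
  obtain ⟨g, hg⟩ : ∃ g, g = x ^ k := ⟨_, rfl⟩
  rw [← he] at hk
  have hxe : x * g = e := by rw [he, hg, pow_succ']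
  refine ⟨1 - e, ?_⟩
  have hnil : IsNilpotent ((1 - c) * x * (1 - e)) := by
    refine ⟨k + 1, ?_⟩
    rw [mul_pow, mul_pow, ← he]
    have : e * (1 - e) ^ (k + 1) = 0 := by
      rw [pow_succ']
      linear_combination (-(1 - e) ^ k) * hk
    linear_combination ((1 - c) ^ (k + 1)) * this
  obtain ⟨u, hu⟩ := hnil.isUnit_one_add
  obtain ⟨v, hv⟩ : ∃ v, (1 + (1 - c) * x * (1 - e)) * v = 1 :=
    ⟨((u⁻¹ : Aˣ) : A), by rw [← hu, Units.mul_inv]⟩
  apply IsUnit.of_mul_eq_one (e * g + (1 - e) * v)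
  have hy : y = 1 - c * x := by linear_combination h
  have e1 : x + (1 - e) * y = e * x + (1 - e) * (1 + (1 - c) * x * (1 - e)) := by
    rw [hy]
    linear_combination (-(1 - c) * x) * hk
  rw [e1]
  linear_combination (e ^ 2) * hxe + (1 - e) ^ 2 * hv +
    ((e + 2) - (x * v + (1 + (1 - c) * x * (1 - e)) * g)) * hk

end Stable

section Ops

variable {R : Type} [CommRing R] {ι : Type} [Fintype ι] [DecidableEq ι]

/-- add multiples of other rows to the row `i0` -/
theorem row_op (i0 : ι) (s : Finset ι) (hs : i0 ∉ s) (f : ι → R) : ∃ E : (Matrix ι ι R)ˣ, cl E = 0 ∧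
    ∀ (W : (Matrix ι ι R)ˣ) (b : ι), (((E * W : (Matrix ι ι R)ˣ) : Matrix ι ι R) i0 b =
      (W : Matrix ι ι R) i0 b + ∑ j ∈ s, f j * (W : Matrix ι ι R) j b) ∧
      ∀ i, i ≠ i0 → ((E * W : (Matrix ι ι R)ˣ) : Matrix ι ι R) i b = (W : Matrix ι ι R) i b := by
  induction s using Finset.induction_on with
  | empty => exact ⟨1, cl_one, fun W b => by simp⟩
  | insert j s hj ih =>
    have hs' : i0 ∉ s := fun h => hs (Finset.mem_insert_of_mem h)
    have hij : i0 ≠ j := fun h => hs (h ▸ Finset.mem_insert_self _ _)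
    obtain ⟨E, hE, hW⟩ := ih hs'
    refine ⟨tv i0 j hij (f j) * E, by rw [cl_mul, cl_tv, hE, add_zero], fun W b => ⟨?_, fun i hi => ?_⟩⟩
    · rw [mul_assoc]
      change (Matrix.transvection i0 j (f j) * ((E * W : (Matrix ι ι R)ˣ) : Matrix ι ι R)) i0 b = _
      rw [Matrix.transvection_mul_apply_same, (hW W b).1, (hW W b).2 j (Ne.symm hij),
        Finset.sum_insert hj]
      ring
    · rw [mul_assoc]
      change (Matrix.transvection i0 j (f j) * ((E * W : (Matrix ι ι R)ˣ) : Matrix ι ι R)) i b = _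
      rw [Matrix.transvection_mul_apply_of_ne _ _ _ _ hi, (hW W b).2 i hi]

/-- add multiples of the row `i0` to other rows -/
theorem col_op (i0 : ι) (s : Finset ι) (hs : i0 ∉ s) (f : ι → R) : ∃ E : (Matrix ι ι R)ˣ, cl E = 0 ∧
    ∀ (W : (Matrix ι ι R)ˣ) (b : ι), (∀ i ∈ s, ((E * W : (Matrix ι ι R)ˣ) : Matrix ι ι R) i b =
      (W : Matrix ι ι R) i b + f i * (W : Matrix ι ι R) i0 b) ∧
      ∀ i, i ∉ s → ((E * W : (Matrix ι ι R)ˣ) : Matrix ι ι R) i b = (W : Matrix ι ι R) i b := by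
  induction s using Finset.induction_on with
  | empty => exact ⟨1, cl_one, fun W b => by simp⟩
  | insert j s hj ih =>
    have hs' : i0 ∉ s := fun h => hs (Finset.mem_insert_of_mem h)
    have hij : j ≠ i0 := fun h => hs (h ▸ Finset.mem_insert_self _ _)
    obtain ⟨E, hE, hW⟩ := ih hs'
    refine ⟨tv j i0 hij (f j) * E, by rw [cl_mul, cl_tv, hE, add_zero],
      fun W b => ⟨fun i hi => ?_, fun i hi => ?_⟩⟩
    · rw [mul_assoc]
      change (Matrix.transvection j i0 (f j) * ((E * W : (Matrix ι ι R)ˣ) : Matrix ι ι R)) i b = _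
      by_cases h : i = j
      · subst h
        rw [Matrix.transvection_mul_apply_same, (hW W b).2 i hj, (hW W b).2 i0 hs']
      · rw [Matrix.transvection_mul_apply_of_ne _ _ _ _ h,
          (hW W b).1 i ((Finset.mem_insert.mp hi).resolve_left h)]
    · rw [mul_assoc]
      change (Matrix.transvection j i0 (f j) * ((E * W : (Matrix ι ι R)ˣ) : Matrix ι ι R)) i b = _
      have h : i ≠ j := fun h => hi (h ▸ Finset.mem_insert_self _ _)
      rw [Matrix.transvection_mul_apply_of_ne _ _ _ _ h,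
        (hW W b).2 i (fun h2 => hi (Finset.mem_insert_of_mem h2))]

theorem inv_col (W : (Matrix ι ι R)ˣ) (b : ι) :
    ∑ j, ((W⁻¹ : (Matrix ι ι R)ˣ) : Matrix ι ι R) b j * (W : Matrix ι ι R) j b = 1 := by
  rw [← Matrix.mul_apply, Units.inv_mul, Matrix.one_apply_eq]

end Ops

end

end Pool.Agent.Y942.WH
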