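import Pool.Agent.Y942.WH.Base

open Matrix

set_option autoImplicit false

namespace Pool.Agent.Y942.WH

noncomputable section

section Exa

variable {π : Type} [Group π] (s : π)

def S : Pi1One π 1 := Monoid.Coprod.inl s
variable (π) in
def X : Pi1One π 1 := Monoid.Coprod.inr (FreeGroup.of 0)
def A : Pi1One π 1 := X π * S s

/-- The attaching map of the two-cell. -/
def rel : Pi1One π 1 := A s ^ 3 * S s * (A s ^ 2)⁻¹ * (S s ^ 2)⁻¹

def rr : Fin 1 → Pi1One π 1 := fun _ => rel s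

variable (π) in
def rho : Pi1One π 1 →* π := Monoid.Coprod.lift (MonoidHom.id π) (FreeGroup.lift fun _ => 1)

theorem rho_S : rho π (S s) = s := by simp [rho, S]
theorem rho_X : rho π (X π) = 1 := by simp [rho, X]
theorem rho_A : rho π (A s) = s := by rw [A, map_mul, rho_S, rho_X, one_mul]

theorem rho_rel : rho π (rel s) = 1 := by
  unfold rel
  simp only [map_mul, map_pow, map_inv, rho_S, rho_A]
  group

theorem S_pow (hs : s ^ 5 = 1) : S s ^ 5 = 1 := by
  unfold S
  rw [← map_pow, hs, map_one]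

theorem rho_normal : Subgroup.normalClosure (Set.range (rr s)) ≤ (rho π).ker := by
  apply Subgroup.normalClosure_le_normal
  rintro _ ⟨i, rfl⟩
  exact rho_rel s

theorem incl_injective : Function.Injective (incl (rr s)) := by
  intro g h hgh
  have h1 : (QuotientGroup.lift _ (rho π) (fun x hx => rho_normal s hx) : Pi1 (rr s) →* π) (incl (rr s) g) =
      (QuotientGroup.lift _ (rho π) (fun x hx => rho_normal s hx) : Pi1 (rr s) →* π) (incl (rr s) h) := by rw [hgh]
  have h2 : ∀ g : π, (QuotientGroup.lift _ (rho π) (fun x hx => rho_normal s hx) : Pi1 (rr s) →* π) (incl (rr s) g) = g :=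
    fun g => by
      change rho π (Monoid.Coprod.inl g) = g
      simp [rho]
  rwa [h2, h2] at h1

theorem X_mk (hs : s ^ 5 = 1) : toPi1 (rr s) (X π) = 1 := by
  set q := toPi1 (rr s) with hq
  have hr : q (rel s) = 1 := by
    rw [hq]
    exact (QuotientGroup.eq_one_iff _).mpr (Subgroup.subset_normalClosure ⟨0, rfl⟩)
  have h5 : q (S s) ^ 5 = 1 := by rw [← map_pow, S_pow s hs, map_one]
  have h : q (A s) ^ 3 * q (S s) = q (S s) ^ 2 * q (A s) ^ 2 := by
    have : q (A s) ^ 3 * q (S s) * (q (A s) ^ 2)⁻¹ * (q (S s) ^ 2)⁻¹ = 1 := by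
      rw [← hr]; simp [rel]
    rw [mul_inv_eq_one] at this
    rw [← this]
    group
  have e := eq_of_rel (q (A s)) (q (S s)) h5 h
  have : q (A s) = q (X π) * q (S s) := by rw [← map_mul]; rfl
  rw [this] at e
  exact mul_eq_right.mp e

theorem incl_rho (hs : s ^ 5 = 1) : (incl (rr s)).comp (rho π) = toPi1 (rr s) := by
  apply Monoid.Coprod.hom_ext
  · ext g
    simp [incl, rho]
  · ext i
    have hi : i = 0 := Subsingleton.elim _ _
    subst hi
    change incl (rr s) (rho π (X π)) = toPi1 (rr s) (X π)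
    rw [X_mk s hs, rho_X, map_one]

theorem incl_surjective (hs : s ^ 5 = 1) : Function.Surjective (incl (rr s)) := by
  intro y
  obtain ⟨x, rfl⟩ := QuotientGroup.mk'_surjective _ y
  exact ⟨rho π x, DFunLike.congr_fun (incl_rho s hs) x⟩

/-- the element `s` of the group ring -/
def sig : MonoidAlgebra ℤ π := MonoidAlgebra.of ℤ π s

theorem sig_pow (hs : s ^ 5 = 1) : sig s ^ 5 = 1 := by
  unfold sig
  rw [← map_pow, hs, map_one]

variable (π) in
def DD : Pi1One π 1 → Fin 1 → MonoidAlgebra ℤ π := fox (fun _ => (1 : π))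

theorem DD_isFox : IsFox (rho π) (DD π) := fox_isFox (fun _ => (1 : π))

theorem DD_mul (u v : Pi1One π 1) :
    DD π (u * v) 0 = DD π u 0 + MonoidAlgebra.of ℤ π (rho π u) * DD π v 0 :=
  DD_isFox.mul u v 0

theorem DD_one : DD π 1 0 = 0 := by
  have h := DD_mul (π := π) 1 1
  rw [map_one, map_one, one_mul, one_mul] at h
  exact left_eq_add.mp h

theorem DD_inv (u : Pi1One π 1) :
    DD π (u⁻¹) 0 = - (MonoidAlgebra.of ℤ π (rho π u)⁻¹ * DD π u 0) := by
  have h := DD_mul u⁻¹ u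
  rw [inv_mul_cancel, DD_one, map_inv] at h
  exact eq_neg_of_add_eq_zero_left h.symm

theorem DD_S : DD π (S s) 0 = 0 := DD_isFox.base s 0

theorem DD_X : DD π (X π) 0 = 1 := by
  have h := (DD_isFox (π := π)).gen 0 0
  rw [if_pos rfl] at h
  exact h

theorem DD_A : DD π (A s) 0 = 1 := by
  rw [A, DD_mul, DD_S, DD_X]
  simp

theorem DD_rel : DD π (rel s) 0 = 1 + sig s - sig s ^ 3 := by
  have hS2 : DD π (S s ^ 2) 0 = 0 := by rw [pow_two, DD_mul, DD_S]; simp
  have hA2 : DD π (A s ^ 2) 0 = 1 + sig s := by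
    rw [pow_two, DD_mul, DD_A, rho_A]; simp [sig]
  have hA3 : DD π (A s ^ 3) 0 = 1 + sig s + sig s ^ 2 := by
    rw [pow_succ, DD_mul, DD_A, hA2, map_pow, rho_A, map_pow]; simp [sig]
  rw [rel, DD_mul, DD_mul, DD_mul, DD_inv, DD_inv, hS2, hA2, hA3, DD_S]
  simp only [mul_zero, neg_zero, add_zero, mul_neg]
  rw [← mul_assoc, ← map_mul]
  have e : rho π (A s ^ 3 * S s) * (rho π (A s ^ 2))⁻¹ = s ^ 2 := by
    simp only [map_mul, map_pow, rho_A, rho_S]
    group
  rw [e, map_pow]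
  change 1 + sig s + sig s ^ 2 + -(sig s ^ 2 * (1 + sig s)) = _
  noncomm_ring

def BM : Matrix (Fin 1) (Fin 1) (MonoidAlgebra ℤ π) := Matrix.of fun _ _ => 1 + sig s - sig s ^ 3

def BI : Matrix (Fin 1) (Fin 1) (MonoidAlgebra ℤ π) :=
  Matrix.of fun _ _ => sig s - sig s ^ 2 + sig s ^ 3

theorem BM_apply (i j : Fin 1) : BM s i j = 1 + sig s - sig s ^ 3 := rfl
theorem BI_apply (i j : Fin 1) : BI s i j = sig s - sig s ^ 2 + sig s ^ 3 := rfl

theorem unit_mul {R : Type} [Ring R] (x : R) (h5 : x ^ 5 = 1) :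
    (1 + x - x ^ 3) * (x - x ^ 2 + x ^ 3) = 1 := by
  have e : (1 + x - x ^ 3) * (x - x ^ 2 + x ^ 3) = x + x ^ 5 - x ^ 5 * x := by noncomm_ring
  rw [e, h5, one_mul]
  abel

theorem unit_mul' {R : Type} [Ring R] (x : R) (h5 : x ^ 5 = 1) :
    (x - x ^ 2 + x ^ 3) * (1 + x - x ^ 3) = 1 := by
  have e : (x - x ^ 2 + x ^ 3) * (1 + x - x ^ 3) = x + x ^ 5 - x ^ 5 * x := by noncomm_ring
  rw [e, h5, one_mul]
  abel

/-- The boundary matrix of the example: the `1 × 1` matrix with entry `1 + s - s ^ 3`. -/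
def BB (hs : s ^ 5 = 1) : (Matrix (Fin 1) (Fin 1) (MonoidAlgebra ℤ π))ˣ where
  val := BM s
  inv := BI s
  val_inv := by
    refine Matrix.ext fun i j => ?_
    have hi : i = 0 := Subsingleton.elim _ _
    have hj : j = 0 := Subsingleton.elim _ _
    subst hi hj
    rw [Matrix.mul_apply, Fin.sum_univ_one, Matrix.one_apply_eq, BM_apply, BI_apply]
    exact unit_mul _ (sig_pow s hs)
  inv_val := by
    refine Matrix.ext fun i j => ?_
    have hi : i = 0 := Subsingleton.elim _ _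
    have hj : j = 0 := Subsingleton.elim _ _
    subst hi hj
    rw [Matrix.mul_apply, Fin.sum_univ_one, Matrix.one_apply_eq, BM_apply, BI_apply]
    exact unit_mul' _ (sig_pow s hs)

theorem mem_whStar (hs : s ^ 5 = 1) : Wh.mk (BB s hs) ∈ WhStar π := by
  refine ⟨1, rr s, rho π, DD π, BB s hs, ⟨incl_injective s, incl_surjective s hs⟩,
    fun u => DFunLike.congr_fun (incl_rho s hs) u, DD_isFox, fun i j => ?_, rfl⟩
  have hi : i = 0 := Subsingleton.elim _ _
  have hj : j = 0 := Subsingleton.elim _ _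
  subst hi hj
  exact (DD_rel s).symm

end Exa

end

end Pool.Agent.Y942.WH
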