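import Pool.Agent.Y942.WH.Tri

open Matrix

set_option autoImplicit false

namespace Pool.Agent.Y942.WH

noncomputable section

section Push

variable {π : Type} [Group π]

theorem rho_inl {n : ℕ} {r : Fin n → Pi1One π n} {ρ : Pi1One π n →* π}
    (hinj : Function.Injective (incl r)) (hρ : ∀ u, incl r (ρ u) = toPi1 r u) (g : π) :
    ρ (Monoid.Coprod.inl g) = g := hinj (by rw [hρ]; rfl)

theorem toPi1_r {n : ℕ} (r : Fin n → Pi1One π n) (i : Fin n) : toPi1 r (r i) = 1 :=
  (QuotientGroup.eq_one_iff _).mpr (Subgroup.subset_normalClosure ⟨i, rfl⟩)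

theorem rho_r {n : ℕ} {r : Fin n → Pi1One π n} {ρ : Pi1One π n →* π}
    (hinj : Function.Injective (incl r)) (hρ : ∀ u, incl r (ρ u) = toPi1 r u) (i : Fin n) :
    ρ (r i) = 1 := hinj (by rw [hρ, map_one, toPi1_r])

theorem push {n N : ℕ} (r : Fin n → Pi1One π n) (R : Fin N → Pi1One π N)
    (j : Pi1One π n →* Pi1One π N) (hj : ∀ g, j (Monoid.Coprod.inl g) = Monoid.Coprod.inl g)
    (hr : ∀ i, toPi1 R (j (r i)) = 1) (ρ : Pi1One π n →* π) (hρ : ∀ u, incl r (ρ u) = toPi1 r u)
    (u : Pi1One π n) : incl R (ρ u) = toPi1 R (j u) := by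
  have hk : Subgroup.normalClosure (Set.range r) ≤ ((toPi1 R).comp j).ker := by
    apply Subgroup.normalClosure_le_normal
    rintro _ ⟨i, rfl⟩
    exact hr i
  let q : Pi1 r →* Pi1 R := QuotientGroup.lift _ ((toPi1 R).comp j) (fun x hx => hk hx)
  have h1 : q (incl r (ρ u)) = incl R (ρ u) := by
    change toPi1 R (j (Monoid.Coprod.inl (ρ u))) = toPi1 R (Monoid.Coprod.inl (ρ u))
    rw [hj]
  have h2 : q (toPi1 r u) = toPi1 R (j u) := rfl
  rw [← h1, ← h2, hρ]

theorem der_ext {n : ℕ} (ρ : Pi1One π n →* π) (E E' : Pi1One π n → MonoidAlgebra ℤ π)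
    (hm : ∀ u v, E (u * v) = E u + MonoidAlgebra.of ℤ π (ρ u) * E v)
    (hm' : ∀ u v, E' (u * v) = E' u + MonoidAlgebra.of ℤ π (ρ u) * E' v)
    (hb : ∀ g, E (Monoid.Coprod.inl g) = E' (Monoid.Coprod.inl g))
    (hg : ∀ i, E (Monoid.Coprod.inr (FreeGroup.of i)) = E' (Monoid.Coprod.inr (FreeGroup.of i)))
    (u : Pi1One π n) : E u = E' u := by
  have one : ∀ F : Pi1One π n → MonoidAlgebra ℤ π,
      (∀ u v, F (u * v) = F u + MonoidAlgebra.of ℤ π (ρ u) * F v) → F 1 = 0 := by
    intro F hF
    have h := hF 1 1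
    rw [map_one, map_one, one_mul, one_mul] at h
    exact left_eq_add.mp h
  have inv : ∀ F : Pi1One π n → MonoidAlgebra ℤ π,
      (∀ u v, F (u * v) = F u + MonoidAlgebra.of ℤ π (ρ u) * F v) →
      ∀ u, F u⁻¹ = - (MonoidAlgebra.of ℤ π (ρ u)⁻¹ * F u) := by
    intro F hF u
    have h := hF u⁻¹ u
    rw [inv_mul_cancel, one F hF, map_inv] at h
    exact eq_neg_of_add_eq_zero_left h.symm
  induction u using Monoid.Coprod.induction_on with
  | inl g => exact hb g
  | inr w =>
    induction w using FreeGroup.induction_on with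
    | C1 => rw [map_one, one E hm, one E' hm']
    | of i => exact hg i
    | inv_of i hi =>
      rw [map_inv, inv E hm, inv E' hm']
      rw [hi]
    | mul x y hx hy => rw [map_mul, hm, hm', hx, hy]
  | mul x y hx hy => rw [hm, hm', hx, hy]

end Push

section Sum

variable {π : Type} [Group π] {n m : ℕ}

def ja (π : Type) [Group π] (n m : ℕ) : Pi1One π n →* Pi1One π (n + m) :=
  Monoid.Coprod.lift Monoid.Coprod.inl
    (FreeGroup.lift fun i => Monoid.Coprod.inr (FreeGroup.of (Fin.castAdd m i)))

def jb (π : Type) [Group π] (n m : ℕ) : Pi1One π m →* Pi1One π (n + m) :=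
  Monoid.Coprod.lift Monoid.Coprod.inl
    (FreeGroup.lift fun i => Monoid.Coprod.inr (FreeGroup.of (Fin.natAdd n i)))

theorem ja_inl (g : π) : ja π n m (Monoid.Coprod.inl g) = Monoid.Coprod.inl g := by simp [ja]
theorem jb_inl (g : π) : jb π n m (Monoid.Coprod.inl g) = Monoid.Coprod.inl g := by simp [jb]
theorem ja_inr (i : Fin n) : ja π n m (Monoid.Coprod.inr (FreeGroup.of i)) =
    Monoid.Coprod.inr (FreeGroup.of (Fin.castAdd m i)) := by simp [ja]
theorem jb_inr (i : Fin m) : jb π n m (Monoid.Coprod.inr (FreeGroup.of i)) =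
    Monoid.Coprod.inr (FreeGroup.of (Fin.natAdd n i)) := by simp [jb]

/-- The sum of two realised torsions is realised. -/
theorem whStar_add {x y : Wh π} (hx : x ∈ WhStar π) (hy : y ∈ WhStar π) : x + y ∈ WhStar π := by
  obtain ⟨n, r, ρ, D, B, hbij, hρ, hD, hB, rfl⟩ := hx
  obtain ⟨m, r', ρ', D', B', hbij', hρ', hD', hB', rfl⟩ := hy
  let R : Fin (n + m) → Pi1One π (n + m) :=
    Fin.addCases (fun i => ja π n m (r i)) (fun j => jb π n m (r' j))
  let c : Fin (n + m) → π := Fin.addCases (fun i => ρ (Monoid.Coprod.inr (FreeGroup.of i)))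
    (fun j => ρ' (Monoid.Coprod.inr (FreeGroup.of j)))
  let P : Pi1One π (n + m) →* π := Monoid.Coprod.lift (MonoidHom.id π) (FreeGroup.lift c)
  have hRa : ∀ i, R (Fin.castAdd m i) = ja π n m (r i) := fun i => Fin.addCases_left i
  have hRb : ∀ i, R (Fin.natAdd n i) = jb π n m (r' i) := fun i => Fin.addCases_right i
  have hPinl : ∀ g, P (Monoid.Coprod.inl g) = g := fun g => by simp [P]
  have hPa : ∀ i, P (Monoid.Coprod.inr (FreeGroup.of (Fin.castAdd m i))) =
      ρ (Monoid.Coprod.inr (FreeGroup.of i)) := fun i => by simp [P, c]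
  have hPb : ∀ i, P (Monoid.Coprod.inr (FreeGroup.of (Fin.natAdd n i))) =
      ρ' (Monoid.Coprod.inr (FreeGroup.of i)) := fun i => by simp [P, c]
  have hcomp : P.comp (ja π n m) = ρ := by
    apply Monoid.Coprod.hom_ext
    · apply MonoidHom.ext
      intro g
      change P (ja π n m (Monoid.Coprod.inl g)) = ρ (Monoid.Coprod.inl g)
      rw [ja_inl, hPinl, rho_inl hbij.1 hρ]
    · apply FreeGroup.ext_hom
      intro i
      change P (ja π n m (Monoid.Coprod.inr (FreeGroup.of i))) = ρ (Monoid.Coprod.inr (FreeGroup.of i))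
      rw [ja_inr, hPa]
  have hcomp' : P.comp (jb π n m) = ρ' := by
    apply Monoid.Coprod.hom_ext
    · apply MonoidHom.ext
      intro g
      change P (jb π n m (Monoid.Coprod.inl g)) = ρ' (Monoid.Coprod.inl g)
      rw [jb_inl, hPinl, rho_inl hbij'.1 hρ']
    · apply FreeGroup.ext_hom
      intro i
      change P (jb π n m (Monoid.Coprod.inr (FreeGroup.of i))) = ρ' (Monoid.Coprod.inr (FreeGroup.of i))
      rw [jb_inr, hPb]
  have hPja : ∀ u, P (ja π n m u) = ρ u := fun u => DFunLike.congr_fun hcomp u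
  have hPjb : ∀ u, P (jb π n m u) = ρ' u := fun u => DFunLike.congr_fun hcomp' u
  have hPR : ∀ k, P (R k) = 1 := by
    intro k
    induction k using Fin.addCases with
    | left i => rw [hRa, hPja, rho_r hbij.1 hρ]
    | right i => rw [hRb, hPjb, rho_r hbij'.1 hρ']
  have hRP : (incl R).comp P = toPi1 R := by
    apply Monoid.Coprod.hom_ext
    · apply MonoidHom.ext
      intro g
      change incl R (P (Monoid.Coprod.inl g)) = toPi1 R (Monoid.Coprod.inl g)
      rw [hPinl]
      rfl
    · apply FreeGroup.ext_hom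
      intro k
      change incl R (P (Monoid.Coprod.inr (FreeGroup.of k))) = toPi1 R (Monoid.Coprod.inr (FreeGroup.of k))
      induction k using Fin.addCases with
      | left i =>
        rw [hPa, ← ja_inr]
        exact push r R (ja π n m) ja_inl (fun i => by rw [← hRa]; exact toPi1_r R _) ρ hρ _
      | right i =>
        rw [hPb, ← jb_inr]
        exact push r' R (jb π n m) jb_inl (fun i => by rw [← hRb]; exact toPi1_r R _) ρ' hρ' _
  have hRP' : ∀ u, incl R (P u) = toPi1 R u := fun u => DFunLike.congr_fun hRP u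
  have hker : Subgroup.normalClosure (Set.range R) ≤ P.ker := by
    apply Subgroup.normalClosure_le_normal
    rintro _ ⟨i, rfl⟩
    exact hPR i
  have hbijR : Function.Bijective (incl R) := by
    constructor
    · intro g h hgh
      let Q : Pi1 R →* π := QuotientGroup.lift _ P (fun x hx => hker hx)
      have h2 : ∀ g : π, Q (incl R g) = g := fun g => by
        change P (Monoid.Coprod.inl g) = g
        rw [hPinl]
      rw [← h2 g, ← h2 h, hgh]
    · intro y
      obtain ⟨x, rfl⟩ := QuotientGroup.mk'_surjective _ y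
      exact ⟨P x, hRP' x⟩
  have hF : IsFox P (fox c) := fox_isFox c
  have haa : ∀ u j, fox c (ja π n m u) (Fin.castAdd m j) = D u j := by
    intro u j
    refine der_ext ρ (fun u => fox c (ja π n m u) (Fin.castAdd m j)) (fun u => D u j)
      (fun u v => ?_) (fun u v => hD.mul u v j) (fun g => ?_) (fun i => ?_) u
    · simp only [map_mul]
      rw [hF.mul, hPja]
    · rw [ja_inl, hF.base, hD.base]
    · rw [ja_inr, hF.gen, hD.gen]
      simp
  have hab : ∀ u j, fox c (ja π n m u) (Fin.natAdd n j) = 0 := by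
    intro u j
    refine der_ext ρ (fun u => fox c (ja π n m u) (Fin.natAdd n j)) (fun _ => 0)
      (fun u v => ?_) (fun u v => by simp) (fun g => ?_) (fun i => ?_) u
    · simp only [map_mul]
      rw [hF.mul, hPja]
    · rw [ja_inl, hF.base]
    · rw [ja_inr, hF.gen, if_neg]
      intro h
      have h2 := congrArg Fin.val h
      have := i.isLt
      simp at h2
      omega
  have hbb : ∀ u j, fox c (jb π n m u) (Fin.natAdd n j) = D' u j := by
    intro u j
    refine der_ext ρ' (fun u => fox c (jb π n m u) (Fin.natAdd n j)) (fun u => D' u j)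
      (fun u v => ?_) (fun u v => hD'.mul u v j) (fun g => ?_) (fun i => ?_) u
    · simp only [map_mul]
      rw [hF.mul, hPjb]
    · rw [jb_inl, hF.base, hD'.base]
    · rw [jb_inr, hF.gen, hD'.gen]
      simp
  have hba : ∀ u j, fox c (jb π n m u) (Fin.castAdd m j) = 0 := by
    intro u j
    refine der_ext ρ' (fun u => fox c (jb π n m u) (Fin.castAdd m j)) (fun _ => 0)
      (fun u v => ?_) (fun u v => by simp) (fun g => ?_) (fun i => ?_) u
    · simp only [map_mul]
      rw [hF.mul, hPjb]
    · rw [jb_inl, hF.base]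
    · rw [jb_inr, hF.gen, if_neg]
      intro h
      have h2 := congrArg Fin.val h
      have := j.isLt
      simp at h2
      omega
  refine ⟨n + m, R, P, fox c, rx finSumFinEquiv (blk B B'), hbijR, hRP', hF, ?_, ?_⟩
  · intro i j
    rw [rx_val]
    induction i using Fin.addCases with
    | left i =>
      induction j using Fin.addCases with
      | left j => rw [hRa, haa, ← hB]; simp [blk]
      | right j => rw [hRa, hab]; simp [blk]
    | right i =>
      induction j using Fin.addCases with
      | left j => rw [hRb, hba]; simp [blk]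
      | right j => rw [hRb, hbb, ← hB']; simp [blk]
  · unfold Wh.mk
    rw [← cl_fin (rx finSumFinEquiv (blk B B')), cl_rx, cl_blk, cl_fin, cl_fin, map_add]

theorem zero_mem_whStar : (0 : Wh π) ∈ WhStar π := by
  let r : Fin 0 → Pi1One π 0 := fun i => i.elim0
  let P : Pi1One π 0 →* π := Monoid.Coprod.lift (MonoidHom.id π) (FreeGroup.lift fun i => i.elim0)
  have hPinl : ∀ g, P (Monoid.Coprod.inl g) = g := fun g => by simp [P]
  have hRP : (incl r).comp P = toPi1 r := by
    apply Monoid.Coprod.hom_ext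
    · apply MonoidHom.ext
      intro g
      change incl r (P (Monoid.Coprod.inl g)) = toPi1 r (Monoid.Coprod.inl g)
      rw [hPinl]
      rfl
    · apply FreeGroup.ext_hom
      intro k
      exact k.elim0
  have hRP' : ∀ u, incl r (P u) = toPi1 r u := fun u => DFunLike.congr_fun hRP u
  have hker : Subgroup.normalClosure (Set.range r) ≤ P.ker := by
    apply Subgroup.normalClosure_le_normal
    rintro _ ⟨i, rfl⟩
    exact i.elim0
  refine ⟨0, r, P, fox (fun i => i.elim0), 1, ⟨?_, ?_⟩, hRP', fox_isFox _, fun i => i.elim0, ?_⟩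
  · intro g h hgh
    let Q : Pi1 r →* π := QuotientGroup.lift _ P (fun x hx => hker hx)
    have h2 : ∀ g : π, Q (incl r g) = g := fun g => by
      change P (Monoid.Coprod.inl g) = g
      rw [hPinl]
    rw [← h2 g, ← h2 h, hgh]
  · intro y
    obtain ⟨x, rfl⟩ := QuotientGroup.mk'_surjective _ y
    exact ⟨P x, hRP' x⟩
  · unfold Wh.mk
    rw [K1.mk_one, map_zero]

end Sum

end

end Pool.Agent.Y942.WH
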