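import Pool.Agent.Y942.WH.Red5
import Pool.Agent.Y942.WH.Sum

open Matrix

set_option autoImplicit false
set_option maxHeartbeats 400000

namespace Pool.Agent.Y942.WH

noncomputable section

/-! ### A logarithm on the Whitehead group -/

/-- `log |det ψ|²` on `K₁(R)` -/
def lamK {R : Type} [Ring R] (ψ : R →+* ℂ) : K1 R →+ ℝ := logU.comp (detK1 ψ)

theorem lamK_mk {R : Type} [Ring R] (ψ : R →+* ℂ) (M : (Matrix (Fin 1) (Fin 1) R)ˣ) :
    lamK ψ (K1.mk M) = Real.log (Complex.normSq (ψ ((M : Matrix (Fin 1) (Fin 1) R) 0 0))) := by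
  rw [lamK, AddMonoidHom.comp_apply, detK1_mk, logU_apply, toMul_ofMul, detN_one_val]

section Char

variable {π : Type} [Group π] (χ : π →* Circle)

def chiC : π →* ℂ := Circle.coeHom.comp χ

def psiC : MonoidAlgebra ℤ π →+* ℂ := (MonoidAlgebra.lift ℤ ℂ π (chiC χ)).toRingHom

theorem psiC_of (g : π) : psiC χ (MonoidAlgebra.of ℤ π g) = (χ g : ℂ) := by
  simp [psiC, chiC]

theorem lamK_trivial (x : K1 (MonoidAlgebra ℤ π)) (hx : x ∈ trivialUnits π) :
    lamK (psiC χ) x = 0 := by
  have : trivialUnits π ≤ (lamK (psiC χ)).ker := by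
    unfold trivialUnits
    rw [AddSubgroup.closure_le]
    rintro c ⟨g, M, hM, rfl⟩
    rw [SetLike.mem_coe, AddMonoidHom.mem_ker, lamK_mk]
    rcases hM with hM | hM
    · rw [hM, psiC_of, Circle.normSq_coe, Real.log_one]
    · rw [hM, map_neg, psiC_of, Complex.normSq_neg, Circle.normSq_coe, Real.log_one]
  exact this hx

/-- the logarithm on `Wh(π)` given by a character of `π` -/
def lamW : Wh π →+ ℝ :=
  QuotientAddGroup.lift (trivialUnits π) (lamK (psiC χ)) (lamK_trivial χ)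

theorem lamW_mk {n : ℕ} (M : (Matrix (Fin n) (Fin n) (MonoidAlgebra ℤ π))ˣ) :
    lamW χ (Wh.mk M) = lamK (psiC χ) (K1.mk M) := by
  unfold lamW Wh.mk
  rw [QuotientAddGroup.mk'_apply, QuotientAddGroup.lift_mk]

theorem BB_val (s : π) (hs : s ^ 5 = 1) :
    ((BB s hs : (Matrix (Fin 1) (Fin 1) (MonoidAlgebra ℤ π))ˣ) :
      Matrix (Fin 1) (Fin 1) (MonoidAlgebra ℤ π)) 0 0 = 1 + sig s - sig s ^ 3 := rfl

theorem lamW_BB (s : π) (hs : s ^ 5 = 1) :
    lamW χ (Wh.mk (BB s hs)) = Real.log (Complex.normSq (1 + (χ s : ℂ) - (χ s : ℂ) ^ 3)) := by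
  rw [lamW_mk, lamK_mk, BB_val, map_sub, map_add, map_pow, map_one, sig, psiC_of]

theorem infinite_order (s : π) (hs : s ^ 5 = 1) (hχ : χ s ≠ 1) (k : ℤ) (hk : k ≠ 0) :
    k • Wh.mk (BB s hs) ≠ 0 := by
  intro h
  have h1 := congrArg (lamW χ) h
  rw [map_zsmul, lamW_BB, map_zero, smul_eq_zero] at h1
  rcases h1 with h1 | h1
  · exact hk h1
  · have hz : ((χ s : Circle) : ℂ) ^ 5 = 1 := by
      rw [← Circle.coe_pow, ← map_pow, hs, map_one, Circle.coe_one]
    have hz1 : ((χ s : Circle) : ℂ) ≠ 1 := by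
      intro h
      exact hχ (Circle.ext h)
    exact u0_log_ne _ hz hz1 h1

end Char

/-! ### Characters -/

/-- `ℚ / ℤ → S¹` -/
def qz : AddCircle (1 : ℚ) →+ Additive Circle :=
  QuotientAddGroup.lift (AddSubgroup.zmultiples (1 : ℚ))
    (Circle.expHom.comp ((AddMonoidHom.mulLeft (2 * Real.pi)).comp (Rat.castHom ℝ).toAddMonoidHom))
    (by
      intro x hx
      obtain ⟨n, rfl⟩ := AddSubgroup.mem_zmultiples_iff.mp hx
      apply Additive.toMul.injective
      change Circle.exp (2 * Real.pi * (((n • (1 : ℚ)) : ℚ) : ℝ)) = 1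
      have : (((n • (1 : ℚ)) : ℚ) : ℝ) = n := by simp
      rw [this, Circle.exp_two_pi_mul_int])

theorem qz_inj : Function.Injective qz := by
  rw [injective_iff_map_eq_zero]
  intro x hx
  obtain ⟨q, rfl⟩ := QuotientAddGroup.mk_surjective x
  have h : Circle.exp (2 * Real.pi * ((q : ℚ) : ℝ)) = 1 := hx
  rw [Circle.exp_eq_one] at h
  obtain ⟨n, hn⟩ := h
  have h2 : (q : ℝ) = n := by
    have hp := Real.pi_pos
    have : (2 * Real.pi) * (q : ℝ) = (2 * Real.pi) * n := by rw [hn]; ring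
    exact mul_left_cancel₀ (by positivity) this
  have h3 : q = n := by exact_mod_cast h2
  rw [h3]
  exact (QuotientAddGroup.eq_zero_iff _).mpr (AddSubgroup.mem_zmultiples_iff.mpr ⟨n, by simp⟩)

/-- An element outside the commutator subgroup is detected by a homomorphism to the circle. -/
theorem exists_char {π : Type} [Group π] (s : π) (hs : s ∉ commutator π) :
    ∃ χ : π →* Circle, χ s ≠ 1 := by
  have h : Additive.ofMul (Abelianization.of s) ≠ 0 := by
    intro h
    apply hs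
    rw [← Abelianization.ker_of]
    exact h
  obtain ⟨c, hc⟩ := CharacterModule.exists_character_apply_ne_zero_of_ne_zero h
  let f : Additive (Abelianization π) →+ Additive Circle := qz.comp c
  refine ⟨(MonoidHom.toAdditive.symm f).comp Abelianization.of, ?_⟩
  intro h2
  apply hc
  apply qz_inj
  rw [map_zero]
  exact h2

end

end Pool.Agent.Y942.WH
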