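import Pool.Agent.Y942.WH.Gs

open Matrix

set_option autoImplicit false
set_option maxHeartbeats 400000

namespace Pool.Agent.Y942.WH

noncomputable section

section Emb

variable {π : Type} [Group π] {ι X : Type} [Fintype ι] [DecidableEq ι] [Fintype X] [DecidableEq X]

variable (π ι) in
/-- integer matrices as block diagonal matrices over the group ring -/
def embR : Matrix X X ℤ →+* Matrix (ι × X) (ι × X) (MonoidAlgebra ℤ π) :=
  ((Matrix.compRingEquiv ι X (MonoidAlgebra ℤ π)).toRingHom.comp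
    (Matrix.scalar ι : Matrix X X (MonoidAlgebra ℤ π) →+* _)).comp
      (Int.castRingHom (MonoidAlgebra ℤ π)).mapMatrix

theorem key_intertwine (P : Matrix X X ℤ) (ρ σ : π →* Equiv.Perm X)
    (hP : ∀ (g : π) (x y : X), P (σ g x) (ρ g y) = P x y) (b : MonoidAlgebra ℤ π) :
    (Int.castRingHom (MonoidAlgebra ℤ π)).mapMatrix P * Phi (thP ρ) b =
      Phi (thP σ) b * (Int.castRingHom (MonoidAlgebra ℤ π)).mapMatrix P := by
  induction b using MonoidAlgebra.induction_on with
  | of g =>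
    rw [Phi_of, Phi_of]
    refine Matrix.ext fun ξ η => ?_
    rw [Matrix.mul_apply, Matrix.mul_apply]
    simp only [mon_apply, thP_left, thP_right, mul_ite, mul_zero, ite_mul, zero_mul]
    rw [Finset.sum_eq_single (ρ g η), Finset.sum_eq_single ((σ g)⁻¹ ξ)]
    · rw [if_pos (by simp), if_pos rfl]
      have e : P ξ (ρ g η) = P ((σ g)⁻¹ ξ) η := by
        have := hP g ((σ g)⁻¹ ξ) η
        rw [← this]
        congr 1
        simp
      change ((P ξ (ρ g η) : ℤ) : MonoidAlgebra ℤ π) * _ = _ * ((P ((σ g)⁻¹ ξ) η : ℤ) : MonoidAlgebra ℤ π)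
      rw [e]
      exact Int.cast_commute _ _
    · intro ζ _ hζ
      rw [if_neg hζ]
    · intro h
      exact absurd (Finset.mem_univ _) h
    · intro ζ _ hζ
      rw [if_neg]
      intro h
      apply hζ
      rw [h]
      simp
    · intro h
      exact absurd (Finset.mem_univ _) h
  | add a b ha hb => rw [map_add, map_add, mul_add, add_mul, ha, hb]
  | smul r a ha => rw [map_zsmul, map_zsmul, mul_smul_comm, smul_mul_assoc, ha]

theorem embR_intertwine (P : Matrix X X ℤ) (ρ σ : π →* Equiv.Perm X)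
    (hP : ∀ (g : π) (x y : X), P (σ g x) (ρ g y) = P x y)
    (B : (Matrix ι ι (MonoidAlgebra ℤ π))ˣ) :
    embR π ι P * ((opM (Phi (thP ρ)) B : (Matrix (ι × X) (ι × X) (MonoidAlgebra ℤ π))ˣ) :
      Matrix (ι × X) (ι × X) (MonoidAlgebra ℤ π)) =
    ((opM (Phi (thP σ)) B : (Matrix (ι × X) (ι × X) (MonoidAlgebra ℤ π))ˣ) :
      Matrix (ι × X) (ι × X) (MonoidAlgebra ℤ π)) * embR π ι P := by
  have h1 : ((opM (Phi (thP ρ)) B : (Matrix (ι × X) (ι × X) (MonoidAlgebra ℤ π))ˣ) :
      Matrix (ι × X) (ι × X) (MonoidAlgebra ℤ π)) = (Matrix.compRingEquiv ι X (MonoidAlgebra ℤ π))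
        ((Phi (thP ρ)).mapMatrix (B : Matrix ι ι (MonoidAlgebra ℤ π))) := rfl
  have h2 : ((opM (Phi (thP σ)) B : (Matrix (ι × X) (ι × X) (MonoidAlgebra ℤ π))ˣ) :
      Matrix (ι × X) (ι × X) (MonoidAlgebra ℤ π)) = (Matrix.compRingEquiv ι X (MonoidAlgebra ℤ π))
        ((Phi (thP σ)).mapMatrix (B : Matrix ι ι (MonoidAlgebra ℤ π))) := rfl
  have h3 : embR π ι P = (Matrix.compRingEquiv ι X (MonoidAlgebra ℤ π))
      (Matrix.scalar ι ((Int.castRingHom (MonoidAlgebra ℤ π)).mapMatrix P)) := rfl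
  rw [h1, h2, h3, ← map_mul, ← map_mul]
  congr 1
  refine Matrix.ext fun i j => ?_
  rw [Matrix.scalar_apply, Matrix.diagonal_mul, Matrix.mul_diagonal]
  exact key_intertwine P ρ σ hP _

theorem smul_inj_matrix {κ : Type} (d : ℕ) (hd : d ≠ 0) (A B : Matrix κ κ (MonoidAlgebra ℤ π))
    (h : (d : ℤ) • A = (d : ℤ) • B) : A = B := by
  refine Matrix.ext fun i j => ?_
  have h1 : (d : ℤ) • A i j = (d : ℤ) • B i j := congrFun (congrFun h i) j
  apply MonoidAlgebra.ext
  ext g
  have h2 := congrArg (fun x => MonoidAlgebra.coeff x g) h1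
  simp only [MonoidAlgebra.coeff_smul] at h2
  have h3 : (d : ℤ) * (A i j).coeff g = (d : ℤ) * (B i j).coeff g := h2
  exact mul_left_cancel₀ (by exact_mod_cast hd) h3

end Emb

section Torsion

variable {π : Type} [Group π] [Finite π] {ι : Type} [Fintype ι] [DecidableEq ι]
  (B : (Matrix ι ι (MonoidAlgebra ℤ π))ˣ)

theorem FF_torsion (hINT : WJ.S_INT) (S T : GS π) (h : ∀ g, fixn S g = fixn T g) :
    ∃ k : ℕ, 0 < k ∧ k • FF B S = k • FF B T := by
  have hc : ∀ U : GS π, fixn U 1 = Nat.card U.X := by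
    intro U
    unfold fixn
    apply Nat.card_congr
    exact Equiv.subtypeUnivEquiv (fun x => by rw [map_one]; rfl)
  have hcard : Nat.card S.X = Nat.card T.X := by rw [← hc, ← hc, h]
  let e : S.X ≃ T.X := Fintype.equivOfCardEq (by
    rw [← Nat.card_eq_fintype_card, ← Nat.card_eq_fintype_card, hcard])
  let σ : π →* Equiv.Perm S.X := MonoidHom.mk' (fun g => e.trans ((T.ρ g).trans e.symm)) (by
    intro a b
    ext x
    simp)
  have hσ : ∀ g x, e (σ g x) = T.ρ g (e x) := fun g x => by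
    change e (e.symm (T.ρ g (e x))) = _
    rw [e.apply_symm_apply]
  have hfix : ∀ g : π, Nat.card {x : S.X // S.ρ g x = x} = Nat.card {x : S.X // σ g x = x} := by
    intro g
    have h1 : Nat.card {x : S.X // σ g x = x} = fixn T g := by
      unfold fixn
      apply Nat.card_congr
      exact e.subtypeEquiv (fun x => by
        rw [← hσ]
        exact e.injective.eq_iff.symm)
    rw [h1, ← h]
    rfl
  obtain ⟨P, hdet, hP⟩ := hINT π S.X S.ρ σ hfix
  have hT : FF B T = cl (opM (Phi (thP σ)) B) := (FF_iso B S.X T.X σ T.ρ e hσ).symm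
  rw [hT]
  have hsign : Int.sign P.det * P.det = (P.det.natAbs : ℤ) := Int.sign_mul_self_eq_natAbs P.det
  have hd : P.det.natAbs ≠ 0 := Int.natAbs_ne_zero.mpr hdet
  let Q : Matrix S.X S.X ℤ := Int.sign P.det • P.adjugate
  have hPQ : P * Q = (P.det.natAbs : ℤ) • (1 : Matrix S.X S.X ℤ) := by
    simp only [Q]
    rw [Matrix.mul_smul, Matrix.mul_adjugate, smul_smul, hsign]
  have hQP : Q * P = (P.det.natAbs : ℤ) • (1 : Matrix S.X S.X ℤ) := by
    simp only [Q]
    rw [Matrix.smul_mul, Matrix.adjugate_mul, smul_smul, hsign]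
  refine tors_of_intertwine (embR π ι P) (embR π ι Q) P.det.natAbs hd ?_ ?_
    (opM (Phi (thP S.ρ)) B) (opM (Phi (thP σ)) B) (embR_intertwine P S.ρ σ hP B)
  · rw [← map_mul, hPQ, map_zsmul, map_one]
  · intro A A' hA
    have h1 : embR π ι Q * (embR π ι P * A) = embR π ι Q * (embR π ι P * A') := by rw [hA]
    rw [← Matrix.mul_assoc, ← Matrix.mul_assoc, ← map_mul, hQP, map_zsmul, map_one,
      Matrix.smul_mul, Matrix.smul_mul, Matrix.one_mul, Matrix.one_mul] at h1
    exact smul_inj_matrix _ hd _ _ h1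

end Torsion

/-! ### Induction from cyclic subgroups -/

theorem neg_mem_comm {A : Type} [Group A] [Finite A] (hc : ∀ a b : A, a * b = b * a) {x : Wh A}
    (hx : x ∈ WhStar A) : -x ∈ WhStar A := by
  letI : CommGroup A := { ‹Group A› with mul_comm := hc }
  exact neg_mem_whStar hx

theorem map_cl {H π : Type} [Group H] [Group π] (f : H →* π) {κ : Type} [Fintype κ] [DecidableEq κ]
    (M : (Matrix κ κ (MonoidAlgebra ℤ H))ˣ) :
    Wh.map f (QuotientAddGroup.mk' (trivialUnits H) (cl M)) =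
      QuotientAddGroup.mk' (trivialUnits π)
        (cl (Units.map (fR f).mapMatrix.toMonoidHom M : (Matrix κ κ (MonoidAlgebra ℤ π))ˣ)) :=
  Wh.map_mk f (rx (Fintype.equivFin κ) M)

section Cyc

variable {π : Type} [Group π] [Finite π] (s : π)

/-- the monomial homomorphism given by the cosets of a cyclic subgroup -/
def thC : π →* Wr (Subgroup.zpowers s) (π ⧸ Subgroup.zpowers s) :=
  MonoidHom.mk' (fun g => ⟨fun ξ => ⟨(Quotient.out ξ)⁻¹ * (g * Quotient.out (g⁻¹ • ξ)), by
      rw [← QuotientGroup.eq]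
      rw [QuotientGroup.out_eq']
      change ξ = g • ((Quotient.out (g⁻¹ • ξ) : π) : π ⧸ Subgroup.zpowers s)
      rw [QuotientGroup.out_eq', smul_inv_smul]⟩,
    MulAction.toPermHom π (π ⧸ Subgroup.zpowers s) g⟩) (by
    intro a b
    apply SemidirectProduct.ext
    · funext ξ
      rw [Wr_mul_left]
      apply Subtype.ext
      have e : ((MulAction.toPermHom π (π ⧸ Subgroup.zpowers s) a)⁻¹ ξ) = a⁻¹ • ξ := rfl
      simp only [Subgroup.coe_mul]
      rw [e, _root_.mul_inv_rev, mul_smul]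
      group
    · exact map_mul _ a b)

theorem thC_left (g : π) (ξ : π ⧸ Subgroup.zpowers s) :
    (((thC s g).left ξ : Subgroup.zpowers s) : π) = (Quotient.out ξ)⁻¹ * (g * Quotient.out (g⁻¹ • ξ)) :=
  rfl

/-- diagonal matrices of units -/
def dgU {A κ : Type} [Ring A] [Fintype κ] [DecidableEq κ] (f : κ → Aˣ) : (Matrix κ κ A)ˣ where
  val := Matrix.diagonal fun k => (f k : A)
  inv := Matrix.diagonal fun k => ((f k)⁻¹ : Aˣ)
  val_inv := by
    rw [Matrix.diagonal_mul_diagonal]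
    simp
  inv_val := by
    rw [Matrix.diagonal_mul_diagonal]
    simp

theorem cyc_conj {ι : Type} [Fintype ι] [DecidableEq ι] (B : (Matrix ι ι (MonoidAlgebra ℤ π))ˣ) :
    letI : Fintype (π ⧸ Subgroup.zpowers s) := (GS.cos s).f
    letI : DecidableEq (π ⧸ Subgroup.zpowers s) := (GS.cos s).d
    cl (Units.map (fR (Subgroup.zpowers s).subtype).mapMatrix.toMonoidHom (opM (Phi (thC s)) B) :
      (Matrix (ι × (π ⧸ Subgroup.zpowers s)) (ι × (π ⧸ Subgroup.zpowers s)) (MonoidAlgebra ℤ π))ˣ) =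
      FF B (GS.cos s) := by
  letI : Fintype (π ⧸ Subgroup.zpowers s) := (GS.cos s).f
  letI : DecidableEq (π ⧸ Subgroup.zpowers s) := (GS.cos s).d
  let ρ := MulAction.toPermHom π (π ⧸ Subgroup.zpowers s)
  let D : (Matrix (ι × (π ⧸ Subgroup.zpowers s)) (ι × (π ⧸ Subgroup.zpowers s)) (MonoidAlgebra ℤ π))ˣ :=
    dgU fun k => (MonoidAlgebra.of ℤ π).toHomUnits (Quotient.out k.2)
  have h : (Units.map (fR (Subgroup.zpowers s).subtype).mapMatrix.toMonoidHom (opM (Phi (thC s)) B) :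
      (Matrix (ι × (π ⧸ Subgroup.zpowers s)) (ι × (π ⧸ Subgroup.zpowers s)) (MonoidAlgebra ℤ π))ˣ) =
      D⁻¹ * opM (Phi (thP ρ)) B * D := by
    apply Units.ext
    refine Matrix.ext fun a b => ?_
    obtain ⟨i, ξ⟩ := a
    obtain ⟨j, η⟩ := b
    rw [Units.val_mul, Units.val_mul]
    change _ = (Matrix.diagonal _ * _ * Matrix.diagonal _ : Matrix _ _ (MonoidAlgebra ℤ π)) (i, ξ) (j, η)
    rw [Matrix.mul_diagonal, Matrix.diagonal_mul]
    let F : MonoidAlgebra ℤ π →+ MonoidAlgebra ℤ π :=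
      { toFun := fun a => MonoidAlgebra.of ℤ π (Quotient.out ξ)⁻¹ * ent (thP ρ) ξ η a *
          MonoidAlgebra.of ℤ π (Quotient.out η)
        map_zero' := by rw [map_zero, mul_zero, zero_mul]
        map_add' := fun a b => by rw [map_add, mul_add, add_mul] }
    change ((fR (Subgroup.zpowers s).subtype).toAddMonoidHom.comp (ent (thC s) ξ η))
      ((B : Matrix ι ι (MonoidAlgebra ℤ π)) i j) = F ((B : Matrix ι ι (MonoidAlgebra ℤ π)) i j)
    apply ring_ext
    intro g
    change fR (Subgroup.zpowers s).subtype (ent (thC s) ξ η (MonoidAlgebra.of ℤ π g)) =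
      MonoidAlgebra.of ℤ π (Quotient.out ξ)⁻¹ * ent (thP ρ) ξ η (MonoidAlgebra.of ℤ π g) *
          MonoidAlgebra.of ℤ π (Quotient.out η)
    rw [ent_of, ent_of, mon_apply, mon_apply, thP_left, thP_right]
    have e1 : (thC s g).right⁻¹ ξ = g⁻¹ • ξ := rfl
    have e2 : (ρ g)⁻¹ ξ = g⁻¹ • ξ := rfl
    rw [e1, e2]
    by_cases hη : η = g⁻¹ • ξ
    · rw [if_pos hη, if_pos hη, fR_of, ← map_mul, ← map_mul, hη]
      congr 1
      rw [Subgroup.coe_subtype, thC_left, mul_assoc]
    · rw [if_neg hη, if_neg hη, map_zero, mul_zero, zero_mul]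
  rw [h, cl_mul, cl_mul, cl_inv]
  change - cl D + cl (opM (Phi (thP (GS.cos s).ρ)) B) + cl D = cl (opM (Phi (thP (GS.cos s).ρ)) B)
  abel

end Cyc

/-- For a finite group `π`, the negative of a realised torsion is realised. -/
theorem neg_mem_finite (hINT : WJ.S_INT) (hART : WJ.S_ART) {π : Type} [Group π] [Finite π]
    {x : Wh π} (hx : x ∈ WhStar π) : -x ∈ WhStar π := by
  obtain ⟨n, B, hxB, hf⟩ := whStar_wreath hx
  let q : K1 (MonoidAlgebra ℤ π) →+ Wh π := QuotientAddGroup.mk' (trivialUnits π)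
  have hqx : q (cl B) = x := by rw [hxB, cl_fin]; rfl
  have hpos : ∀ s : π, q (FF B (GS.cos s)) ∈ whM π := fun s => hf π (GS.cos s).X (thP (GS.cos s).ρ)
  have hneg : ∀ s : π, -q (FF B (GS.cos s)) ∈ whM π := by
    intro s
    letI : Fintype (π ⧸ Subgroup.zpowers s) := (GS.cos s).f
    letI : DecidableEq (π ⧸ Subgroup.zpowers s) := (GS.cos s).d
    have h1 := hf (Subgroup.zpowers s) (π ⧸ Subgroup.zpowers s) (thC s)
    have h2 := neg_mem_comm (fun a b => by
      obtain ⟨a, ⟨i, rfl⟩⟩ := a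
      obtain ⟨b, ⟨j, rfl⟩⟩ := b
      apply Subtype.ext
      change s ^ i * s ^ j = s ^ j * s ^ i
      rw [← _root_.zpow_add, ← _root_.zpow_add, add_comm]) h1
    have h3 := map_mem (Subgroup.zpowers s).subtype h2
    rw [map_neg, map_cl, cyc_conj] at h3
    exact h3
  obtain ⟨l, m, hlm⟩ := hART π
  let S : GS π := (GS.triv π (Nat.card π)).add (GS.lst l)
  let T : GS π := GS.lst m
  have hfix : ∀ g, fixn S g = fixn T g := by
    intro g
    rw [fixn_add, fixn_triv, fixn_lst, fixn_lst, hlm]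
  obtain ⟨k, hk0, hk⟩ := FF_torsion B hINT S T hfix
  have hk' := congrArg q hk
  rw [map_nsmul, map_nsmul, FF_add, FF_triv, FF_lst, FF_lst, map_add, map_nsmul, hqx,
    map_list_sum, map_list_sum, List.map_map, List.map_map] at hk'
  obtain ⟨u, hu⟩ : ∃ u, u = (List.map (⇑q ∘ fun s => FF B (GS.cos s)) l).sum := ⟨_, rfl⟩
  obtain ⟨v, hv⟩ : ∃ v, v = (List.map (⇑q ∘ fun s => FF B (GS.cos s)) m).sum := ⟨_, rfl⟩
  rw [← hu, ← hv] at hk'
  have hum : u ∈ whM π := by
    rw [hu]
    apply AddSubmonoid.list_sum_mem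
    intro y hy
    obtain ⟨s, _, rfl⟩ := List.mem_map.mp hy
    exact hpos s
  have hvm : -v ∈ whM π := by
    have : ∀ m : List π, -(List.map (⇑q ∘ fun s => FF B (GS.cos s)) m).sum ∈ whM π := by
      intro m
      induction m with
      | nil =>
        rw [List.map_nil, List.sum_nil, neg_zero]
        exact (whM π).zero_mem
      | cons s m ih =>
        rw [List.map_cons, List.sum_cons, neg_add]
        exact (whM π).add_mem (hneg s) ih
    rw [hv]
    exact this m
  have hcard : 0 < Nat.card π := Nat.card_pos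
  obtain ⟨c, hc⟩ : ∃ c, c = k * Nat.card π := ⟨_, rfl⟩
  have hc0 : 0 < c := by rw [hc]; positivity
  have hcx : c • x = k • v - k • u := by
    rw [hc, mul_nsmul', ← hk', nsmul_add]
    abel
  have hfin : -x = (c - 1) • x + (k • u + k • (-v)) := by
    have h1 : (c - 1) • x + x = c • x := by
      rw [← succ_nsmul, Nat.sub_add_cancel hc0]
    have h2 : (c - 1) • x = c • x - x := by rw [← h1]; abel
    rw [h2, hcx, neg_nsmul]
    abel
  rw [hfin]
  exact (whM π).add_mem ((whM π).nsmul_mem hx _)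
    ((whM π).add_mem ((whM π).nsmul_mem hum _) ((whM π).nsmul_mem hvm _))

end

end Pool.Agent.Y942.WH
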