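import Mathlib

set_option autoImplicit false

open scoped ComplexConjugate

namespace Pool.Agent.Y942.WH

noncomputable section

/-- rounding, for three shifts -/
theorem round3 (x : ℝ) : ∃ a b c : ℤ,
    (x - a) ^ 2 + (x - 1 / 3 - b) ^ 2 + (x - 2 / 3 - c) ^ 2 ≤ 11 / 36 := by
  have h := abs_sub_round (3 * x)
  set m := round (3 * x) with hm
  obtain ⟨h1, h2⟩ := abs_le.mp h
  have hk : m % 3 = 0 ∨ m % 3 = 1 ∨ m % 3 = 2 := by omega
  have hd := Int.emod_add_mul_ediv m 3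
  set k := m / 3 with hk'
  rcases hk with h0 | h0 | h0
  · have e : (m : ℝ) = 3 * k := by
      have : m = 3 * k := by omega
      exact_mod_cast this
    refine ⟨k, k, k - 1, ?_⟩
    push_cast
    nlinarith
  · have e : (m : ℝ) = 3 * k + 1 := by
      have : m = 3 * k + 1 := by omega
      exact_mod_cast this
    refine ⟨k, k, k, ?_⟩
    nlinarith
  · have e : (m : ℝ) = 3 * k + 2 := by
      have : m = 3 * k + 2 := by omega
      exact_mod_cast this
    refine ⟨k + 1, k, k, ?_⟩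
    push_cast
    nlinarith

theorem round5 (t : Fin 5 → ℝ) : ∃ (s : ℝ) (q : Fin 5 → ℤ), ∑ i, (t i - s - q i) ^ 2 ≤ 55 / 108 := by
  choose a b c h using fun i => round3 (t i)
  have hs : ∑ i, ((t i - a i) ^ 2 + (t i - 1 / 3 - b i) ^ 2 + (t i - 2 / 3 - c i) ^ 2) ≤
      ∑ _i : Fin 5, (11 / 36 : ℝ) := Finset.sum_le_sum fun i _ => h i
  rw [Finset.sum_add_distrib, Finset.sum_add_distrib] at hs
  simp only [Finset.sum_const, Finset.card_univ, Fintype.card_fin, nsmul_eq_mul] at hs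
  by_cases h1 : ∑ i, (t i - a i) ^ 2 ≤ 55 / 108
  · exact ⟨0, a, by simpa using h1⟩
  by_cases h2 : ∑ i, (t i - 1 / 3 - b i) ^ 2 ≤ 55 / 108
  · exact ⟨1 / 3, b, h2⟩
  refine ⟨2 / 3, c, ?_⟩
  push_cast at hs
  linarith

section Root

variable (z : ℂ) (hz : z ^ 5 = 1) (hz1 : z ≠ 1)

include hz in
theorem conj_root : conj z = z ^ 4 := by
  have hn : ‖z‖ = 1 := Complex.norm_eq_one_of_pow_eq_one hz (by norm_num)
  have h1 : conj z * z = 1 := by
    rw [← Complex.normSq_eq_conj_mul_self, Complex.normSq_eq_norm_sq, hn]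
    simp
  have h0 : z ≠ 0 := by
    intro h
    rw [h] at hn
    simp at hn
  apply mul_right_cancel₀ h0
  rw [h1, ← hz]
  ring

include hz hz1 in
theorem sum_root : 1 + z + z ^ 2 + z ^ 3 + z ^ 4 = 0 := by
  have h : (z - 1) * (1 + z + z ^ 2 + z ^ 3 + z ^ 4) = 0 := by linear_combination hz
  rcases mul_eq_zero.mp h with h | h
  · exact absurd (sub_eq_zero.mp h) hz1
  · exact h

/-- `ev5 z a = Σ a_i z^i` -/
def ev5 (a : Fin 5 → ℝ) : ℂ := a 0 + a 1 * z + a 2 * z ^ 2 + a 3 * z ^ 3 + a 4 * z ^ 4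

def c0 (a : Fin 5 → ℝ) : ℝ := a 0 ^ 2 + a 1 ^ 2 + a 2 ^ 2 + a 3 ^ 2 + a 4 ^ 2
def c1 (a : Fin 5 → ℝ) : ℝ := a 0 * a 1 + a 1 * a 2 + a 2 * a 3 + a 3 * a 4 + a 4 * a 0
def c2 (a : Fin 5 → ℝ) : ℝ := a 0 * a 2 + a 1 * a 3 + a 2 * a 4 + a 3 * a 0 + a 4 * a 1

include hz in
theorem normSq_ev5 (a : Fin 5 → ℝ) :
    Complex.normSq (ev5 z a) = c0 a + c1 a * (2 * z.re) + c2 a * (2 * (z ^ 2).re) := by
  apply Complex.ofReal_injective
  rw [Complex.normSq_eq_conj_mul_self]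
  have h1 : ((2 * z.re : ℝ) : ℂ) = z + z ^ 4 := by
    rw [← Complex.add_conj, conj_root z hz]
  have h2 : ((2 * (z ^ 2).re : ℝ) : ℂ) = z ^ 2 + z ^ 3 := by
    rw [← Complex.add_conj, map_pow, conj_root z hz]
    linear_combination z ^ 3 * hz
  have h3 : conj (ev5 z a) = a 0 + a 1 * z ^ 4 + a 2 * z ^ 3 + a 3 * z ^ 2 + a 4 * z := by
    unfold ev5
    simp only [map_add, map_mul, map_pow, Complex.conj_ofReal, conj_root z hz]
    linear_combination (a 2 * z ^ 3 + a 3 * (z ^ 7 + z ^ 2) + a 4 * (z ^ 11 + z ^ 6 + z)) * hz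
  rw [h3]
  unfold ev5 c0 c1 c2
  push_cast at h1 h2 ⊢
  linear_combination ((a 4 * a 4 + a 3 * a 3 + a 2 * a 2 + a 1 * a 1) +
    (a 3 * a 4 + a 2 * a 3 + a 1 * a 2) * z + (a 2 * a 4 + a 1 * a 3) * z ^ 2 +
    a 1 * a 4 * z ^ 3) * hz - (a 0 * a 1 + a 1 * a 2 + a 2 * a 3 + a 3 * a 4 + a 4 * a 0 : ℂ) * h1 -
    (a 0 * a 2 + a 1 * a 3 + a 2 * a 4 + a 3 * a 0 + a 4 * a 1 : ℂ) * h2

include hz hz1 in
theorem eta_sum : 2 * z.re + 2 * (z ^ 2).re = -1 := by
  apply Complex.ofReal_injective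
  have h1 : ((2 * z.re : ℝ) : ℂ) = z + z ^ 4 := by
    rw [← Complex.add_conj, conj_root z hz]
  have h2 : ((2 * (z ^ 2).re : ℝ) : ℂ) = z ^ 2 + z ^ 3 := by
    rw [← Complex.add_conj, map_pow, conj_root z hz]
    linear_combination z ^ 3 * hz
  rw [Complex.ofReal_add, h1, h2]
  push_cast
  linear_combination sum_root z hz hz1

include hz hz1 in
theorem eta_prod : (2 * z.re) * (2 * (z ^ 2).re) = -1 := by
  apply Complex.ofReal_injective
  have h1 : ((2 * z.re : ℝ) : ℂ) = z + z ^ 4 := by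
    rw [← Complex.add_conj, conj_root z hz]
  have h2 : ((2 * (z ^ 2).re : ℝ) : ℂ) = z ^ 2 + z ^ 3 := by
    rw [← Complex.add_conj, map_pow, conj_root z hz]
    linear_combination z ^ 3 * hz
  rw [Complex.ofReal_mul, h1, h2]
  push_cast
  linear_combination sum_root z hz hz1 + (z + z ^ 2) * hz

include hz in
theorem sq_root : (z ^ 2) ^ 5 = 1 := by
  rw [← pow_mul, mul_comm, pow_mul, hz, one_pow]

include hz hz1 in
theorem sq_ne : z ^ 2 ≠ 1 := by
  intro h
  apply hz1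
  have : z = z ^ 5 * (z ^ 2)⁻¹ * (z ^ 2)⁻¹ := by
    have h0 : z ≠ 0 := by
      intro h0
      rw [h0] at hz
      norm_num at hz
    field_simp
  rw [this, hz, h]
  simp

include hz in
theorem re_four : ((z ^ 2) ^ 2).re = z.re := by
  rw [← pow_mul, show 2 * 2 = 4 from rfl, ← conj_root z hz, Complex.conj_re]

include hz in
theorem normSq_ev5' (a : Fin 5 → ℝ) :
    Complex.normSq (ev5 (z ^ 2) a) = c0 a + c1 a * (2 * (z ^ 2).re) + c2 a * (2 * z.re) := by
  rw [normSq_ev5 (z ^ 2) (sq_root z hz), re_four z hz]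

include hz hz1 in
/-- Parseval -/
theorem parseval (a : Fin 5 → ℝ) :
    5 * c0 a = (a 0 + a 1 + a 2 + a 3 + a 4) ^ 2 + 2 * Complex.normSq (ev5 z a) +
      2 * Complex.normSq (ev5 (z ^ 2) a) := by
  rw [normSq_ev5 z hz, normSq_ev5' z hz]
  have h := eta_sum z hz hz1
  unfold c0 c1 c2
  linear_combination (-2 * (a 0 * a 1 + a 1 * a 2 + a 2 * a 3 + a 3 * a 4 + a 4 * a 0 +
    (a 0 * a 2 + a 1 * a 3 + a 2 * a 4 + a 3 * a 0 + a 4 * a 1))) * h

include hz hz1 in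
theorem nm_formula (a : Fin 5 → ℝ) :
    Complex.normSq (ev5 z a) * Complex.normSq (ev5 (z ^ 2) a) =
      c0 a ^ 2 - c0 a * c1 a - c0 a * c2 a - c1 a ^ 2 - c2 a ^ 2 + 3 * (c1 a * c2 a) := by
  rw [normSq_ev5 z hz, normSq_ev5' z hz]
  have h := eta_sum z hz hz1
  have h' := eta_prod z hz hz1
  set x := 2 * z.re
  set y := 2 * (z ^ 2).re
  clear_value x y
  have hy : y = -1 - x := by linarith
  subst hy
  linear_combination ((c1 a - c2 a) ^ 2) * (h')

/-- the real coordinates of a pair of complex numbers -/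
def co (w w' : ℂ) : Fin 5 → ℝ := ![2 / 5 * (w + w').re, 2 / 5 * (w * z ^ 4 + w' * z ^ 3).re,
  2 / 5 * (w * z ^ 3 + w' * z).re, 2 / 5 * (w * z ^ 2 + w' * z ^ 4).re,
  2 / 5 * (w * z + w' * z ^ 2).re]

theorem cast_re (u : ℂ) : ((2 / 5 * u.re : ℝ) : ℂ) = 1 / 5 * (u + conj u) := by
  rw [Complex.add_conj]
  push_cast
  ring

include hz hz1 in
theorem ev5_co (w w' : ℂ) : ev5 z (co z w w') = w := by
  have h0 := sum_root z hz hz1
  unfold ev5 co
  simp only [Matrix.cons_val]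
  rw [cast_re, cast_re, cast_re, cast_re, cast_re]
  simp only [map_add, map_mul, map_pow, conj_root z hz]
  generalize conj w = v
  generalize conj w' = v'
  have hz6 : z ^ 6 = z := by linear_combination z * hz
  have hz7 : z ^ 7 = z ^ 2 := by linear_combination z ^ 2 * hz
  have hz8 : z ^ 8 = z ^ 3 := by linear_combination z ^ 3 * hz
  have e4 : (z ^ 4) ^ 4 = z := by linear_combination (z ^ 11 + z ^ 6 + z) * hz
  have e3 : (z ^ 4) ^ 3 = z ^ 2 := by linear_combination (z ^ 7 + z ^ 2) * hz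
  have e2 : (z ^ 4) ^ 2 = z ^ 3 := by linear_combination z ^ 3 * hz
  rw [e4, e3, e2]
  linear_combination (4 / 5 * w + 1 / 5 * v * (z + z ^ 3) + 1 / 5 * w' * (z + z ^ 2) +
    1 / 5 * v' * (z + z ^ 2)) * hz + (1 / 5 * (v + w' + v')) * h0

include hz hz1 in
theorem ev5_co' (w w' : ℂ) : ev5 (z ^ 2) (co z w w') = w' := by
  have h0 := sum_root z hz hz1
  unfold ev5 co
  simp only [Matrix.cons_val]
  rw [cast_re, cast_re, cast_re, cast_re, cast_re]
  simp only [map_add, map_mul, map_pow, conj_root z hz]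
  generalize conj w = v
  generalize conj w' = v'
  have e4 : (z ^ 4) ^ 4 = z := by linear_combination (z ^ 11 + z ^ 6 + z) * hz
  have e3 : (z ^ 4) ^ 3 = z ^ 2 := by linear_combination (z ^ 7 + z ^ 2) * hz
  have e2 : (z ^ 4) ^ 2 = z ^ 3 := by linear_combination z ^ 3 * hz
  rw [e4, e3, e2]
  linear_combination (1 / 5 * w * (z + z ^ 2 + z ^ 3 + z ^ 4) + 1 / 5 * v * (z + z ^ 4 + z ^ 7 + z ^ 2) +
    1 / 5 * w' * (2 + 2 * (z ^ 5 + 1)) + 1 / 5 * v' * (z ^ 3 + z ^ 2 + z ^ 6 + z)) * hz +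
    (1 / 5 * (w + v + v')) * h0

include hz hz1 in
/-- approximation of a pair of complex numbers by an integral element -/
theorem approx (w w' : ℂ) : ∃ q : Fin 5 → ℤ,
    Complex.normSq (w - ev5 z (fun i => q i)) * Complex.normSq (w' - ev5 (z ^ 2) (fun i => q i)) ≤
      (275 / 432) ^ 2 := by
  obtain ⟨s, q, hq⟩ := round5 (co z w w')
  refine ⟨q, ?_⟩
  let d : Fin 5 → ℝ := fun i => co z w w' i - s - q i
  have h0 := sum_root z hz hz1
  have h0' := sum_root (z ^ 2) (sq_root z hz) (sq_ne z hz hz1)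
  have e1 : w - ev5 z (fun i => q i) = ev5 z d := by
    have h := ev5_co z hz hz1 w w'
    have : ev5 z d = ev5 z (co z w w') - ev5 z (fun i => q i) - s * (1 + z + z ^ 2 + z ^ 3 + z ^ 4) := by
      simp only [ev5, d]
      push_cast
      ring
    rw [this, h, h0]
    ring
  have e2 : w' - ev5 (z ^ 2) (fun i => q i) = ev5 (z ^ 2) d := by
    have h := ev5_co' z hz hz1 w w'
    have : ev5 (z ^ 2) d = ev5 (z ^ 2) (co z w w') - ev5 (z ^ 2) (fun i => q i) -
        s * (1 + z ^ 2 + (z ^ 2) ^ 2 + (z ^ 2) ^ 3 + (z ^ 2) ^ 4) := by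
      simp only [ev5, d]
      push_cast
      ring
    rw [this, h, h0']
    ring
  rw [e1, e2]
  have hp := parseval z hz hz1 d
  have hd : c0 d ≤ 55 / 108 := by
    have : c0 d = ∑ i, (co z w w' i - s - q i) ^ 2 := by
      rw [Fin.sum_univ_five]
      rfl
    rw [this]
    exact hq
  have hA := Complex.normSq_nonneg (ev5 z d)
  have hB := Complex.normSq_nonneg (ev5 (z ^ 2) d)
  have hs := sq_nonneg (d 0 + d 1 + d 2 + d 3 + d 4)
  have hsum : Complex.normSq (ev5 z d) + Complex.normSq (ev5 (z ^ 2) d) ≤ 275 / 216 := by linarith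
  nlinarith [sq_nonneg (Complex.normSq (ev5 z d) - Complex.normSq (ev5 (z ^ 2) d))]

end Root

end

end Pool.Agent.Y942.WH
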