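import Pool.Agent.Y942.WH.Tor
import Pool.Agent.Y942.WJ.Stm

open Matrix

set_option autoImplicit false
set_option maxHeartbeats 400000

namespace Pool.Agent.Y942.WH

noncomputable section

/-- a finite set with an action of the group -/
structure GS (π : Type) [Group π] where
  X : Type
  f : Fintype X
  d : DecidableEq X
  ρ : π →* Equiv.Perm X

attribute [instance] GS.f GS.d

section Gset

variable {π : Type} [Group π]

/-- the diagonal homomorphism to the wreath product given by an action -/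
def thP {X : Type} (ρ : π →* Equiv.Perm X) : π →* Wr π X :=
  MonoidHom.mk' (fun g => ⟨fun _ => g, ρ g⟩) (by
    intro a b
    apply SemidirectProduct.ext
    · funext ξ
      rw [Wr_mul_left]
    · exact map_mul ρ a b)

theorem thP_left {X : Type} (ρ : π →* Equiv.Perm X) (g : π) (ξ : X) : (thP ρ g).left ξ = g := rfl

theorem thP_right {X : Type} (ρ : π →* Equiv.Perm X) (g : π) : (thP ρ g).right = ρ g := rfl

variable {ι : Type} [Fintype ι] [DecidableEq ι] (B : (Matrix ι ι (MonoidAlgebra ℤ π))ˣ)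

/-- the product of the class of `B` with the permutation lattice of a finite set with action -/
def FF (S : GS π) : K1 (MonoidAlgebra ℤ π) := cl (opM (Phi (thP S.ρ)) B)

def fixn (S : GS π) (g : π) : ℕ := Nat.card {x : S.X // S.ρ g x = x}

theorem mon_apply {H X : Type} [Group H] [Fintype X] [DecidableEq X] (Θ : π →* Wr H X) (g : π)
    (ξ η : X) : mon Θ g ξ η = if η = (Θ g).right⁻¹ ξ then MonoidAlgebra.of ℤ H ((Θ g).left ξ) else 0 :=
  rfl

/-- An additive relation between matrix entries of representations, checked on group elements. -/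
theorem ring_ext {A : Type} [AddCommGroup A] (f g : MonoidAlgebra ℤ π →+ A)
    (h : ∀ x : π, f (MonoidAlgebra.of ℤ π x) = g (MonoidAlgebra.of ℤ π x)) (a : MonoidAlgebra ℤ π) :
    f a = g a := by
  induction a using MonoidAlgebra.induction_on with
  | of x => exact h x
  | add a b ha hb => rw [map_add, map_add, ha, hb]
  | smul r a ha => rw [map_zsmul, map_zsmul, ha]

/-- entry of `Phi` as an additive map -/
def ent {H X : Type} [Group H] [Fintype X] [DecidableEq X] (Θ : π →* Wr H X) (ξ η : X) :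
    MonoidAlgebra ℤ π →+ MonoidAlgebra ℤ H where
  toFun a := Phi Θ a ξ η
  map_zero' := by rw [map_zero]; rfl
  map_add' a b := by rw [map_add]; rfl

theorem ent_of {H X : Type} [Group H] [Fintype X] [DecidableEq X] (Θ : π →* Wr H X) (ξ η : X)
    (g : π) : ent Θ ξ η (MonoidAlgebra.of ℤ π g) = mon Θ g ξ η := by
  change Phi Θ (MonoidAlgebra.of ℤ π g) ξ η = _
  rw [Phi_of]

/-- transport of an action -/
theorem FF_iso (X Y : Type) [Fintype X] [DecidableEq X] [Fintype Y] [DecidableEq Y]
    (ρ : π →* Equiv.Perm X) (σ : π →* Equiv.Perm Y) (e : X ≃ Y)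
    (he : ∀ g x, e (ρ g x) = σ g (e x)) :
    cl (opM (Phi (thP ρ)) B) = cl (opM (Phi (thP σ)) B) := by
  have h : opM (Phi (thP σ)) B = rx (Equiv.prodCongr (Equiv.refl ι) e) (opM (Phi (thP ρ)) B) := by
    apply Units.ext
    refine Matrix.ext fun a b => ?_
    obtain ⟨i, ξ⟩ := a
    obtain ⟨j, η⟩ := b
    rw [rx_val, Matrix.submatrix_apply, opM_val]
    change ent (thP σ) ξ η _ = ent (thP ρ) (e.symm ξ) (e.symm η) _
    apply ring_ext
    intro g
    rw [ent_of, ent_of, mon_apply, mon_apply, thP_left, thP_left, thP_right, thP_right]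
    have hiff : (η = (σ g)⁻¹ ξ) ↔ (e.symm η = (ρ g)⁻¹ (e.symm ξ)) := by
      rw [Equiv.Perm.eq_inv_iff_eq, Equiv.Perm.eq_inv_iff_eq]
      constructor
      · intro h
        apply e.injective
        rw [he, e.apply_symm_apply, e.apply_symm_apply, h]
      · intro h
        have h2 := congrArg e h
        rw [he, e.apply_symm_apply, e.apply_symm_apply] at h2
        exact h2
    by_cases hη : η = (σ g)⁻¹ ξ
    · rw [if_pos hη, if_pos (hiff.mp hη)]
    · rw [if_neg hη, if_neg (fun h => hη (hiff.mpr h))]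
  rw [h, cl_rx]

/-- the action on a disjoint union -/
def sumAct {X Y : Type} (ρ : π →* Equiv.Perm X) (σ : π →* Equiv.Perm Y) : π →* Equiv.Perm (X ⊕ Y) :=
  (Equiv.Perm.sumCongrHom X Y).comp (ρ.prod σ)

theorem sumAct_inl {X Y : Type} (ρ : π →* Equiv.Perm X) (σ : π →* Equiv.Perm Y) (g : π) (x : X) :
    sumAct ρ σ g (Sum.inl x) = Sum.inl (ρ g x) := rfl

theorem sumAct_inr {X Y : Type} (ρ : π →* Equiv.Perm X) (σ : π →* Equiv.Perm Y) (g : π) (y : Y) :
    sumAct ρ σ g (Sum.inr y) = Sum.inr (σ g y) := rfl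

theorem F_sum (X Y : Type) [Fintype X] [DecidableEq X] [Fintype Y] [DecidableEq Y]
    (ρ : π →* Equiv.Perm X) (σ : π →* Equiv.Perm Y) :
    cl (opM (Phi (thP (sumAct ρ σ))) B) = cl (opM (Phi (thP ρ)) B) + cl (opM (Phi (thP σ)) B) := by
  have h : blk (opM (Phi (thP ρ)) B) (opM (Phi (thP σ)) B) =
      rx (Equiv.prodSumDistrib ι X Y) (opM (Phi (thP (sumAct ρ σ))) B) := by
    apply Units.ext
    refine Matrix.ext fun a b => ?_
    rw [rx_val, Matrix.submatrix_apply]
    rcases a with ⟨i, ξ⟩ | ⟨i, ξ⟩ <;> rcases b with ⟨j, η⟩ | ⟨j, η⟩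
    · change ent (thP ρ) ξ η _ = ent (thP (sumAct ρ σ)) (Sum.inl ξ) (Sum.inl η) _
      apply ring_ext
      intro g
      rw [ent_of, ent_of, mon_apply, mon_apply, thP_left, thP_left, thP_right, thP_right]
      have hiff : ((Sum.inl η : X ⊕ Y) = (sumAct ρ σ g)⁻¹ (Sum.inl ξ)) ↔ (η = (ρ g)⁻¹ ξ) := by
        rw [Equiv.Perm.eq_inv_iff_eq, Equiv.Perm.eq_inv_iff_eq, sumAct_inl]
        exact Sum.inl_injective.eq_iff
      by_cases hη : η = (ρ g)⁻¹ ξ
      · rw [if_pos hη, if_pos (hiff.mpr hη)]
      · rw [if_neg hη, if_neg (fun h => hη (hiff.mp h))]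
    · change (0 : MonoidAlgebra ℤ π →+ MonoidAlgebra ℤ π) ((B : Matrix ι ι _) i j) =
        ent (thP (sumAct ρ σ)) (Sum.inl ξ) (Sum.inr η) ((B : Matrix ι ι _) i j)
      apply ring_ext
      intro g
      rw [ent_of, mon_apply, thP_right, if_neg]
      · rfl
      · rw [Equiv.Perm.eq_inv_iff_eq, sumAct_inr]
        exact Sum.inr_ne_inl
    · change (0 : MonoidAlgebra ℤ π →+ MonoidAlgebra ℤ π) ((B : Matrix ι ι _) i j) =
        ent (thP (sumAct ρ σ)) (Sum.inr ξ) (Sum.inl η) ((B : Matrix ι ι _) i j)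
      apply ring_ext
      intro g
      rw [ent_of, mon_apply, thP_right, if_neg]
      · rfl
      · rw [Equiv.Perm.eq_inv_iff_eq, sumAct_inl]
        exact Sum.inl_ne_inr
    · change ent (thP σ) ξ η _ = ent (thP (sumAct ρ σ)) (Sum.inr ξ) (Sum.inr η) _
      apply ring_ext
      intro g
      rw [ent_of, ent_of, mon_apply, mon_apply, thP_left, thP_left, thP_right, thP_right]
      have hiff : ((Sum.inr η : X ⊕ Y) = (sumAct ρ σ g)⁻¹ (Sum.inr ξ)) ↔ (η = (σ g)⁻¹ ξ) := by
        rw [Equiv.Perm.eq_inv_iff_eq, Equiv.Perm.eq_inv_iff_eq, sumAct_inr]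
        exact Sum.inr_injective.eq_iff
      by_cases hη : η = (σ g)⁻¹ ξ
      · rw [if_pos hη, if_pos (hiff.mpr hη)]
      · rw [if_neg hη, if_neg (fun h => hη (hiff.mp h))]
  have h2 := congrArg cl h
  rw [cl_blk, cl_rx] at h2
  exact h2.symm

/-- disjoint union -/
def GS.add (S T : GS π) : GS π where
  X := S.X ⊕ T.X
  f := inferInstance
  d := inferInstance
  ρ := sumAct S.ρ T.ρ

theorem FF_add (S T : GS π) : FF B (S.add T) = FF B S + FF B T := F_sum B S.X T.X S.ρ T.ρ

theorem fixn_add (S T : GS π) (g : π) : fixn (S.add T) g = fixn S g + fixn T g := by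
  unfold fixn
  rw [← Nat.card_sum]
  apply Nat.card_congr
  exact
    { toFun := fun x => match x with
        | ⟨Sum.inl y, h⟩ => Sum.inl ⟨y, Sum.inl_injective h⟩
        | ⟨Sum.inr y, h⟩ => Sum.inr ⟨y, Sum.inr_injective h⟩
      invFun := fun x => match x with
        | Sum.inl y => ⟨Sum.inl y.1, congrArg Sum.inl y.2⟩
        | Sum.inr y => ⟨Sum.inr y.1, congrArg Sum.inr y.2⟩
      left_inv := by rintro ⟨x | x, h⟩ <;> rfl
      right_inv := by rintro (⟨x, h⟩ | ⟨x, h⟩) <;> rfl }

/-- the empty set -/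
def GS.zero (π : Type) [Group π] : GS π := ⟨Empty, inferInstance, inferInstance, 1⟩

theorem FF_zero : FF B (GS.zero π) = 0 := by
  unfold FF
  have : opM (Phi (thP (GS.zero π).ρ)) B = 1 := by
    apply Units.ext
    refine Matrix.ext fun a b => ?_
    exact a.2.elim
  rw [this, cl_one]

theorem fixn_zero (g : π) : fixn (GS.zero π) g = 0 := by
  unfold fixn
  have : IsEmpty {x : (GS.zero π).X // (GS.zero π).ρ g x = x} := ⟨fun x => x.1.elim⟩
  exact Nat.card_of_isEmpty

/-- the one point set -/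
def GS.one (π : Type) [Group π] : GS π := ⟨Unit, inferInstance, inferInstance, 1⟩

theorem F_unit : cl (opM (Phi (thP (1 : π →* Equiv.Perm Unit))) B) = cl B := by
  have h : B = rx (Equiv.prodPUnit ι) (opM (Phi (thP (1 : π →* Equiv.Perm Unit))) B) := by
    apply Units.ext
    refine Matrix.ext fun i j => ?_
    rw [rx_val, Matrix.submatrix_apply]
    change AddMonoidHom.id _ _ = ent (thP (1 : π →* Equiv.Perm Unit)) () () _
    apply ring_ext
    intro g
    rw [ent_of, mon_apply, if_pos rfl]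
    rfl
  have h2 := congrArg cl h
  rw [cl_rx] at h2
  exact h2.symm

theorem FF_one : FF B (GS.one π) = cl B := F_unit B

theorem fixn_one (g : π) : fixn (GS.one π) g = 1 := by
  unfold fixn
  have : Unique {x : (GS.one π).X // (GS.one π).ρ g x = x} := ⟨⟨⟨(), rfl⟩⟩, fun x => Subtype.ext rfl⟩
  exact Nat.card_unique

/-- trivial action on `m` points -/
def GS.triv (π : Type) [Group π] : ℕ → GS π
  | 0 => GS.zero π
  | m + 1 => (GS.one π).add (GS.triv π m)

theorem FF_triv (m : ℕ) : FF B (GS.triv π m) = m • cl B := by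
  induction m with
  | zero => rw [zero_nsmul]; exact FF_zero B
  | succ m ih =>
    rw [succ_nsmul']
    change FF B ((GS.one π).add (GS.triv π m)) = _
    rw [FF_add, FF_one, ih]

theorem fixn_triv (m : ℕ) (g : π) : fixn (GS.triv π m) g = m := by
  induction m with
  | zero => exact fixn_zero g
  | succ m ih =>
    change fixn ((GS.one π).add (GS.triv π m)) g = _
    rw [fixn_add, fixn_one, ih, add_comm]

variable [Finite π]

/-- the cosets of a cyclic subgroup -/
def GS.cos (s : π) : GS π where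
  X := π ⧸ Subgroup.zpowers s
  f := Fintype.ofFinite _
  d := Classical.decEq _
  ρ := MulAction.toPermHom π (π ⧸ Subgroup.zpowers s)

theorem fixn_cos (s g : π) : fixn (GS.cos s) g = WJ.fx s g := rfl

def GS.lst : List π → GS π
  | [] => GS.zero π
  | s :: l => (GS.cos s).add (GS.lst l)

theorem FF_lst (l : List π) : FF B (GS.lst l) = (l.map fun s => FF B (GS.cos s)).sum := by
  induction l with
  | nil => exact FF_zero B
  | cons s l ih =>
    change FF B ((GS.cos s).add (GS.lst l)) = _
    rw [FF_add, ih, List.map_cons, List.sum_cons]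

theorem fixn_lst (l : List π) (g : π) : fixn (GS.lst l) g = (l.map fun s => WJ.fx s g).sum := by
  induction l with
  | nil => exact fixn_zero g
  | cons s l ih =>
    change fixn ((GS.cos s).add (GS.lst l)) g = _
    rw [fixn_add, ih, List.map_cons, List.sum_cons, fixn_cos]

end Gset

end

end Pool.Agent.Y942.WH
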