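import Pool.Agent.Y942.WH.FinGrp
import Pool.Agent.Y942.WH.All

open Matrix

set_option autoImplicit false
set_option maxHeartbeats 400000

namespace Pool.Agent.Y942.WH

noncomputable section

theorem K1_eq_mk {R : Type} [Ring R] (c : K1 R) :
    ∃ (n : ℕ) (M : (Matrix (Fin n) (Fin n) R)ˣ), c = K1.mk M := by
  obtain ⟨x, rfl⟩ := QuotientAddGroup.mk'_surjective _ c
  induction x using FreeAbelianGroup.induction_on with
  | zero => exact ⟨0, 1, by rw [map_zero, K1.mk_one]⟩
  | of x => exact ⟨x.1, x.2, rfl⟩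
  | neg x h => exact ⟨x.1, x.2⁻¹, by rw [map_neg, K1.mk_inv]; rfl⟩
  | add x y hx hy =>
    obtain ⟨n, M, hM⟩ := hx
    obtain ⟨m, N, hN⟩ := hy
    refine ⟨n + m, rx finSumFinEquiv (blk M N), ?_⟩
    rw [map_add, hM, hN, ← cl_fin (rx finSumFinEquiv (blk M N)), cl_rx, cl_blk, cl_fin, cl_fin]

theorem Wh_eq_mk {π : Type} [Group π] (x : Wh π) :
    ∃ (n : ℕ) (M : (Matrix (Fin n) (Fin n) (MonoidAlgebra ℤ π))ˣ), x = Wh.mk M := by
  obtain ⟨c, rfl⟩ := QuotientAddGroup.mk'_surjective _ x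
  obtain ⟨n, M, rfl⟩ := K1_eq_mk c
  exact ⟨n, M, rfl⟩

theorem map_retract {C H : Type} [Group C] [Group H] (i : C →* H) (p : H →* C)
    (hpi : ∀ c, p (i c) = c) (y : Wh C) : Wh.map p (Wh.map i y) = y := by
  obtain ⟨n, M, rfl⟩ := Wh_eq_mk y
  rw [Wh.map_mk, Wh.map_mk]
  congr 1
  apply Units.ext
  refine Matrix.ext fun a b => ?_
  rw [fM_val, fM_val]
  change ((fR p).comp (fR i)).toAddMonoidHom _ = AddMonoidHom.id _ _
  apply ring_ext
  intro g
  change fR p (fR i (MonoidAlgebra.of ℤ C g)) = MonoidAlgebra.of ℤ C g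
  rw [fR_of, fR_of, hpi]

/-- the homomorphism `C₅ → ⟨s⟩` -/
def p5 {π : Type} [Group π] (s : π) (hs : s ^ 5 = 1) : C5 →* Subgroup.zpowers s :=
  MonoidHom.mk' (fun k => ⟨s ^ (Multiplicative.toAdd k).val, Subgroup.npow_mem_zpowers s _⟩) (by
    intro a b
    apply Subtype.ext
    change s ^ (Multiplicative.toAdd (a * b)).val =
      s ^ (Multiplicative.toAdd a).val * s ^ (Multiplicative.toAdd b).val
    rw [← pow_add, toAdd_mul, ZMod.val_add]
    have h := Nat.div_add_mod ((Multiplicative.toAdd a).val + (Multiplicative.toAdd b).val) 5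
    conv_rhs => rw [← h, pow_add, pow_mul, hs, one_pow, one_mul])

theorem cyc5 {π : Type} [Group π] (s : π) (hs : s ^ 5 = 1) (y : Wh (Subgroup.zpowers s)) :
    y ∈ WhStar (Subgroup.zpowers s) := by
  have key : ∃ i : Subgroup.zpowers s →* C5, ∀ c, p5 s hs (i c) = c := by
    by_cases h1 : s = 1
    · refine ⟨1, fun c => ?_⟩
      rw [MonoidHom.one_apply, map_one]
      obtain ⟨c, ⟨k, rfl⟩⟩ := c
      apply Subtype.ext
      subst h1
      simp
    · haveI : Fact (Nat.Prime 5) := ⟨by norm_num⟩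
      have hord : orderOf s = 5 := orderOf_eq_prime hs h1
      have hinj : Function.Injective (p5 s hs) := by
        rw [injective_iff_map_eq_one]
        intro k hk
        have h2 : s ^ (Multiplicative.toAdd k).val = 1 := congrArg Subtype.val hk
        have h3 := orderOf_dvd_of_pow_eq_one h2
        rw [hord] at h3
        have h4 : (Multiplicative.toAdd k).val < 5 := ZMod.val_lt _
        have h5 : (Multiplicative.toAdd k).val = 0 := Nat.eq_zero_of_dvd_of_lt h3 h4
        have h6 : Multiplicative.toAdd k = 0 := (ZMod.val_eq_zero _).mp h5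
        exact h6
      have hsurj : Function.Surjective (p5 s hs) := by
        rintro ⟨c, ⟨k, rfl⟩⟩
        refine ⟨Multiplicative.ofAdd (k : ZMod 5), ?_⟩
        apply Subtype.ext
        change s ^ ((k : ZMod 5)).val = s ^ k
        rw [← zpow_natCast, ZMod.val_intCast]
        have h7 := (zpow_mod_orderOf s k).symm
        rw [hord] at h7
        rw [h7]
      let e := MulEquiv.ofBijective (p5 s hs) ⟨hinj, hsurj⟩
      exact ⟨e.symm.toMonoidHom, fun c => e.apply_symm_apply c⟩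
  obtain ⟨i, hi⟩ := key
  rw [← map_retract i (p5 s hs) hi y]
  apply map_mem
  rw [whStar_C5]
  exact Set.mem_univ _

section Mult

variable {π : Type} [Group π] [Finite π]

/-- Artin's relation for the class of a matrix. -/
theorem artin_relation (hINT : WJ.S_INT) (hART : WJ.S_ART) {n : ℕ}
    (B : (Matrix (Fin n) (Fin n) (MonoidAlgebra ℤ π))ˣ) :
    ∃ (l m : List π) (k : ℕ), 0 < k ∧
      k • (Nat.card π • cl B + (l.map fun s => FF B (GS.cos s)).sum) =
        k • (m.map fun s => FF B (GS.cos s)).sum := by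
  obtain ⟨l, m, hlm⟩ := hART π
  have hfix : ∀ g, fixn ((GS.triv π (Nat.card π)).add (GS.lst l)) g = fixn (GS.lst m) g := by
    intro g
    rw [fixn_add, fixn_triv, fixn_lst, fixn_lst, hlm]
  obtain ⟨k, hk0, hk⟩ := FF_torsion B hINT _ _ hfix
  rw [FF_add, FF_triv, FF_lst, FF_lst] at hk
  exact ⟨l, m, k, hk0, hk⟩

/-- the elements with a positive multiple in a given subgroup -/
def rad {A : Type} [AddCommGroup A] (S : AddSubgroup A) : AddSubgroup A where
  carrier := {z | ∃ k : ℕ, 0 < k ∧ k • z ∈ S}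
  zero_mem' := ⟨1, one_pos, by rw [one_nsmul]; exact S.zero_mem⟩
  add_mem' := by
    rintro z w ⟨k, hk, hz⟩ ⟨l, hl, hw⟩
    refine ⟨k * l, Nat.mul_pos hk hl, ?_⟩
    rw [nsmul_add]
    apply S.add_mem
    · rw [mul_nsmul]
      exact S.nsmul_mem hz l
    · rw [mul_nsmul']
      exact S.nsmul_mem hw k
  neg_mem' := by
    rintro z ⟨k, hk, hz⟩
    exact ⟨k, hk, by rw [neg_nsmul]; exact S.neg_mem hz⟩

theorem multiple_mem (hINT : WJ.S_INT) (hART : WJ.S_ART)
    (hC : ∀ (s : π) (y : Wh (Subgroup.zpowers s)), ∃ k : ℕ, 0 < k ∧ k • y ∈ WhStar (Subgroup.zpowers s))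
    (x : Wh π) : ∃ k : ℕ, 0 < k ∧ k • x ∈ WhStar π := by
  let S : AddSubgroup (Wh π) := { whM π with neg_mem' := fun hx => neg_mem_finite hINT hART hx }
  obtain ⟨n, B, rfl⟩ := Wh_eq_mk x
  let q : K1 (MonoidAlgebra ℤ π) →+ Wh π := QuotientAddGroup.mk' (trivialUnits π)
  have hqx : q (cl B) = Wh.mk B := by rw [cl_fin]; rfl
  have hs : ∀ s : π, q (FF B (GS.cos s)) ∈ rad S := by
    intro s
    letI : Fintype (π ⧸ Subgroup.zpowers s) := (GS.cos s).f
    letI : DecidableEq (π ⧸ Subgroup.zpowers s) := (GS.cos s).d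
    obtain ⟨k, hk, hy⟩ := hC s (QuotientAddGroup.mk' (trivialUnits (Subgroup.zpowers s))
      (cl (opM (Phi (thC s)) B)))
    have h3 := map_mem (Subgroup.zpowers s).subtype hy
    rw [map_nsmul, map_cl, cyc_conj] at h3
    exact ⟨k, hk, h3⟩
  obtain ⟨l, m, k, hk0, hk⟩ := artin_relation hINT hART B
  have hk' := congrArg q hk
  rw [map_nsmul, map_nsmul, map_add, map_nsmul, hqx, map_list_sum, map_list_sum, List.map_map,
    List.map_map] at hk'
  have hsum : ∀ l : List π, (List.map (⇑q ∘ fun s => FF B (GS.cos s)) l).sum ∈ rad S := by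
    intro l
    induction l with
    | nil =>
      rw [List.map_nil, List.sum_nil]
      exact (rad S).zero_mem
    | cons s l ih =>
      rw [List.map_cons, List.sum_cons]
      exact (rad S).add_mem (hs s) ih
  obtain ⟨u, hu⟩ : ∃ u, u = (List.map (⇑q ∘ fun s => FF B (GS.cos s)) l).sum := ⟨_, rfl⟩
  obtain ⟨v, hv⟩ : ∃ v, v = (List.map (⇑q ∘ fun s => FF B (GS.cos s)) m).sum := ⟨_, rfl⟩
  rw [← hu, ← hv] at hk'
  have hcx : (k * Nat.card π) • Wh.mk B = k • v - k • u := by
    rw [mul_nsmul', ← hk', nsmul_add]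
    abel
  have hmem : (k * Nat.card π) • Wh.mk B ∈ rad S := by
    rw [hcx]
    exact (rad S).sub_mem ((rad S).nsmul_mem (hv ▸ hsum m) k) ((rad S).nsmul_mem (hu ▸ hsum l) k)
  obtain ⟨r, hr, hr'⟩ := hmem
  have hcard : 0 < Nat.card π := Nat.card_pos
  refine ⟨(k * Nat.card π) * r, by positivity, ?_⟩
  rw [mul_nsmul]
  exact hr'

end Mult

end

end Pool.Agent.Y942.WH
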