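import Pool.Agent.Y942.WH.Tri

open Matrix

set_option autoImplicit false
set_option maxHeartbeats 400000

namespace Pool.Agent.Y942.WH

noncomputable section

variable {R : Type} [CommRing R]

/-- two by two matrix of determinant one as a unit -/
def sl (a b c d : R) (h : a * d - b * c = 1) : (Matrix (Fin 2) (Fin 2) R)ˣ where
  val := !![a, b; c, d]
  inv := !![d, -b; -c, a]
  val_inv := by
    rw [Matrix.mul_fin_two, Matrix.one_fin_two]
    congr 1
    · rw [show a * d + b * -c = 1 by linear_combination h, show a * -b + b * a = 0 by ring,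
        show c * d + d * -c = 0 by ring, show c * -b + d * a = 1 by linear_combination h]
  inv_val := by
    rw [Matrix.mul_fin_two, Matrix.one_fin_two]
    congr 1
    · rw [show d * a + -b * c = 1 by linear_combination h, show d * b + -b * d = 0 by ring,
        show -c * a + a * c = 0 by ring, show -c * b + a * d = 1 by linear_combination h]

theorem tv01 (c : R) : ((tv (0 : Fin 3) 1 (by decide) c : (Matrix (Fin 3) (Fin 3) R)ˣ) :
    Matrix (Fin 3) (Fin 3) R) = !![1, c, 0; 0, 1, 0; 0, 0, 1] := by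
  change Matrix.transvection 0 1 c = _
  refine Matrix.ext fun i j => ?_
  fin_cases i <;> fin_cases j <;> simp [Matrix.transvection, Matrix.single_apply, Matrix.one_apply]

theorem tv10 (c : R) : ((tv (1 : Fin 3) 0 (by decide) c : (Matrix (Fin 3) (Fin 3) R)ˣ) :
    Matrix (Fin 3) (Fin 3) R) = !![1, 0, 0; c, 1, 0; 0, 0, 1] := by
  change Matrix.transvection 1 0 c = _
  refine Matrix.ext fun i j => ?_
  fin_cases i <;> fin_cases j <;> simp [Matrix.transvection, Matrix.single_apply, Matrix.one_apply]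

theorem tv12 (c : R) : ((tv (1 : Fin 3) 2 (by decide) c : (Matrix (Fin 3) (Fin 3) R)ˣ) :
    Matrix (Fin 3) (Fin 3) R) = !![1, 0, 0; 0, 1, c; 0, 0, 1] := by
  change Matrix.transvection 1 2 c = _
  refine Matrix.ext fun i j => ?_
  fin_cases i <;> fin_cases j <;> simp [Matrix.transvection, Matrix.single_apply, Matrix.one_apply]

theorem tv21 (c : R) : ((tv (2 : Fin 3) 1 (by decide) c : (Matrix (Fin 3) (Fin 3) R)ˣ) :
    Matrix (Fin 3) (Fin 3) R) = !![1, 0, 0; 0, 1, 0; 0, c, 1] := by
  change Matrix.transvection 2 1 c = _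
  refine Matrix.ext fun i j => ?_
  fin_cases i <;> fin_cases j <;> simp [Matrix.transvection, Matrix.single_apply, Matrix.one_apply]

/-- the equivalences placing a two by two block -/
def e12 : Fin 2 ⊕ Fin 1 ≃ Fin 3 where
  toFun := Sum.elim ![0, 1] ![2]
  invFun := ![Sum.inl 0, Sum.inl 1, Sum.inr 0]
  left_inv := by decide
  right_inv := by decide

def e23 : Fin 1 ⊕ Fin 2 ≃ Fin 3 where
  toFun := Sum.elim ![0] ![1, 2]
  invFun := ![Sum.inl 0, Sum.inr 0, Sum.inr 1]
  left_inv := by decide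
  right_inv := by decide

def e13 : Fin 2 ⊕ Fin 1 ≃ Fin 3 where
  toFun := Sum.elim ![0, 2] ![1]
  invFun := ![Sum.inl 0, Sum.inr 0, Sum.inl 1]
  left_inv := by decide
  right_inv := by decide

theorem e12_0 : e12.symm 0 = Sum.inl 0 := rfl
theorem e12_1 : e12.symm 1 = Sum.inl 1 := rfl
theorem e12_2 : e12.symm 2 = Sum.inr 0 := rfl
theorem e23_0 : e23.symm 0 = Sum.inl 0 := rfl
theorem e23_1 : e23.symm 1 = Sum.inr 0 := rfl
theorem e23_2 : e23.symm 2 = Sum.inr 1 := rfl
theorem e13_0 : e13.symm 0 = Sum.inl 0 := rfl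
theorem e13_1 : e13.symm 1 = Sum.inr 0 := rfl
theorem e13_2 : e13.symm 2 = Sum.inl 1 := rfl

theorem val12 (M : (Matrix (Fin 2) (Fin 2) R)ˣ) (a b c d : R)
    (h : (M : Matrix (Fin 2) (Fin 2) R) = !![a, b; c, d]) :
    ((rx e12 (blk M 1) : (Matrix (Fin 3) (Fin 3) R)ˣ) : Matrix (Fin 3) (Fin 3) R) =
      !![a, b, 0; c, d, 0; 0, 0, 1] := by
  rw [rx_val]
  refine Matrix.ext fun i j => ?_
  fin_cases i <;> fin_cases j <;> simp [blk, h, e12_0, e12_1, e12_2]

theorem val23 (M : (Matrix (Fin 2) (Fin 2) R)ˣ) (a b c d : R)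
    (h : (M : Matrix (Fin 2) (Fin 2) R) = !![a, b; c, d]) :
    ((rx e23 (blk 1 M) : (Matrix (Fin 3) (Fin 3) R)ˣ) : Matrix (Fin 3) (Fin 3) R) =
      !![1, 0, 0; 0, a, b; 0, c, d] := by
  rw [rx_val]
  refine Matrix.ext fun i j => ?_
  fin_cases i <;> fin_cases j <;> simp [blk, h, e23_0, e23_1, e23_2]

theorem val13 (M : (Matrix (Fin 2) (Fin 2) R)ˣ) (a b c d : R)
    (h : (M : Matrix (Fin 2) (Fin 2) R) = !![a, b; c, d]) :
    ((rx e13 (blk M 1) : (Matrix (Fin 3) (Fin 3) R)ˣ) : Matrix (Fin 3) (Fin 3) R) =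
      !![a, 0, b; 0, 1, 0; c, 0, d] := by
  rw [rx_val]
  refine Matrix.ext fun i j => ?_
  fin_cases i <;> fin_cases j <;> simp [blk, h, e13_0, e13_1, e13_2]

/-- Multiplicativity of the Mennicke symbol. -/
theorem mennicke (a b c d b' c' d' : R) (h : a * d - b * c = 1) (h' : a * d' - b' * c' = 1)
    (h'' : a * (d' - b' * c' * d) - (b * b') * (-(c * c')) = 1) :
    cl (sl a b c d h) + cl (sl a b' c' d' h') =
      cl (sl a (b * b') (-(c * c')) (d' - b' * c' * d) h'') := by
  have key : tv (2 : Fin 3) 1 (by decide) (-c') *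
      ((rx e12 (blk (sl a b c d h) 1)) * (rx e23 (blk 1 (sl a b' c' d' h')))) *
      tv (0 : Fin 3) 1 (by decide) (-b) * tv (1 : Fin 3) 0 (by decide) (-c) *
      tv (1 : Fin 3) 2 (by decide) (-(d * b')) =
      rx e13 (blk (sl a (b * b') (-(c * c')) (d' - b' * c' * d) h'') 1) := by
    apply Units.ext
    simp only [Units.val_mul]
    rw [val12 _ a b c d rfl, val23 _ a b' c' d' rfl, val13 _ a (b * b') (-(c * c')) (d' - b' * c' * d) rfl,
      tv01, tv10, tv12, tv21]
    simp only [Matrix.mul_fin_three]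
    refine Matrix.ext fun i j => ?_
    fin_cases i <;> fin_cases j <;> simp
    · ring
    · ring
    · ring
    · linear_combination (-c) * h
    · linear_combination h
    · linear_combination (-(d * b')) * h
    · linear_combination (c' * c) * h
    · linear_combination (-c') * h
    · linear_combination (c' * d * b') * h
  have h1 := congrArg cl key
  simp only [cl_mul, cl_tv, cl_rx, cl_blk, cl_one, add_zero, zero_add] at h1
  exact h1

theorem tvv01 (c : R) : ((tv (0 : Fin 2) 1 (by decide) c : (Matrix (Fin 2) (Fin 2) R)ˣ) :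
    Matrix (Fin 2) (Fin 2) R) = !![1, c; 0, 1] := by
  change Matrix.transvection 0 1 c = _
  refine Matrix.ext fun i j => ?_
  fin_cases i <;> fin_cases j <;> simp [Matrix.transvection, Matrix.single_apply, Matrix.one_apply]

theorem tvv10 (c : R) : ((tv (1 : Fin 2) 0 (by decide) c : (Matrix (Fin 2) (Fin 2) R)ˣ) :
    Matrix (Fin 2) (Fin 2) R) = !![1, 0; c, 1] := by
  change Matrix.transvection 1 0 c = _
  refine Matrix.ext fun i j => ?_
  fin_cases i <;> fin_cases j <;> simp [Matrix.transvection, Matrix.single_apply, Matrix.one_apply]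

/-- the class of a matrix with first row `(a, 1 + a x)` -/
theorem cl_sl_one (a x c d : R) (h : a * d - (1 + a * x) * c = 1) :
    cl (sl a (1 + a * x) c d h) = 0 := by
  have key : sl a (1 + a * x) c d h = tv (1 : Fin 2) 0 (by decide) (d - c * x - 1) *
      tv (0 : Fin 2) 1 (by decide) 1 * tv (1 : Fin 2) 0 (by decide) (-1 + a) *
      tv (0 : Fin 2) 1 (by decide) x := by
    apply Units.ext
    simp only [Units.val_mul]
    rw [tvv01, tvv01, tvv10, tvv10]
    change !![a, 1 + a * x; c, d] = _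
    simp only [Matrix.mul_fin_two]
    refine Matrix.ext fun i j => ?_
    fin_cases i <;> fin_cases j <;> simp
    · ring
    · linear_combination (-1 : R) * h
    · linear_combination (-x) * h
  rw [key, cl_mul, cl_mul, cl_mul, cl_tv, cl_tv, cl_tv, cl_tv]
  simp

theorem sl_pow (a b c d : R) (h : a * d - b * c = 1) (k : ℕ) : ∃ (c' d' : R)
    (h' : a * d' - b ^ (k + 1) * c' = 1), (k + 1) • cl (sl a b c d h) = cl (sl a (b ^ (k + 1)) c' d' h') := by
  induction k with
  | zero =>
    refine ⟨c, d, by rw [zero_add, pow_one]; exact h, ?_⟩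
    refine (one_nsmul _).trans ?_
    congr 1
    apply Units.ext
    change !![a, b; c, d] = !![a, b ^ (0 + 1); c, d]
    rw [zero_add, pow_one]
  | succ k ih =>
    obtain ⟨c', d', h', e⟩ := ih
    refine ⟨-(c' * c), d - b * c * d', by
      rw [pow_succ]
      linear_combination h - (b * c) * h', ?_⟩
    rw [succ_nsmul, e, mennicke a (b ^ (k + 1)) c' d' b c d h' h (by
      linear_combination h - (b * c) * h')]
    congr 1
    apply Units.ext
    change !![a, b ^ (k + 1) * b; -(c' * c), d - b * c * d'] =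
      !![a, b ^ (k + 1 + 1); -(c' * c), d - b * c * d']
    rw [pow_succ b (k + 1)]

/-- If `R / a` is finite, the class of a matrix of determinant one with first entry `a` has finite
order. -/
theorem sl_torsion (a b c d : R) (h : a * d - b * c = 1) (hfin : Finite (R ⧸ Ideal.span {a})) :
    ∃ k : ℕ, 0 < k ∧ k • cl (sl a b c d h) = 0 := by
  let q : R →+* R ⧸ Ideal.span {a} := Ideal.Quotient.mk _
  have hu : IsUnit (q b) := by
    apply IsUnit.of_mul_eq_one (q (-c))
    rw [← map_mul, ← map_one q]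
    apply Ideal.Quotient.eq.mpr
    rw [Ideal.mem_span_singleton]
    exact ⟨-d, by linear_combination h⟩
  obtain ⟨u, hu⟩ := hu
  obtain ⟨k, hk0, hk⟩ := (isOfFinOrder_of_finite u).exists_pow_eq_one
  obtain ⟨k, rfl⟩ : ∃ m, k = m + 1 := ⟨k - 1, by omega⟩
  have hb : q (b ^ (k + 1)) = q 1 := by
    rw [map_pow, ← hu, ← Units.val_pow_eq_pow_val, hk, map_one]
    rfl
  have hb' := Ideal.Quotient.eq.mp hb
  rw [Ideal.mem_span_singleton] at hb'
  obtain ⟨x, hx⟩ := hb'
  have hx' : b ^ (k + 1) = 1 + a * x := by linear_combination hx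
  obtain ⟨c', d', h', e⟩ := sl_pow a b c d h k
  refine ⟨k + 1, by omega, ?_⟩
  rw [e]
  have h'' : a * d' - (1 + a * x) * c' = 1 := by rw [← hx']; exact h'
  rw [← cl_sl_one a x c' d' h'']
  congr 1
  apply Units.ext
  change !![a, b ^ (k + 1); c', d'] = !![a, 1 + a * x; c', d']
  rw [hx']

end

end Pool.Agent.Y942.WH
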