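import Pool.Agent.Y942.WH.Cls

open Matrix

set_option autoImplicit false

namespace Pool.Agent.Y942.WH

noncomputable section

section Tri

variable {R : Type} [Ring R] {ι κ : Type} [Fintype ι] [DecidableEq ι] [Fintype κ] [DecidableEq κ]

theorem cl_blk_one_right (M : (Matrix ι ι R)ˣ) : cl (blk M (1 : (Matrix κ κ R)ˣ)) = cl M := by
  have h : blk M (1 : (Matrix κ κ R)ˣ) = rx (Equiv.sumCongr (Equiv.refl ι) (Fintype.equivFin κ).symm)
      (blk M (1 : (Matrix (Fin (Fintype.card κ)) (Fin (Fintype.card κ)) R)ˣ)) := by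
    apply Units.ext
    rw [rx_val]
    ext (i | i) (j | j)
    · simp [blk]
    · simp [blk]
    · simp [blk]
    · simp [blk, Matrix.one_apply]
  rw [h, cl_rx, cl_blk_fin]

theorem cl_blk (M : (Matrix ι ι R)ˣ) (N : (Matrix κ κ R)ˣ) : cl (blk M N) = cl M + cl N := by
  have h : blk M N = blk M 1 * blk 1 N := by rw [← blk_mul, mul_one, one_mul]
  have h2 : blk (1 : (Matrix ι ι R)ˣ) N = rx (Equiv.sumComm κ ι) (blk N 1) := by
    apply Units.ext
    rw [rx_val]
    ext (i | i) (j | j) <;> simp [blk]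
  rw [h, cl_mul, cl_blk_one_right, h2, cl_rx, cl_blk_one_right]

/-- upper unitriangular block matrix -/
def up (X : Matrix ι κ R) : (Matrix (ι ⊕ κ) (ι ⊕ κ) R)ˣ where
  val := Matrix.fromBlocks 1 X 0 1
  inv := Matrix.fromBlocks 1 (-X) 0 1
  val_inv := by simp [Matrix.fromBlocks_multiply]
  inv_val := by simp [Matrix.fromBlocks_multiply]

/-- lower unitriangular block matrix -/
def dn (Z : Matrix κ ι R) : (Matrix (ι ⊕ κ) (ι ⊕ κ) R)ˣ where
  val := Matrix.fromBlocks 1 0 Z 1
  inv := Matrix.fromBlocks 1 0 (-Z) 1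
  val_inv := by simp [Matrix.fromBlocks_multiply]
  inv_val := by simp [Matrix.fromBlocks_multiply]

theorem cl_up (X : Matrix ι κ R) : cl (up X) = 0 := by
  let Y : Matrix (ι ⊕ κ) κ R := Matrix.fromRows X 0
  let Z : Matrix κ (ι ⊕ κ) R := Matrix.fromCols 0 1
  have h : up Y * dn Z = blk (up X) (1 : (Matrix κ κ R)ˣ) * (dn Z * up Y) := by
    apply Units.ext
    have h1 : (1 : Matrix (ι ⊕ κ) (ι ⊕ κ) R) + Y * Z = Matrix.fromBlocks 1 X 0 1 := by
      simp only [Y, Z, Matrix.fromRows_mul_fromCols]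
      rw [← Matrix.fromBlocks_one, Matrix.fromBlocks_add]
      simp
    have h2 : Z * Y = 0 := by
      simp [Y, Z, Matrix.fromCols_mul_fromRows]
    have h3 : (Matrix.fromBlocks (1 : Matrix ι ι R) X (0 : Matrix κ ι R) (1 : Matrix κ κ R)) * Y = Y := by
      simp only [Y, Matrix.fromBlocks_mul_fromRows]
      simp
    change Matrix.fromBlocks 1 Y 0 1 * Matrix.fromBlocks 1 0 Z 1 =
      Matrix.fromBlocks (Matrix.fromBlocks 1 X 0 1) 0 0 1 *
        (Matrix.fromBlocks 1 0 Z 1 * Matrix.fromBlocks 1 Y 0 1)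
    simp only [Matrix.fromBlocks_multiply, Matrix.one_mul, Matrix.mul_one, Matrix.zero_mul,
      Matrix.mul_zero, add_zero, zero_add, h1, h2, h3]
  have h' := congrArg cl h
  rw [cl_mul, cl_mul, cl_mul, cl_blk_one_right, add_comm (cl (dn Z))] at h'
  exact right_eq_add.mp h'

/-- The class of a block triangular matrix. -/
theorem cl_tri (A : (Matrix ι ι R)ˣ) (D : (Matrix κ κ R)ˣ) (X : Matrix ι κ R)
    (N : (Matrix (ι ⊕ κ) (ι ⊕ κ) R)ˣ) (hN : (N : Matrix (ι ⊕ κ) (ι ⊕ κ) R) = Matrix.fromBlocks A X 0 D) :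
    cl N = cl A + cl D := by
  have h : N = blk A D * up (((A⁻¹ : (Matrix ι ι R)ˣ) : Matrix ι ι R) * X) := by
    apply Units.ext
    rw [hN]
    change _ = Matrix.fromBlocks (A : Matrix ι ι R) 0 0 (D : Matrix κ κ R) * Matrix.fromBlocks 1 _ 0 1
    simp only [Matrix.fromBlocks_multiply, Matrix.one_mul, Matrix.mul_one, Matrix.zero_mul,
      Matrix.mul_zero, add_zero, zero_add, ← Matrix.mul_assoc, Units.mul_inv]
  rw [h, cl_mul, cl_blk, cl_up, add_zero]

end Tri

section Comm

variable {R : Type} [CommRing R] {ι : Type} [Fintype ι] [DecidableEq ι]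

/-- elementary matrix as a unit -/
def tv (i j : ι) (hij : i ≠ j) (c : R) : (Matrix ι ι R)ˣ where
  val := Matrix.transvection i j c
  inv := Matrix.transvection i j (-c)
  val_inv := by rw [Matrix.transvection_mul_transvection_same i j hij, add_neg_cancel, Matrix.transvection_zero]
  inv_val := by rw [Matrix.transvection_mul_transvection_same i j hij, neg_add_cancel, Matrix.transvection_zero]

theorem cl_tv (i j : ι) (hij : i ≠ j) (c : R) : cl (tv i j hij c) = 0 := by
  classical
  let X : Matrix {x // x = i} {x // ¬ x = i} R := Matrix.of fun _ y => if y.1 = j then c else 0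
  have h : tv i j hij c = rx (Equiv.sumCompl (fun x => x = i)) (up X) := by
    apply (rx (Equiv.sumCompl (fun x => x = i))).symm.injective
    rw [MulEquiv.symm_apply_apply]
    apply Units.ext
    change (Matrix.transvection i j c).submatrix _ _ = Matrix.fromBlocks 1 X 0 1
    ext (⟨x, hx⟩ | ⟨x, hx⟩) (⟨y, hy⟩ | ⟨y, hy⟩)
    · subst hx hy
      simp [Matrix.transvection, Matrix.one_apply, Matrix.single_apply, hij.symm]
    · subst hx
      simp only [Matrix.submatrix_apply, Matrix.transvection, Matrix.add_apply, Matrix.one_apply,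
        Matrix.single_apply, Matrix.fromBlocks_apply₁₂, X, Matrix.of_apply]
      simp [Ne.symm hy, eq_comm]
    · subst hy
      simp only [Matrix.submatrix_apply, Matrix.transvection, Matrix.add_apply, Matrix.one_apply,
        Matrix.single_apply, Matrix.fromBlocks_apply₂₁]
      simp [hx, Ne.symm hx]
    · simp only [Matrix.submatrix_apply, Matrix.transvection, Matrix.add_apply, Matrix.one_apply,
        Matrix.single_apply, Matrix.fromBlocks_apply₂₂]
      simp [Ne.symm hx]
  rw [h, cl_rx, cl_up]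

end Comm

end

end Pool.Agent.Y942.WH
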