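import Pool.Agent.Y942.WH.Units5
import Pool.Agent.Y942.WH.Tri

open Matrix

set_option autoImplicit false

namespace Pool.Agent.Y942.WH

noncomputable section

abbrev Ix (n : ℕ) : Type := Fin 1 ⊕ Fin n

abbrev z0 (n : ℕ) : Ix n := Sum.inl 0

theorem tv_same {n : ℕ} (i j : Ix n) (hij : i ≠ j) (c : R5) (W : (Matrix (Ix n) (Ix n) R5)ˣ) (b : Ix n) :
    ((tv i j hij c * W : (Matrix (Ix n) (Ix n) R5)ˣ) : Matrix (Ix n) (Ix n) R5) i b =
      (W : Matrix (Ix n) (Ix n) R5) i b + c * (W : Matrix (Ix n) (Ix n) R5) j b :=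
  Matrix.transvection_mul_apply_same i j b c _

theorem tv_ne {n : ℕ} (i j : Ix n) (hij : i ≠ j) (c : R5) (W : (Matrix (Ix n) (Ix n) R5)ˣ) (a b : Ix n)
    (ha : a ≠ i) : ((tv i j hij c * W : (Matrix (Ix n) (Ix n) R5)ˣ) : Matrix (Ix n) (Ix n) R5) a b =
      (W : Matrix (Ix n) (Ix n) R5) a b :=
  Matrix.transvection_mul_apply_of_ne i j a b ha c _

theorem inv_row {n : ℕ} (W : (Matrix (Ix n) (Ix n) R5)ˣ) :
    ∑ j, ((W⁻¹ : (Matrix (Ix n) (Ix n) R5)ˣ) : Matrix (Ix n) (Ix n) R5) (z0 n) j *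
      (W : Matrix (Ix n) (Ix n) R5) j (z0 n) = 1 := by
  rw [← Matrix.mul_apply, Units.inv_mul, Matrix.one_apply_eq]

theorem step1 {n : ℕ} (M : (Matrix (Ix n) (Ix n) R5)ˣ) : ∃ E : (Matrix (Ix n) (Ix n) R5)ˣ,
    cl E = 0 ∧ (eps (((E * M : (Matrix (Ix n) (Ix n) R5)ˣ) : Matrix (Ix n) (Ix n) R5)
      (z0 n) (z0 n))).natAbs = 1 := by
  let S : Set ℕ := {k | 0 < k ∧ ∃ E : (Matrix (Ix n) (Ix n) R5)ˣ, cl E = 0 ∧
    (eps (((E * M : (Matrix (Ix n) (Ix n) R5)ˣ) : Matrix (Ix n) (Ix n) R5) (z0 n) (z0 n))).natAbs = k}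
  have hne : S.Nonempty := by
    by_cases h0 : eps ((M : Matrix (Ix n) (Ix n) R5) (z0 n) (z0 n)) = 0
    · have hex : ∃ i, eps ((M : Matrix (Ix n) (Ix n) R5) i (z0 n)) ≠ 0 := by
        by_contra hcon
        push Not at hcon
        have h := congrArg eps (inv_row M)
        rw [map_sum, map_one] at h
        simp only [map_mul, hcon, mul_zero, Finset.sum_const_zero] at h
        exact absurd h (by norm_num)
      obtain ⟨i, hi⟩ := hex
      have hi0 : z0 n ≠ i := by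
        rintro rfl
        exact hi h0
      refine ⟨_, Int.natAbs_pos.mpr ?_, tv (z0 n) i hi0 1, cl_tv _ _ _ _, rfl⟩
      rw [tv_same, map_add, h0, one_mul, zero_add]
      exact hi
    · exact ⟨_, Int.natAbs_pos.mpr (by rw [one_mul]; exact h0), 1, cl_one, rfl⟩
  obtain ⟨⟨hk0, E, hE, hEk⟩, hmin⟩ : sInf S ∈ S ∧ ∀ m ∈ S, sInf S ≤ m :=
    ⟨Nat.sInf_mem hne, fun m hm => Nat.sInf_le hm⟩
  refine ⟨E, hE, ?_⟩
  set W := E * M with hW
  set g := eps ((W : Matrix (Ix n) (Ix n) R5) (z0 n) (z0 n)) with hg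
  have hg0 : g ≠ 0 := by
    intro h
    rw [h] at hEk
    simp at hEk
    omega
  have hdvd : ∀ i, g ∣ eps ((W : Matrix (Ix n) (Ix n) R5) i (z0 n)) := by
    intro i
    by_cases hi : i = z0 n
    · subst hi
      exact dvd_refl _
    by_contra hnd
    set h := eps ((W : Matrix (Ix n) (Ix n) R5) i (z0 n)) with hh
    have h1 : 0 ≤ h % g := Int.emod_nonneg _ hg0
    have h2 : h % g < (g.natAbs : ℤ) := by
      rw [← Int.abs_eq_natAbs]
      exact Int.emod_lt_abs _ hg0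
    have h3 : h % g ≠ 0 := fun h3 => hnd (Int.dvd_of_emod_eq_zero h3)
    set h' := h % g with hh'
    have hpos : 0 < h' := lt_of_le_of_ne h1 (Ne.symm h3)
    let W1 := tv i (z0 n) hi (((-(h / g) : ℤ)) : R5) * W
    have e1 : eps ((W1 : Matrix (Ix n) (Ix n) R5) i (z0 n)) = h' := by
      rw [tv_same, map_add, map_mul, map_intCast, ← hg, ← hh]
      have := Int.emod_add_mul_ediv h g
      simp only [Int.cast_id]
      rw [hh']
      linarith
    have e2 : eps ((W1 : Matrix (Ix n) (Ix n) R5) (z0 n) (z0 n)) = g := by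
      rw [tv_ne _ _ _ _ _ _ _ (Ne.symm hi)]
    let W2 := tv (z0 n) i (Ne.symm hi) (((-((g - 1) / h') : ℤ)) : R5) * W1
    have e3 : eps ((W2 : Matrix (Ix n) (Ix n) R5) (z0 n) (z0 n)) = 1 + (g - 1) % h' := by
      rw [tv_same, map_add, map_mul, map_intCast, e1, e2]
      have := Int.emod_add_mul_ediv (g - 1) h'
      simp only [Int.cast_id]
      linarith
    have h4 : 0 ≤ (g - 1) % h' := Int.emod_nonneg _ hpos.ne'
    have h5 : (g - 1) % h' < h' := Int.emod_lt_of_pos _ hpos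
    have hm := hmin (eps ((W2 : Matrix (Ix n) (Ix n) R5) (z0 n) (z0 n))).natAbs
      ⟨Int.natAbs_pos.mpr (by rw [e3]; omega),
        tv (z0 n) i (Ne.symm hi) (((-((g - 1) / h') : ℤ)) : R5) *
          (tv i (z0 n) hi (((-(h / g) : ℤ)) : R5) * E), by rw [cl_mul, cl_mul, cl_tv, cl_tv, hE]; simp,
        by rw [mul_assoc, mul_assoc]⟩
    rw [← hEk, e3] at hm
    omega
  have h := congrArg eps (inv_row W)
  rw [map_sum, map_one] at h
  have hd1 : g ∣ 1 := by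
    rw [← h]
    apply Finset.dvd_sum
    intro j _
    rw [map_mul]
    exact Dvd.dvd.mul_left (hdvd j) _
  exact Int.natAbs_eq_iff.mpr (by
    rcases Int.isUnit_iff.mp (isUnit_of_dvd_one hd1) with h | h
    · left; simpa using h
    · right; simpa using h)

theorem eps_zero (x : R5) (h : eps x = 0) : ∃ b : R5, x = (1 - g5) * b := by
  obtain ⟨a, rfl⟩ := exists_el x
  rw [eps_el] at h
  refine ⟨-((a 1 : R5) + a 2 * (1 + g5) + a 3 * (1 + g5 + g5 ^ 2) + a 4 * (1 + g5 + g5 ^ 2 + g5 ^ 3)), ?_⟩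
  have h0 : a 0 = - a 1 - a 2 - a 3 - a 4 := by linarith
  unfold el
  rw [h0]
  push_cast
  ring

theorem step2 {n : ℕ} (M : (Matrix (Ix n) (Ix n) R5)ˣ) : ∃ E : (Matrix (Ix n) (Ix n) R5)ˣ,
    cl E = 0 ∧ ∀ i : Fin n, ∃ r : R5,
      ((E * M : (Matrix (Ix n) (Ix n) R5)ˣ) : Matrix (Ix n) (Ix n) R5) (Sum.inr i) (z0 n) =
        r * ((E * M : (Matrix (Ix n) (Ix n) R5)ˣ) : Matrix (Ix n) (Ix n) R5) (z0 n) (z0 n) := by
  let S : Set ℕ := {k | ∃ E : (Matrix (Ix n) (Ix n) R5)ˣ, cl E = 0 ∧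
    (eps (((E * M : (Matrix (Ix n) (Ix n) R5)ˣ) : Matrix (Ix n) (Ix n) R5) (z0 n) (z0 n))).natAbs = 1 ∧
    Nm (((E * M : (Matrix (Ix n) (Ix n) R5)ˣ) : Matrix (Ix n) (Ix n) R5) (z0 n) (z0 n)) = k}
  have hne : S.Nonempty := by
    obtain ⟨E, hE, hE1⟩ := step1 M
    obtain ⟨k, hk⟩ := Nm_nat (((E * M : (Matrix (Ix n) (Ix n) R5)ˣ) : Matrix (Ix n) (Ix n) R5) (z0 n) (z0 n))
    exact ⟨k, E, hE, hE1, hk⟩
  obtain ⟨⟨E, hE, hE1, hEk⟩, hmin⟩ : sInf S ∈ S ∧ ∀ m ∈ S, sInf S ≤ m :=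
    ⟨Nat.sInf_mem hne, fun m hm => Nat.sInf_le hm⟩
  refine ⟨E, hE, fun i => ?_⟩
  set W := E * M with hW
  set a := (W : Matrix (Ix n) (Ix n) R5) (z0 n) (z0 n) with ha
  set x := (W : Matrix (Ix n) (Ix n) R5) (Sum.inr i) (z0 n) with hx
  have ha0 : Nm a ≠ 0 := Nm_ne_zero a hE1
  have hss : eps a * eps a = 1 := by
    rcases Int.natAbs_eq_iff.mp hE1 with h | h <;> rw [h] <;> norm_num
  obtain ⟨b, hb⟩ := eps_zero (x - ((eps x * eps a : ℤ) : R5) * a) (by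
    rw [map_sub, map_mul, map_intCast]
    simp only [Int.cast_id]
    rw [mul_assoc, hss, mul_one, sub_self])
  obtain ⟨t, ht⟩ := division b a ha0
  by_cases hN : Nm (b - t * a) = 0
  · obtain ⟨m, hm⟩ := Nm_eq_zero _ hN
    refine ⟨((eps x * eps a : ℤ) : R5) + (1 - g5) * t, ?_⟩
    have h1 : (1 - g5) * (b - t * a) = 0 := by
      rw [hm]
      linear_combination (-(m : R5)) * g5_pow
    linear_combination hb + h1
  · exfalso
    have hij : (Sum.inr i : Ix n) ≠ z0 n := by simp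
    have hy0 : Nm ((1 - g5) * (b - t * a)) ≠ 0 := by
      rw [Nm_mul, Nm_one_sub]
      positivity
    obtain ⟨q, hq⟩ := division a ((1 - g5) * (b - t * a)) hy0
    let W1 := tv (Sum.inr i) (z0 n) hij (-(((eps x * eps a : ℤ) : R5) + (1 - g5) * t)) * W
    have e1 : (W1 : Matrix (Ix n) (Ix n) R5) (Sum.inr i) (z0 n) = (1 - g5) * (b - t * a) := by
      rw [tv_same, ← ha, ← hx]
      linear_combination hb
    have e2 : (W1 : Matrix (Ix n) (Ix n) R5) (z0 n) (z0 n) = a := by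
      rw [tv_ne _ _ _ _ _ _ _ (Ne.symm hij)]
    let W2 := tv (z0 n) (Sum.inr i) (Ne.symm hij) (-q) * W1
    have e3 : (W2 : Matrix (Ix n) (Ix n) R5) (z0 n) (z0 n) = a - q * ((1 - g5) * (b - t * a)) := by
      rw [tv_same, e1, e2]
      ring
    have e4 : eps ((W2 : Matrix (Ix n) (Ix n) R5) (z0 n) (z0 n)) = eps a := by
      rw [e3, map_sub, map_mul, map_mul, map_sub eps 1 g5, eps_g, map_one]
      ring
    obtain ⟨k, hk⟩ := Nm_nat ((W2 : Matrix (Ix n) (Ix n) R5) (z0 n) (z0 n))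
    have hm := hmin k ⟨tv (z0 n) (Sum.inr i) (Ne.symm hij) (-q) *
      (tv (Sum.inr i) (z0 n) hij (-(((eps x * eps a : ℤ) : R5) + (1 - g5) * t)) * E),
      by rw [cl_mul, cl_mul, cl_tv, cl_tv, hE]; simp,
      by rw [mul_assoc, mul_assoc]; exact (congrArg Int.natAbs e4).trans hE1,
      by rw [mul_assoc, mul_assoc]; exact hk⟩
    have hm' : Nm a ≤ Nm ((W2 : Matrix (Ix n) (Ix n) R5) (z0 n) (z0 n)) := by
      rw [hk, hEk]
      exact_mod_cast hm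
    rw [e3] at hm'
    rw [Nm_mul (1 - g5), Nm_one_sub] at hq
    have hpos : 0 < Nm a := lt_of_le_of_ne (Nm_nonneg a) (Ne.symm ha0)
    nlinarith

theorem cl_dn {R : Type} [Ring R] {ι κ : Type} [Fintype ι] [DecidableEq ι] [Fintype κ]
    [DecidableEq κ] (Z : Matrix κ ι R) : cl (dn Z) = 0 := by
  have h : dn Z = rx (Equiv.sumComm κ ι) (up Z) := by
    apply Units.ext
    rw [rx_val]
    ext (i | i) (j | j) <;> simp [dn, up, Matrix.one_apply]
  rw [h, cl_rx, cl_up]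

/-- one by one matrices -/
def d1 : R5ˣ ≃* (Matrix (Fin 1) (Fin 1) R5)ˣ :=
  (Units.mapEquiv (Matrix.uniqueRingEquiv (m := Fin 1) (A := R5)).toMulEquiv).symm

theorem d1_val (u : R5ˣ) (i j : Fin 1) : ((d1 u : (Matrix (Fin 1) (Fin 1) R5)ˣ) :
    Matrix (Fin 1) (Fin 1) R5) i j = u := rfl

theorem step3 {n : ℕ} (M : (Matrix (Ix n) (Ix n) R5)ˣ) :
    ∃ (u : R5ˣ) (M' : (Matrix (Fin n) (Fin n) R5)ˣ), cl M = cl (d1 u) + cl M' := by
  obtain ⟨E, hE, hr⟩ := step2 M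
  choose r hr using hr
  set W := E * M with hW
  let Z : Matrix (Fin n) (Fin 1) R5 := Matrix.of fun i _ => - r i
  let V := dn Z * W
  have hV21 : (V : Matrix (Ix n) (Ix n) R5).toBlocks₂₁ = 0 := by
    refine Matrix.ext fun i j => ?_
    have hj : j = 0 := Subsingleton.elim _ _
    subst hj
    change ((Matrix.fromBlocks (1 : Matrix (Fin 1) (Fin 1) R5) (0 : Matrix (Fin 1) (Fin n) R5) Z
      (1 : Matrix (Fin n) (Fin n) R5) * (W : Matrix (Ix n) (Ix n) R5) :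
        Matrix (Ix n) (Ix n) R5)) (Sum.inr i) (Sum.inl 0) = 0
    rw [Matrix.mul_apply, Fintype.sum_sum_type, Fin.sum_univ_one]
    simp only [Matrix.fromBlocks_apply₂₁, Matrix.fromBlocks_apply₂₂, Matrix.one_apply, ite_mul,
      one_mul, zero_mul, Finset.sum_ite_eq, Finset.mem_univ, if_true, Z, Matrix.of_apply]
    rw [hr i]
    ring
  have hV : (V : Matrix (Ix n) (Ix n) R5) = Matrix.fromBlocks (V : Matrix (Ix n) (Ix n) R5).toBlocks₁₁
      (V : Matrix (Ix n) (Ix n) R5).toBlocks₁₂ 0 (V : Matrix (Ix n) (Ix n) R5).toBlocks₂₂ := by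
    rw [← hV21, Matrix.fromBlocks_toBlocks]
  have hu : IsUnit (Matrix.fromBlocks (V : Matrix (Ix n) (Ix n) R5).toBlocks₁₁
      (V : Matrix (Ix n) (Ix n) R5).toBlocks₁₂ 0 (V : Matrix (Ix n) (Ix n) R5).toBlocks₂₂) := by
    rw [← hV]
    exact V.isUnit
  obtain ⟨⟨A, hA⟩, ⟨D, hD⟩⟩ := Matrix.isUnit_fromBlocks_zero₂₁.mp hu
  rw [← hA, ← hD] at hV
  refine ⟨d1.symm A, D, ?_⟩
  rw [MulEquiv.apply_symm_apply, ← cl_tri A D _ V hV]
  change _ = cl (dn Z * (E * M))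
  rw [cl_mul, cl_mul, cl_dn, hE, zero_add, zero_add]

theorem cl_eq_unit (n : ℕ) (M : (Matrix (Fin n) (Fin n) R5)ˣ) : ∃ u : R5ˣ, cl M = cl (d1 u) := by
  induction n with
  | zero =>
    refine ⟨1, ?_⟩
    have : M = 1 := by
      apply Units.ext
      ext i
      exact i.elim0
    rw [this, map_one, cl_one, cl_one]
  | succ n ih =>
    let e : Fin (n + 1) ≃ Ix n := (finCongr (Nat.add_comm n 1)).trans finSumFinEquiv.symm
    obtain ⟨u, M', h⟩ := step3 (rx e M)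
    obtain ⟨v, hv⟩ := ih M'
    refine ⟨u * v, ?_⟩
    rw [← cl_rx e, h, hv, map_mul, cl_mul]

theorem K1_eq_unit (c : K1 R5) : ∃ u : R5ˣ, c = cl (d1 u) := by
  obtain ⟨x, rfl⟩ := QuotientAddGroup.mk'_surjective _ c
  induction x using FreeAbelianGroup.induction_on with
  | zero => exact ⟨1, by rw [map_zero, map_one, cl_one]⟩
  | of x =>
    obtain ⟨n, M⟩ := x
    obtain ⟨u, hu⟩ := cl_eq_unit n M
    exact ⟨u, by rw [← hu, cl_fin]; rfl⟩
  | neg x h =>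
    obtain ⟨u, hu⟩ := h
    exact ⟨u⁻¹, by rw [map_neg, hu, map_inv, cl_inv]⟩
  | add x y hx hy =>
    obtain ⟨u, hu⟩ := hx
    obtain ⟨v, hv⟩ := hy
    exact ⟨u * v, by rw [map_add, hu, hv, map_mul, cl_mul]⟩

end

end Pool.Agent.Y942.WH
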