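import Pool.Agent.Y942.WH.Exa
import Pool.Agent.Y942.WH.Five

set_option autoImplicit false

namespace Pool.Agent.Y942.WH

noncomputable section

/-- The cyclic group of order five. -/
abbrev C5 : Type := Multiplicative (ZMod 5)

/-- the generator of `C5` -/
def sg : C5 := Multiplicative.ofAdd 1

theorem sg_pow : sg ^ 5 = 1 := by decide

abbrev R5 : Type := MonoidAlgebra ℤ C5

def g5 : R5 := sig sg

theorem g5_pow : g5 ^ 5 = 1 := sig_pow sg sg_pow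

def chi (z : ℂ) (hz : z ^ 5 = 1) : C5 →* ℂ where
  toFun g := z ^ (Multiplicative.toAdd g).val
  map_one' := by simp
  map_mul' a b := by
    rw [← pow_add, toAdd_mul, ZMod.val_add]
    have h := Nat.div_add_mod ((Multiplicative.toAdd a).val + (Multiplicative.toAdd b).val) 5
    conv_rhs => rw [← h, pow_add, pow_mul, hz, one_pow, one_mul]

def psi (z : ℂ) (hz : z ^ 5 = 1) : R5 →+* ℂ := (MonoidAlgebra.lift ℤ ℂ C5 (chi z hz)).toRingHom

theorem psi_of (z : ℂ) (hz : z ^ 5 = 1) (g : C5) : psi z hz (MonoidAlgebra.of ℤ C5 g) = chi z hz g := by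
  simp [psi]

theorem psi_g (z : ℂ) (hz : z ^ 5 = 1) : psi z hz g5 = z := by
  unfold g5 sig
  rw [psi_of]
  change z ^ (1 : ZMod 5).val = z
  have : (1 : ZMod 5).val = 1 := rfl
  rw [this, pow_one]

def eps : R5 →+* ℤ := (MonoidAlgebra.lift ℤ ℤ C5 1).toRingHom

theorem eps_g : eps g5 = 1 := by
  simp [eps, g5, sig]

def el (a : Fin 5 → ℤ) : R5 := a 0 + a 1 * g5 + a 2 * g5 ^ 2 + a 3 * g5 ^ 3 + a 4 * g5 ^ 4

theorem el_add (a b : Fin 5 → ℤ) : el (a + b) = el a + el b := by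
  unfold el
  simp only [Pi.add_apply, Int.cast_add]
  ring

theorem el_smul (n : ℤ) (b : Fin 5 → ℤ) : el (n • b) = n • el b := by
  unfold el
  simp only [Pi.smul_apply, smul_eq_mul, Int.cast_mul, zsmul_eq_mul]
  ring

theorem of_eq : ∀ g : C5, ∃ i : Fin 5, g = sg ^ (i : ℕ) := by decide

theorem el_single (i : Fin 5) (n : ℤ) : el (Pi.single i n) = n * g5 ^ (i : ℕ) := by
  fin_cases i <;> simp [el, Pi.single_apply]

theorem exists_el (x : R5) : ∃ a, x = el a := by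
  induction x using MonoidAlgebra.induction_on with
  | of g =>
    obtain ⟨i, hi⟩ := of_eq g
    refine ⟨Pi.single i 1, ?_⟩
    rw [el_single, hi, map_pow]
    simp [g5, sig]
  | add f g hf hg =>
    obtain ⟨a, rfl⟩ := hf
    obtain ⟨b, rfl⟩ := hg
    exact ⟨a + b, (el_add a b).symm⟩
  | smul r f hf =>
    obtain ⟨a, rfl⟩ := hf
    exact ⟨r • a, (el_smul r a).symm⟩

theorem psi_el (z : ℂ) (hz : z ^ 5 = 1) (a : Fin 5 → ℤ) :
    psi z hz (el a) = ev5 z (fun i => (a i : ℝ)) := by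
  unfold el ev5
  simp only [map_add, map_mul, map_pow, psi_g, map_intCast]
  push_cast
  rfl

theorem eps_el (a : Fin 5 → ℤ) : eps (el a) = a 0 + a 1 + a 2 + a 3 + a 4 := by
  unfold el
  simp only [map_add, map_mul, map_pow, eps_g, map_intCast, one_pow, mul_one]
  simp

def ze : ℂ := Complex.exp (2 * Real.pi * Complex.I / (5 : ℕ))

theorem ze_prim : IsPrimitiveRoot ze 5 := Complex.isPrimitiveRoot_exp 5 (by norm_num)

theorem hze : ze ^ 5 = 1 := ze_prim.pow_eq_one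

theorem hze1 : ze ≠ 1 := ze_prim.ne_one (by norm_num)

def p1 : R5 →+* ℂ := psi ze hze

def p2 : R5 →+* ℂ := psi (ze ^ 2) (sq_root ze hze)

/-- The norm from `ℤ[ζ]` to `ℤ`. -/
def Nm (x : R5) : ℝ := Complex.normSq (p1 x) * Complex.normSq (p2 x)

theorem Nm_mul (x y : R5) : Nm (x * y) = Nm x * Nm y := by
  unfold Nm
  rw [map_mul p1, map_mul p2, Complex.normSq_mul, Complex.normSq_mul]
  ring

theorem Nm_one : Nm 1 = 1 := by
  simp [Nm]

theorem Nm_nonneg (x : R5) : 0 ≤ Nm x := mul_nonneg (Complex.normSq_nonneg _) (Complex.normSq_nonneg _)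

def i0 (a : Fin 5 → ℤ) : ℤ := a 0 ^ 2 + a 1 ^ 2 + a 2 ^ 2 + a 3 ^ 2 + a 4 ^ 2
def i1 (a : Fin 5 → ℤ) : ℤ := a 0 * a 1 + a 1 * a 2 + a 2 * a 3 + a 3 * a 4 + a 4 * a 0
def i2 (a : Fin 5 → ℤ) : ℤ := a 0 * a 2 + a 1 * a 3 + a 2 * a 4 + a 3 * a 0 + a 4 * a 1

theorem Nm_el (a : Fin 5 → ℤ) : Nm (el a) =
    ((i0 a ^ 2 - i0 a * i1 a - i0 a * i2 a - i1 a ^ 2 - i2 a ^ 2 + 3 * (i1 a * i2 a) : ℤ) : ℝ) := by
  unfold Nm p1 p2
  rw [psi_el, psi_el, nm_formula ze hze hze1]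
  unfold c0 c1 c2 i0 i1 i2
  push_cast
  rfl

theorem Nm_nat (x : R5) : ∃ n : ℕ, Nm x = n := by
  obtain ⟨a, rfl⟩ := exists_el x
  have h := Nm_nonneg (el a)
  rw [Nm_el] at h ⊢
  have h' : 0 ≤ i0 a ^ 2 - i0 a * i1 a - i0 a * i2 a - i1 a ^ 2 - i2 a ^ 2 + 3 * (i1 a * i2 a) := by
    exact_mod_cast h
  refine ⟨(i0 a ^ 2 - i0 a * i1 a - i0 a * i2 a - i1 a ^ 2 - i2 a ^ 2 + 3 * (i1 a * i2 a)).toNat, ?_⟩
  rw [← Int.cast_natCast, Int.toNat_of_nonneg h']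

theorem sqrt5 (X Y : ℤ) (h : X ^ 2 = 5 * Y ^ 2) : Y = 0 := by
  by_contra hY
  have hirr : Irrational (√(5 : ℝ)) := by
    have := Nat.Prime.irrational_sqrt (by norm_num : Nat.Prime 5)
    exact_mod_cast this
  apply hirr
  refine ⟨|(X : ℚ) / Y|, ?_⟩
  have hY' : (Y : ℝ) ≠ 0 := by exact_mod_cast hY
  have h' : (X : ℝ) ^ 2 = 5 * (Y : ℝ) ^ 2 := by exact_mod_cast h
  have e : (5 : ℝ) = ((X : ℝ) / Y) ^ 2 := by
    rw [div_pow, h']
    field_simp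
  rw [e, Real.sqrt_sq_eq_abs]
  push_cast
  rfl

theorem Nm_eq_zero (x : R5) (h : Nm x = 0) :
    ∃ m : ℤ, x = m * (1 + g5 + g5 ^ 2 + g5 ^ 3 + g5 ^ 4) := by
  obtain ⟨a, rfl⟩ := exists_el x
  rw [Nm_el] at h
  have h' : i0 a ^ 2 - i0 a * i1 a - i0 a * i2 a - i1 a ^ 2 - i2 a ^ 2 + 3 * (i1 a * i2 a) = 0 := by
    exact_mod_cast h
  have h5 : (2 * i0 a - i1 a - i2 a) ^ 2 = 5 * (i1 a - i2 a) ^ 2 := by linear_combination 4 * h'
  have hy := sqrt5 _ _ h5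
  rw [hy] at h5
  have hx : 2 * i0 a - i1 a - i2 a = 0 := by
    have : (2 * i0 a - i1 a - i2 a) ^ 2 = 0 := by rw [h5]; norm_num
    exact pow_eq_zero_iff (two_ne_zero) |>.mp this
  have hs : (a 0 - a 1) ^ 2 + (a 1 - a 2) ^ 2 + (a 2 - a 3) ^ 2 + (a 3 - a 4) ^ 2 + (a 4 - a 0) ^ 2 = 0 := by
    have : 2 * i0 a - 2 * i1 a = 0 := by linarith
    unfold i0 i1 at this
    linarith
  have h01 : a 1 = a 0 := by nlinarith [sq_nonneg (a 0 - a 1), sq_nonneg (a 1 - a 2), sq_nonneg (a 2 - a 3), sq_nonneg (a 3 - a 4), sq_nonneg (a 4 - a 0)]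
  have h12 : a 2 = a 1 := by nlinarith [sq_nonneg (a 0 - a 1), sq_nonneg (a 1 - a 2), sq_nonneg (a 2 - a 3), sq_nonneg (a 3 - a 4), sq_nonneg (a 4 - a 0)]
  have h23 : a 3 = a 2 := by nlinarith [sq_nonneg (a 0 - a 1), sq_nonneg (a 1 - a 2), sq_nonneg (a 2 - a 3), sq_nonneg (a 3 - a 4), sq_nonneg (a 4 - a 0)]
  have h34 : a 4 = a 3 := by nlinarith [sq_nonneg (a 0 - a 1), sq_nonneg (a 1 - a 2), sq_nonneg (a 2 - a 3), sq_nonneg (a 3 - a 4), sq_nonneg (a 4 - a 0)]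
  refine ⟨a 0, ?_⟩
  unfold el
  rw [h34, h23, h12, h01]
  ring

theorem Nm_ne_zero (x : R5) (h : (eps x).natAbs = 1) : Nm x ≠ 0 := by
  intro h0
  obtain ⟨m, rfl⟩ := Nm_eq_zero x h0
  simp only [map_add, map_mul, map_pow, eps_g, map_intCast, one_pow, map_one] at h
  norm_num at h
  omega

theorem division (x y : R5) (hy : Nm y ≠ 0) : ∃ q : R5, Nm (x - q * y) ≤ (275 / 432) ^ 2 * Nm y := by
  have h1 : p1 y ≠ 0 := by
    intro h
    apply hy
    simp [Nm, h]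
  have h2 : p2 y ≠ 0 := by
    intro h
    apply hy
    simp [Nm, h]
  obtain ⟨q, hq⟩ := approx ze hze hze1 (p1 x / p1 y) (p2 x / p2 y)
  refine ⟨el q, ?_⟩
  have e1 : p1 (x - el q * y) = (p1 x / p1 y - ev5 ze (fun i => q i)) * p1 y := by
    rw [map_sub, map_mul, sub_mul, div_mul_cancel₀ _ h1]
    congr 2
    exact psi_el _ _ _
  have e2 : p2 (x - el q * y) = (p2 x / p2 y - ev5 (ze ^ 2) (fun i => q i)) * p2 y := by
    rw [map_sub, map_mul, sub_mul, div_mul_cancel₀ _ h2]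
    congr 2
    exact psi_el _ _ _
  have e : Nm (x - el q * y) = (Complex.normSq (p1 x / p1 y - ev5 ze (fun i => q i)) *
      Complex.normSq (p2 x / p2 y - ev5 (ze ^ 2) (fun i => q i))) * Nm y := by
    unfold Nm
    rw [e1, e2, Complex.normSq_mul, Complex.normSq_mul]
    ring
  rw [e]
  exact mul_le_mul_of_nonneg_right hq (Nm_nonneg y)

theorem Nm_one_sub : Nm (1 - g5) = 5 := by
  have : (1 - g5) = el ![1, -1, 0, 0, 0] := by
    unfold el
    simp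
    ring
  rw [this, Nm_el]
  simp [i0, i1, i2]

end

end Pool.Agent.Y942.WH
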