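import Pool.Agent.Y942.WH.Col

open Matrix

set_option autoImplicit false
set_option maxHeartbeats 400000

namespace Pool.Agent.Y942.WH

noncomputable section

/-- From every unimodular vector one obtains, by adding multiples of the other entries to a given
one, an entry `a` with `R / a` finite. -/
def FQ (R : Type) [CommRing R] : Prop :=
  ∀ (ι : Type) [Fintype ι] [DecidableEq ι] (i0 : ι) (v c : ι → R), ∑ i, c i * v i = 1 →
    ∃ f : ι → R, Finite (R ⧸ Ideal.span {v i0 + ∑ j ∈ Finset.univ.erase i0, f j * v j})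

variable {R : Type} [CommRing R]

theorem red1 (hR : FQ R) {n : ℕ}
    (M : (Matrix (Fin 1 ⊕ Fin (n + 2)) (Fin 1 ⊕ Fin (n + 2)) R)ˣ) :
    ∃ M' : (Matrix (Fin (n + 2)) (Fin (n + 2)) R)ˣ, cl M = cl M' := by
  classical
  let z0 : Fin 1 ⊕ Fin (n + 2) := Sum.inl 0
  let z1 : Fin 1 ⊕ Fin (n + 2) := Sum.inr 0
  let z2 : Fin 1 ⊕ Fin (n + 2) := Sum.inr 1
  have h01 : z1 ≠ z0 := by simp [z0, z1]
  have h02 : z2 ≠ z0 := by simp [z0, z2]
  have h12 : z2 ≠ z1 := by simp [z1, z2]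
  -- step a
  obtain ⟨f, hf⟩ := hR _ z0 (fun i => (M : Matrix _ _ R) i z0) _ (inv_col M z0)
  obtain ⟨E1, hE1, h1⟩ := row_op z0 (Finset.univ.erase z0) (by simp) f
  obtain ⟨W1, hW1⟩ : ∃ W1, W1 = E1 * M := ⟨_, rfl⟩
  obtain ⟨a, ha⟩ : ∃ a, a = (W1 : Matrix _ _ R) z0 z0 := ⟨_, rfl⟩
  have hfin : Finite (R ⧸ Ideal.span {a}) := by
    rw [ha, hW1, (h1 M z0).1]
    exact hf
  have hcl1 : cl W1 = cl M := by rw [hW1, cl_mul, hE1, zero_add]
  -- step b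
  obtain ⟨c, hc⟩ : ∃ c : Fin 1 ⊕ Fin (n + 2) → R, ∑ j, c j * (W1 : Matrix _ _ R) j z0 = 1 :=
    ⟨_, inv_col W1 z0⟩
  let q : R →+* R ⧸ Ideal.span {a} := Ideal.Quotient.mk _
  have hqa : q a = 0 := Ideal.Quotient.eq_zero_iff_mem.mpr (Ideal.mem_span_singleton_self a)
  let s : Finset (Fin 1 ⊕ Fin (n + 2)) := (Finset.univ.erase z0).erase z1
  have hsum : c z0 * a + (c z1 * (W1 : Matrix _ _ R) z1 z0 + ∑ j ∈ s, c j * (W1 : Matrix _ _ R) j z0) = 1 := by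
    rw [← hc, ha, ← Finset.add_sum_erase _ _ (Finset.mem_univ z0),
      ← Finset.add_sum_erase _ _ (Finset.mem_erase.mpr ⟨h01, Finset.mem_univ z1⟩)]
  have hq1 : q (c z1) * q ((W1 : Matrix _ _ R) z1 z0) +
      q (∑ j ∈ s, c j * (W1 : Matrix _ _ R) j z0) = 1 := by
    rw [← map_mul, ← map_add, ← map_one q, ← hsum, map_add q (c z0 * a), map_mul q (c z0), hqa]
    ring
  obtain ⟨t, ht⟩ := stable_one _ _ _ hq1
  obtain ⟨t', rfl⟩ := Ideal.Quotient.mk_surjective t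
  obtain ⟨E2, hE2, h2⟩ := row_op z1 s (by simp [s]) (fun j => t' * c j)
  obtain ⟨W2, hW2⟩ : ∃ W2, W2 = E2 * W1 := ⟨_, rfl⟩
  have hcl2 : cl W2 = cl M := by rw [hW2, cl_mul, hE2, zero_add, hcl1]
  have h2a : (W2 : Matrix _ _ R) z0 z0 = a := by rw [hW2, (h2 W1 z0).2 z0 (Ne.symm h01), ha]
  obtain ⟨x, hx⟩ : ∃ x, x = (W2 : Matrix _ _ R) z1 z0 := ⟨_, rfl⟩
  have hxu : IsUnit (q x) := by
    have e : x = (W1 : Matrix _ _ R) z1 z0 + t' * ∑ j ∈ s, c j * (W1 : Matrix _ _ R) j z0 := by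
      rw [hx, hW2, (h2 W1 z0).1, Finset.mul_sum]
      congr 1
      apply Finset.sum_congr rfl
      intro j _
      ring
    rw [e, map_add, map_mul]
    exact ht
  obtain ⟨p, r, hpr⟩ : ∃ p r, p * a + r * x = 1 := by
    obtain ⟨y, hy⟩ := hxu.exists_right_inv
    obtain ⟨r, rfl⟩ := Ideal.Quotient.mk_surjective y
    have hy' : q (x * r) = q 1 := by rw [map_mul, map_one]; exact hy
    have h := Ideal.Quotient.eq.mp hy'
    rw [Ideal.mem_span_singleton] at h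
    obtain ⟨w, hw⟩ := h
    exact ⟨-w, r, by linear_combination hw⟩
  -- step c
  obtain ⟨v2, hv2⟩ : ∃ v2, v2 = (W2 : Matrix _ _ R) z2 z0 := ⟨_, rfl⟩
  obtain ⟨E3, hE3, h3⟩ := row_op z2 {z0, z1} (by simp [h02, h12])
    (fun j => if j = z0 then (1 - v2) * p else (1 - v2) * r)
  obtain ⟨W3, hW3⟩ : ∃ W3, W3 = E3 * W2 := ⟨_, rfl⟩
  have hcl3 : cl W3 = cl M := by rw [hW3, cl_mul, hE3, zero_add, hcl2]
  have h3a : (W3 : Matrix _ _ R) z0 z0 = a := by rw [hW3, (h3 W2 z0).2 z0 (Ne.symm h02), h2a]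
  have h3c : (W3 : Matrix _ _ R) z2 z0 = 1 := by
    rw [hW3, (h3 W2 z0).1, Finset.sum_pair (Ne.symm h01), if_pos rfl, if_neg h01, h2a, ← hx, ← hv2]
    linear_combination (1 - v2) * hpr
  -- step d
  obtain ⟨E4, hE4, h4⟩ := row_op z0 {z2} (by simp [Ne.symm h02]) (fun _ => 1 - a)
  obtain ⟨W4, hW4⟩ : ∃ W4, W4 = E4 * W3 := ⟨_, rfl⟩
  have hcl4 : cl W4 = cl M := by rw [hW4, cl_mul, hE4, zero_add, hcl3]
  have h4a : (W4 : Matrix _ _ R) z0 z0 = 1 := by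
    rw [hW4, (h4 W3 z0).1, Finset.sum_singleton, h3a, h3c]
    ring
  -- step e
  obtain ⟨E5, hE5, h5⟩ := col_op z0 (Finset.univ.erase z0) (by simp)
    (fun i => - (W4 : Matrix _ _ R) i z0)
  obtain ⟨V, hV⟩ : ∃ V, V = E5 * W4 := ⟨_, rfl⟩
  have hcl5 : cl V = cl M := by rw [hV, cl_mul, hE5, zero_add, hcl4]
  have h5a : (V : Matrix _ _ R) z0 z0 = 1 := by
    rw [hV, (h5 W4 z0).2 z0 (by simp), h4a]
  have h5b : ∀ i, i ≠ z0 → (V : Matrix _ _ R) i z0 = 0 := by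
    intro i hi
    rw [hV, (h5 W4 z0).1 i (by simp [hi]), h4a]
    ring
  have hV21 : V.val.toBlocks₂₁ = 0 := by
    refine Matrix.ext fun i j => ?_
    have hj : j = 0 := Subsingleton.elim _ _
    subst hj
    exact h5b (Sum.inr i) (by simp [z0])
  have hVb : V.val = Matrix.fromBlocks V.val.toBlocks₁₁
      V.val.toBlocks₁₂ 0 V.val.toBlocks₂₂ := by
    rw [← hV21, Matrix.fromBlocks_toBlocks]
  have hu : IsUnit (Matrix.fromBlocks V.val.toBlocks₁₁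
      V.val.toBlocks₁₂ 0 V.val.toBlocks₂₂) := by
    rw [← hVb]
    exact V.isUnit
  obtain ⟨⟨A, hA⟩, ⟨D, hD⟩⟩ := Matrix.isUnit_fromBlocks_zero₂₁.mp hu
  have hA1 : A = 1 := by
    apply Units.ext
    rw [hA]
    refine Matrix.ext fun i j => ?_
    have hi : i = 0 := Subsingleton.elim _ _
    have hj : j = 0 := Subsingleton.elim _ _
    subst hi hj
    rw [Units.val_one, Matrix.one_apply_eq]
    exact h5a
  rw [← hA, ← hD] at hVb
  refine ⟨D, ?_⟩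
  rw [← hcl5, cl_tri A D _ V hVb, hA1, cl_one, zero_add]

theorem to2 (hR : FQ R) (n : ℕ) (M : (Matrix (Fin (n + 2)) (Fin (n + 2)) R)ˣ) :
    ∃ M' : (Matrix (Fin 2) (Fin 2) R)ˣ, cl M = cl M' := by
  induction n with
  | zero => exact ⟨M, rfl⟩
  | succ n ih =>
    let e : Fin (n + 1 + 2) ≃ Fin 1 ⊕ Fin (n + 2) :=
      (finCongr (by ring : n + 1 + 2 = 1 + (n + 2))).trans finSumFinEquiv.symm
    obtain ⟨M', h⟩ := red1 hR (rx e M)
    obtain ⟨M'', h'⟩ := ih M'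
    exact ⟨M'', by rw [← h', ← h, cl_rx]⟩

theorem det_of_cl {n m : ℕ} (M : (Matrix (Fin n) (Fin n) R)ˣ) (N : (Matrix (Fin m) (Fin m) R)ˣ)
    (h : cl M = cl N) : (M : Matrix (Fin n) (Fin n) R).det = (N : Matrix (Fin m) (Fin m) R).det := by
  rw [cl_fin, cl_fin] at h
  have h1 := congrArg (detK1 (RingHom.id R)) h
  rw [detK1_mk, detK1_mk] at h1
  have h2 := congrArg Units.val (Additive.ofMul.injective h1)
  rw [detN_val, detN_val] at h2
  simpa using h2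

/-- The class of a matrix of determinant one has finite order. -/
theorem SK_torsion (hR : FQ R) (n : ℕ) (M : (Matrix (Fin n) (Fin n) R)ˣ)
    (hdet : (M : Matrix (Fin n) (Fin n) R).det = 1) : ∃ k : ℕ, 0 < k ∧ k • cl M = 0 := by
  obtain ⟨N, hN⟩ := to2 hR n (rx finSumFinEquiv (blk M (1 : (Matrix (Fin 2) (Fin 2) R)ˣ)))
  rw [cl_rx, cl_blk_one_right] at hN
  have hd := det_of_cl M N hN
  rw [hdet, Matrix.det_fin_two] at hd
  obtain ⟨a, ha⟩ : ∃ a, a = (N : Matrix (Fin 2) (Fin 2) R) 0 0 := ⟨_, rfl⟩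
  obtain ⟨b, hb⟩ : ∃ b, b = (N : Matrix (Fin 2) (Fin 2) R) 0 1 := ⟨_, rfl⟩
  obtain ⟨c, hc⟩ : ∃ c, c = (N : Matrix (Fin 2) (Fin 2) R) 1 0 := ⟨_, rfl⟩
  obtain ⟨d, hd'⟩ : ∃ d, d = (N : Matrix (Fin 2) (Fin 2) R) 1 1 := ⟨_, rfl⟩
  rw [← ha, ← hb, ← hc, ← hd'] at hd
  obtain ⟨f, hf⟩ := hR (Fin 2) 0 ![a, b] ![d, -c] (by
    rw [Fin.sum_univ_two]
    simp
    linear_combination -hd)
  have he : (Finset.univ.erase (0 : Fin 2)) = {1} := by decide
  rw [he, Finset.sum_singleton] at hf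
  simp only [Matrix.cons_val_zero, Matrix.cons_val_one] at hf
  have h' : (a + f 1 * b) * d - b * (c + f 1 * d) = 1 := by linear_combination -hd
  have hN' : N * tv (1 : Fin 2) 0 (by decide) (f 1) = sl (a + f 1 * b) b (c + f 1 * d) d h' := by
    apply Units.ext
    rw [Units.val_mul, tvv10, Matrix.eta_fin_two (N : Matrix (Fin 2) (Fin 2) R), ← ha, ← hb, ← hc,
      ← hd', Matrix.mul_fin_two]
    change _ = !![a + f 1 * b, b; c + f 1 * d, d]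
    refine Matrix.ext fun i j => ?_
    fin_cases i <;> fin_cases j <;> simp
    · ring
    · ring
  have hcl : cl (sl (a + f 1 * b) b (c + f 1 * d) d h') = cl M := by
    rw [← hN', cl_mul, cl_tv, add_zero, hN]
  obtain ⟨k, hk, hk'⟩ := sl_torsion (a + f 1 * b) b (c + f 1 * d) d h' hf
  exact ⟨k, hk, by rw [← hcl]; exact hk'⟩

end

end Pool.Agent.Y942.WH
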