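import Pool.Agent.Y942.WH.Wreath

open Matrix

set_option autoImplicit false
set_option maxHeartbeats 400000

namespace Pool.Agent.Y942.WH

noncomputable section

section Van

variable {R : Type} [Ring R] {ι : Type} [Fintype ι] [DecidableEq ι]

theorem cl_lower (A : (Matrix ι ι R)ˣ) (W : Matrix ι ι R)
    (N : (Matrix (ι ⊕ ι) (ι ⊕ ι) R)ˣ)
    (hN : (N : Matrix (ι ⊕ ι) (ι ⊕ ι) R) = Matrix.fromBlocks A 0 W 1) : cl N = cl A := by
  have h : N = dn (W * ((A⁻¹ : (Matrix ι ι R)ˣ) : Matrix ι ι R)) * blk A 1 := by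
    apply Units.ext
    rw [hN]
    change _ = Matrix.fromBlocks 1 0 _ 1 * Matrix.fromBlocks (A : Matrix ι ι R) 0 0 (1 : Matrix ι ι R)
    simp only [Matrix.fromBlocks_multiply, Matrix.one_mul, Matrix.mul_one, Matrix.zero_mul,
      Matrix.mul_zero, add_zero, zero_add, Matrix.mul_assoc, Units.inv_mul]
  have hd : ∀ Z : Matrix ι ι R, cl (dn Z) = 0 := by
    intro Z
    have h : dn Z = rx (Equiv.sumComm ι ι) (up Z) := by
      apply Units.ext
      rw [rx_val]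
      ext (i | i) (j | j) <;> simp [dn, up, Matrix.one_apply]
    rw [h, cl_rx, cl_up]
  rw [h, cl_mul, hd, cl_blk_one_right, zero_add]

/-- `1 + PW` and `1 + WP` have the same class. -/
theorem vaserstein (P W : Matrix ι ι R) (U V : (Matrix ι ι R)ˣ)
    (hU : (U : Matrix ι ι R) = 1 + P * W) (hV : (V : Matrix ι ι R) = 1 + W * P) : cl U = cl V := by
  -- the lower triangular matrix with diagonal `U, 1`
  let L : (Matrix (ι ⊕ ι) (ι ⊕ ι) R)ˣ := dn (W * ((U⁻¹ : (Matrix ι ι R)ˣ) : Matrix ι ι R)) * blk U 1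
  have hL : (L : Matrix (ι ⊕ ι) (ι ⊕ ι) R) = Matrix.fromBlocks U 0 W 1 := by
    change Matrix.fromBlocks 1 0 _ 1 * Matrix.fromBlocks (U : Matrix ι ι R) 0 0 (1 : Matrix ι ι R) = _
    simp only [Matrix.fromBlocks_multiply, Matrix.one_mul, Matrix.mul_one, Matrix.zero_mul,
      Matrix.mul_zero, add_zero, zero_add, Matrix.mul_assoc, Units.inv_mul]
  let T : (Matrix (ι ⊕ ι) (ι ⊕ ι) R)ˣ := up (-P) * L
  have hT : (T : Matrix (ι ⊕ ι) (ι ⊕ ι) R) = Matrix.fromBlocks 1 (-P) W 1 := by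
    change Matrix.fromBlocks 1 (-P) 0 1 * (L : Matrix (ι ⊕ ι) (ι ⊕ ι) R) = _
    rw [hL, hU]
    simp only [Matrix.fromBlocks_multiply, Matrix.one_mul, Matrix.mul_one, Matrix.zero_mul,
      Matrix.mul_zero, add_zero, zero_add, Matrix.neg_mul]
    congr 1
    abel
  let V' : (Matrix (ι ⊕ ι) (ι ⊕ ι) R)ˣ := dn (-W) * T
  have hV' : (V' : Matrix (ι ⊕ ι) (ι ⊕ ι) R) = Matrix.fromBlocks ((1 : (Matrix ι ι R)ˣ) : Matrix ι ι R) (-P) 0 V := by
    change Matrix.fromBlocks 1 0 (-W) 1 * (T : Matrix (ι ⊕ ι) (ι ⊕ ι) R) = _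
    rw [hT, hV]
    simp only [Matrix.fromBlocks_multiply, Matrix.one_mul, Matrix.mul_one, Matrix.zero_mul,
      Matrix.mul_zero, add_zero, zero_add, Matrix.neg_mul, Matrix.mul_neg, neg_neg, Units.val_one]
    congr 1
    · abel
    · abel
  have h1 : cl L = cl U := cl_lower U W L hL
  have h2 : cl V' = cl V := by rw [cl_tri 1 V (-P) V' hV', cl_one, zero_add]
  have hd : ∀ Z : Matrix ι ι R, cl (dn Z) = 0 := by
    intro Z
    have h : dn Z = rx (Equiv.sumComm ι ι) (up Z) := by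
      apply Units.ext
      rw [rx_val]
      ext (i | i) (j | j) <;> simp [dn, up, Matrix.one_apply]
    rw [h, cl_rx, cl_up]
  have h3 : cl V' = cl L := by
    change cl (dn (-W) * (up (-P) * L)) = cl L
    rw [cl_mul, cl_mul, hd, cl_up, zero_add, zero_add]
  rw [← h1, ← h3, h2]

end Van

section Tors

variable {π : Type} [Group π] [Finite π] {ι : Type} [Fintype ι] [DecidableEq ι]

/-- reduction of the coefficients -/
def redm (d : ℕ) : MonoidAlgebra ℤ π →+* MonoidAlgebra (ZMod d) π :=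
  MonoidAlgebra.mapRingHom π (Int.castRingHom (ZMod d))

theorem redm_coeff (d : ℕ) (x : MonoidAlgebra ℤ π) (g : π) :
    (redm d x).coeff g = ((x.coeff g : ℤ) : ZMod d) := by
  unfold redm
  rw [MonoidAlgebra.coeff_mapRingHom]
  rfl

theorem exists_div (d : ℕ) (x : MonoidAlgebra ℤ π) (h : redm d x = 0) :
    ∃ y : MonoidAlgebra ℤ π, x = (d : ℤ) • y := by
  classical
  have : Fintype π := Fintype.ofFinite π
  have hd : ∀ g, (d : ℤ) ∣ x.coeff g := by
    intro g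
    rw [← ZMod.intCast_zmod_eq_zero_iff_dvd, ← redm_coeff, h]
    rfl
  refine ⟨MonoidAlgebra.ofCoeff (Finsupp.equivFunOnFinite.symm fun g => x.coeff g / d), ?_⟩
  apply MonoidAlgebra.ext
  ext g
  rw [MonoidAlgebra.coeff_smul]
  change x.coeff g = (d : ℤ) * (x.coeff g / d)
  exact (Int.mul_ediv_cancel' (hd g)).symm

theorem exists_pow_congr (d : ℕ) (hd : d ≠ 0) (U : (Matrix ι ι (MonoidAlgebra ℤ π))ˣ) :
    ∃ k : ℕ, 0 < k ∧ ∃ Y : Matrix ι ι (MonoidAlgebra ℤ π),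
      ((U ^ k : (Matrix ι ι (MonoidAlgebra ℤ π))ˣ) : Matrix ι ι (MonoidAlgebra ℤ π)) =
        1 + (d : ℤ) • Y := by
  classical
  have : Fintype π := Fintype.ofFinite π
  have : NeZero d := ⟨hd⟩
  have hf : Finite (MonoidAlgebra (ZMod d) π) :=
    Finite.of_injective (fun x : MonoidAlgebra (ZMod d) π => (fun g : π => x.coeff g))
      (fun x y h => MonoidAlgebra.ext (Finsupp.ext fun g => congrFun h g))
  have hf2 : Finite (Matrix ι ι (MonoidAlgebra (ZMod d) π)) := by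
    unfold Matrix
    infer_instance
  let F : (Matrix ι ι (MonoidAlgebra ℤ π))ˣ →* (Matrix ι ι (MonoidAlgebra (ZMod d) π))ˣ :=
    Units.map (redm (π := π) d).mapMatrix.toMonoidHom
  obtain ⟨k, hk0, hk⟩ := (isOfFinOrder_of_finite (F U)).exists_pow_eq_one
  refine ⟨k, hk0, ?_⟩
  have h1 : ∀ i j, redm d ((((U ^ k : (Matrix ι ι (MonoidAlgebra ℤ π))ˣ) :
      Matrix ι ι (MonoidAlgebra ℤ π)) - 1) i j) = 0 := by
    intro i j
    have h2 : F (U ^ k) = 1 := by rw [map_pow, hk]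
    have h3 : (redm (π := π) d).mapMatrix ((U ^ k : (Matrix ι ι (MonoidAlgebra ℤ π))ˣ) :
      Matrix ι ι (MonoidAlgebra ℤ π)) = 1 := congrArg Units.val h2
    have h4 : (redm (π := π) d).mapMatrix (((U ^ k : (Matrix ι ι (MonoidAlgebra ℤ π))ˣ) :
      Matrix ι ι (MonoidAlgebra ℤ π)) - 1) = 0 := by rw [map_sub, h3, map_one, sub_self]
    exact congrFun (congrFun h4 i) j
  choose Y hY using fun i j => exists_div d _ (h1 i j)
  refine ⟨Matrix.of Y, ?_⟩
  rw [← sub_eq_iff_eq_add']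
  refine Matrix.ext fun i j => ?_
  rw [hY i j]
  rfl

/-- Two invertible matrices intertwined by a matrix dividing a non-zero integer have the same class up to
torsion. -/
theorem tors_of_intertwine (P Q : Matrix ι ι (MonoidAlgebra ℤ π)) (d : ℕ) (hd : d ≠ 0)
    (hPQ : P * Q = (d : ℤ) • (1 : Matrix ι ι (MonoidAlgebra ℤ π)))
    (hinj : ∀ A B : Matrix ι ι (MonoidAlgebra ℤ π), P * A = P * B → A = B)
    (U V : (Matrix ι ι (MonoidAlgebra ℤ π))ˣ)
    (hUV : P * (U : Matrix ι ι (MonoidAlgebra ℤ π)) = (V : Matrix ι ι (MonoidAlgebra ℤ π)) * P) :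
    ∃ k : ℕ, 0 < k ∧ k • cl U = k • cl V := by
  obtain ⟨k, hk0, Y, hY⟩ := exists_pow_congr d hd V
  refine ⟨k, hk0, ?_⟩
  have hV : ((V ^ k : (Matrix ι ι (MonoidAlgebra ℤ π))ˣ) : Matrix ι ι (MonoidAlgebra ℤ π)) =
      1 + P * (Q * Y) := by
    rw [hY, ← Matrix.mul_assoc, hPQ, Matrix.smul_mul, Matrix.one_mul]
  have hpow : ∀ m : ℕ, P * ((U ^ m : (Matrix ι ι (MonoidAlgebra ℤ π))ˣ) : Matrix ι ι (MonoidAlgebra ℤ π)) =
      ((V ^ m : (Matrix ι ι (MonoidAlgebra ℤ π))ˣ) : Matrix ι ι (MonoidAlgebra ℤ π)) * P := by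
    intro m
    induction m with
    | zero => simp
    | succ m ih => rw [pow_succ, pow_succ, Units.val_mul, Units.val_mul, ← Matrix.mul_assoc, ih,
        Matrix.mul_assoc, hUV, Matrix.mul_assoc]
  have hU : ((U ^ k : (Matrix ι ι (MonoidAlgebra ℤ π))ˣ) : Matrix ι ι (MonoidAlgebra ℤ π)) =
      1 + (Q * Y) * P := by
    apply hinj
    rw [hpow, hV, Matrix.add_mul, Matrix.mul_add, Matrix.one_mul, Matrix.mul_one]
    simp only [Matrix.mul_assoc]
  have h := vaserstein P (Q * Y) (V ^ k) (U ^ k) hV hU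
  have hk : ∀ W : (Matrix ι ι (MonoidAlgebra ℤ π))ˣ, ∀ m : ℕ, cl (W ^ m) = m • cl W := by
    intro W m
    induction m with
    | zero => rw [pow_zero, cl_one, zero_nsmul]
    | succ m ih => rw [pow_succ, cl_mul, ih, succ_nsmul]
  rw [hk, hk] at h
  exact h.symm

end Tors

end

end Pool.Agent.Y942.WH
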