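import Pool.Agent.Y942.WH.Ring5

set_option autoImplicit false

namespace Pool.Agent.Y942.WH

noncomputable section

/-- the unit `1 + g - g³` -/
def U0 : R5ˣ := ⟨1 + g5 - g5 ^ 3, g5 - g5 ^ 2 + g5 ^ 3, unit_mul _ g5_pow, unit_mul' _ g5_pow⟩

theorem Nm_unit (u : R5ˣ) : Nm u = 1 := by
  obtain ⟨n, hn⟩ := Nm_nat (u : R5)
  obtain ⟨m, hm⟩ := Nm_nat ((u⁻¹ : R5ˣ) : R5)
  have h : Nm u * Nm ((u⁻¹ : R5ˣ) : R5) = 1 := by rw [← Nm_mul, Units.mul_inv, Nm_one]
  rw [hn, hm] at h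
  have h' : n * m = 1 := by exact_mod_cast h
  rw [hn, Nat.eq_one_of_mul_eq_one_right h']
  norm_num

theorem eps_unit (u : R5ˣ) : (eps u).natAbs = 1 := Int.isUnit_iff_natAbs_eq.mp (u.isUnit.map eps)

theorem u0_ev (z : ℂ) : ev5 z ![1, 1, 0, -1, 0] = 1 + z - z ^ 3 := by
  simp [ev5]
  ring

theorem u0_sum (z : ℂ) (hz : z ^ 5 = 1) (hz1 : z ≠ 1) :
    Complex.normSq (1 + z - z ^ 3) + Complex.normSq (1 + z ^ 2 - (z ^ 2) ^ 3) = 7 := by
  rw [← u0_ev, ← u0_ev, normSq_ev5 z hz, normSq_ev5' z hz]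
  have h := eta_sum z hz hz1
  simp [c0, c1, c2]
  linarith

theorem u0_prod (z : ℂ) (hz : z ^ 5 = 1) (hz1 : z ≠ 1) :
    Complex.normSq (1 + z - z ^ 3) * Complex.normSq (1 + z ^ 2 - (z ^ 2) ^ 3) = 1 := by
  rw [← u0_ev, ← u0_ev, nm_formula z hz hz1]
  simp [c0, c1, c2]
  norm_num

theorem u0_ne_one (z : ℂ) (hz : z ^ 5 = 1) (hz1 : z ≠ 1) : Complex.normSq (1 + z - z ^ 3) ≠ 1 := by
  intro h
  have h1 := u0_sum z hz hz1
  have h2 := u0_prod z hz hz1
  rw [h] at h1 h2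
  linarith

theorem u0_pos (z : ℂ) (hz : z ^ 5 = 1) (hz1 : z ≠ 1) : 0 < Complex.normSq (1 + z - z ^ 3) := by
  have h2 := u0_prod z hz hz1
  have h3 := Complex.normSq_nonneg (1 + z - z ^ 3)
  rcases h3.lt_or_eq with h | h
  · exact h
  · rw [← h] at h2
    norm_num at h2

theorem u0_log_ne (z : ℂ) (hz : z ^ 5 = 1) (hz1 : z ≠ 1) :
    Real.log (Complex.normSq (1 + z - z ^ 3)) ≠ 0 :=
  Real.log_ne_zero_of_pos_of_ne_one (u0_pos z hz hz1) (u0_ne_one z hz hz1)

theorem single5 (a : Fin 5 → ℤ) (h : ∑ i, a i ^ 2 ≤ 1) (h0 : ∑ i, a i ≠ 0) :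
    ∃ k, ∀ j, j ≠ k → a j = 0 := by
  obtain ⟨k, -, hk⟩ := Finset.exists_ne_zero_of_sum_ne_zero h0
  refine ⟨k, fun j hj => ?_⟩
  by_contra hj0
  have h1 : 0 < a k ^ 2 := by positivity
  have h2 : 0 < a j ^ 2 := by positivity
  have h3 : a j ^ 2 + a k ^ 2 ≤ ∑ i, a i ^ 2 := by
    rw [← Finset.sum_pair (f := fun i => a i ^ 2) hj]
    exact Finset.sum_le_sum_of_subset_of_nonneg (Finset.subset_univ _) (fun i _ _ => sq_nonneg _)
  linarith

theorem small_unit (v : R5ˣ) (h : Complex.normSq (p1 v) + Complex.normSq (p2 v) < 9 / 2) :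
    ∃ j : ℕ, (v : R5) = g5 ^ j ∨ (v : R5) = - g5 ^ j := by
  obtain ⟨a, ha⟩ := exists_el (v : R5)
  have hp := parseval ze hze hze1 (fun i => (a i : ℝ))
  have e1 : Complex.normSq (ev5 ze (fun i => (a i : ℝ))) = Complex.normSq (p1 v) := by
    rw [ha]
    exact congrArg _ (psi_el _ hze _).symm
  have e2 : Complex.normSq (ev5 (ze ^ 2) (fun i => (a i : ℝ))) = Complex.normSq (p2 v) := by
    rw [ha]
    exact congrArg _ (psi_el _ (sq_root ze hze) _).symm
  rw [e1, e2] at hp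
  have he := eps_unit v
  rw [ha, eps_el] at he
  have hsq : (a 0 + a 1 + a 2 + a 3 + a 4) ^ 2 = 1 := by
    rcases Int.natAbs_eq_iff.mp he with h | h <;> rw [h] <;> norm_num
  have hsq' : ((a 0 : ℝ) + a 1 + a 2 + a 3 + a 4) ^ 2 = 1 := by exact_mod_cast hsq
  have hlt : c0 (fun i => (a i : ℝ)) < 2 := by
    rw [hsq'] at hp
    linarith
  have hi : ∑ i, a i ^ 2 ≤ 1 := by
    have : ∑ i, a i ^ 2 < 2 := by
      rw [Fin.sum_univ_five]
      have hlt' : (a 0 : ℝ) ^ 2 + (a 1 : ℝ) ^ 2 + (a 2 : ℝ) ^ 2 + (a 3 : ℝ) ^ 2 + (a 4 : ℝ) ^ 2 < 2 := hlt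
      exact_mod_cast hlt'
    omega
  have hne : ∑ i, a i ≠ 0 := by
    rw [Fin.sum_univ_five]
    intro h
    rw [h] at hsq
    norm_num at hsq
  obtain ⟨k, hk⟩ := single5 a hi hne
  have hs : a = Pi.single k (a k) := by
    funext j
    by_cases hj : j = k
    · subst hj
      simp
    · rw [hk j hj, Pi.single_eq_of_ne hj]
  have hk1 : a k = a 0 + a 1 + a 2 + a 3 + a 4 := by
    rw [← Fin.sum_univ_five]
    exact (Finset.sum_eq_single k (fun j _ hj => hk j hj) (fun h => absurd (Finset.mem_univ k) h)).symm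
  rw [← hk1] at he
  refine ⟨k, ?_⟩
  rw [ha, hs, el_single]
  rcases Int.natAbs_eq_iff.mp he with h | h
  · left
    rw [h]
    simp
  · right
    rw [h]
    simp

/-- `log |u|²` -/
def logU : Additive ℂˣ →+ ℝ where
  toFun u := Real.log (Complex.normSq (u.toMul : ℂ))
  map_zero' := by simp
  map_add' u v := by
    rw [toMul_add, Units.val_mul, Complex.normSq_mul, Real.log_mul]
    · exact (Complex.normSq_pos.mpr (Units.ne_zero _)).ne'
    · exact (Complex.normSq_pos.mpr (Units.ne_zero _)).ne'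

theorem logU_apply (u : Additive ℂˣ) : logU u = Real.log (Complex.normSq (u.toMul : ℂ)) := rfl

def LL : Additive R5ˣ →+ ℝ := logU.comp (MonoidHom.toAdditive (Units.map p1.toMonoidHom))

theorem LL_apply (u : R5ˣ) : LL (Additive.ofMul u) = Real.log (Complex.normSq (p1 u)) := rfl

theorem p1_U0 : p1 (U0 : R5) = 1 + ze - ze ^ 3 := by
  change p1 (1 + g5 - g5 ^ 3) = _
  rw [map_sub, map_add, map_pow, map_one]
  rw [show p1 g5 = ze from psi_g ze hze]

theorem unit_form (u : R5ˣ) : ∃ (k : ℤ) (v : R5ˣ), u = U0 ^ k * v ∧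
    ∃ j : ℕ, (v : R5) = g5 ^ j ∨ (v : R5) = - g5 ^ j := by
  set l0 := LL (Additive.ofMul U0) with hl0
  have hl0' : l0 = Real.log (Complex.normSq (1 + ze - ze ^ 3)) := by rw [hl0, LL_apply, p1_U0]
  have hne : l0 ≠ 0 := by rw [hl0']; exact u0_log_ne ze hze hze1
  set k := round (LL (Additive.ofMul u) / l0) with hk
  refine ⟨k, U0 ^ (-k) * u, by rw [← mul_assoc, ← zpow_add]; simp, ?_⟩
  apply small_unit
  set v := U0 ^ (-k) * u with hv
  have hlv : LL (Additive.ofMul v) = LL (Additive.ofMul u) - k * l0 := by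
    rw [hv, ofMul_mul, map_add, ofMul_zpow, map_zsmul, ← hl0]
    simp
    ring
  have hb : |LL (Additive.ofMul v)| ≤ |l0| / 2 := by
    rw [hlv]
    have h := abs_sub_round (LL (Additive.ofMul u) / l0)
    rw [← hk] at h
    have e : LL (Additive.ofMul u) - k * l0 = (LL (Additive.ofMul u) / l0 - k) * l0 := by
      field_simp
    rw [e, abs_mul]
    nlinarith [abs_nonneg l0]
  have hs := u0_sum ze hze hze1
  have hp := u0_prod ze hze hze1
  set A0 := Complex.normSq (1 + ze - ze ^ 3) with hA0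
  set B0 := Complex.normSq (1 + ze ^ 2 - (ze ^ 2) ^ 3) with hB0
  have hA0p : 0 < A0 := u0_pos ze hze hze1
  have hB0p : 0 ≤ B0 := Complex.normSq_nonneg _
  have hB0e : B0 = A0⁻¹ := by
    field_simp
    linarith
  have hB0pos : 0 < B0 := by rw [hB0e]; positivity
  have hl7 : |l0| ≤ Real.log 7 := by
    rw [hl0', abs_le]
    constructor
    · have : Real.log B0 ≤ Real.log 7 := Real.log_le_log hB0pos (by linarith)
      rw [hB0e, Real.log_inv] at this
      linarith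
    · exact Real.log_le_log hA0p (by linarith)
  have hN := Nm_unit v
  unfold Nm at hN
  set A := Complex.normSq (p1 v) with hA
  set B := Complex.normSq (p2 v) with hB
  have hA' : 0 ≤ A := Complex.normSq_nonneg _
  have hB' : 0 ≤ B := Complex.normSq_nonneg _
  have hApos : 0 < A := by
    rcases hA'.lt_or_eq with h | h
    · exact h
    · rw [← h] at hN
      norm_num at hN
  have hBpos : 0 < B := by
    rcases hB'.lt_or_eq with h | h
    · exact h
    · rw [← h] at hN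
      norm_num at hN
  have hlA : LL (Additive.ofMul v) = Real.log A := LL_apply v
  rw [hlA] at hb
  have hlB : Real.log B = - Real.log A := by
    have : B = A⁻¹ := by
      field_simp
      linarith
    rw [this, Real.log_inv]
  obtain ⟨hb1, hb2⟩ := abs_le.mp hb
  have hA2 : A ^ 2 ≤ 7 := by
    rw [← Real.log_le_log_iff (by positivity) (by norm_num), Real.log_pow]
    push_cast
    linarith
  have hB2 : B ^ 2 ≤ 7 := by
    rw [← Real.log_le_log_iff (by positivity) (by norm_num), Real.log_pow]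
    push_cast
    linarith
  have hA3 : A ≤ 27 / 10 := by nlinarith
  have hB3 : B ≤ 27 / 10 := by nlinarith
  by_cases h1 : A ≤ 1
  · linarith
  · have : B ≤ 1 := by nlinarith
    linarith

end

end Pool.Agent.Y942.WH
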