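import Pool.Agent.Y942.WH.Abel

open Matrix

set_option autoImplicit false
set_option maxHeartbeats 400000

namespace Pool.Agent.Y942.WH

noncomputable section

theorem der_extA {π A : Type} [Group π] [Ring A] {n : ℕ} (ψ : Pi1One π n →* A)
    (E E' : Pi1One π n → A)
    (hm : ∀ u v, E (u * v) = E u + ψ u * E v)
    (hm' : ∀ u v, E' (u * v) = E' u + ψ u * E' v)
    (hb : ∀ g, E (Monoid.Coprod.inl g) = E' (Monoid.Coprod.inl g))
    (hg : ∀ i, E (Monoid.Coprod.inr (FreeGroup.of i)) = E' (Monoid.Coprod.inr (FreeGroup.of i)))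
    (u : Pi1One π n) : E u = E' u := by
  have one : ∀ F : Pi1One π n → A, (∀ u v, F (u * v) = F u + ψ u * F v) → F 1 = 0 := by
    intro F hF
    have h := hF 1 1
    rw [map_one, one_mul, one_mul] at h
    exact left_eq_add.mp h
  have inv : ∀ F : Pi1One π n → A, (∀ u v, F (u * v) = F u + ψ u * F v) →
      ∀ u, F u⁻¹ = - (ψ u⁻¹ * F u) := by
    intro F hF u
    have h := hF u⁻¹ u
    rw [inv_mul_cancel, one F hF] at h
    exact eq_neg_of_add_eq_zero_left h.symm
  induction u using Monoid.Coprod.induction_on with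
  | inl g => exact hb g
  | inr w =>
    induction w using FreeGroup.induction_on with
    | C1 => rw [map_one, one E hm, one E' hm']
    | of i => exact hg i
    | inv_of i hi =>
      rw [map_inv, inv E hm, inv E' hm']
      rw [hi]
    | mul x y hx hy => rw [map_mul, hm, hm', hx, hy]
  | mul x y hx hy => rw [hm, hm', hx, hy]

/-- the permutation action on functions -/
def wrAct (G X : Type) [Group G] : Equiv.Perm X →* MulAut (X → G) where
  toFun p :=
    { toFun := fun f ξ => f (p⁻¹ ξ)
      invFun := fun f ξ => f (p ξ)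
      left_inv := fun f => by funext ξ; simp
      right_inv := fun f => by funext ξ; simp
      map_mul' := fun f g => rfl }
  map_one' := by ext f ξ; simp
  map_mul' p q := by
    ext f ξ
    simp

/-- the wreath product -/
abbrev Wr (G X : Type) [Group G] : Type := (X → G) ⋊[wrAct G X] Equiv.Perm X

theorem Wr_mul_left {G X : Type} [Group G] (a b : Wr G X) (ξ : X) :
    (a * b).left ξ = a.left ξ * b.left (a.right⁻¹ ξ) := rfl

/-- change of the group in a wreath product -/
def wrMap {G G' : Type} [Group G] [Group G'] (X : Type) (φ : G →* G') : Wr G X →* Wr G' X :=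
  MonoidHom.mk' (fun a => ⟨fun ξ => φ (a.left ξ), a.right⟩) (by
    intro a b
    apply SemidirectProduct.ext
    · funext ξ
      rw [Wr_mul_left]
      simp only [Wr_mul_left, map_mul]
    · rfl)

theorem wrMap_left {G G' X : Type} [Group G] [Group G'] (φ : G →* G') (a : Wr G X) (ξ : X) :
    (wrMap X φ a).left ξ = φ (a.left ξ) := rfl

theorem wrMap_right {G G' X : Type} [Group G] [Group G'] (φ : G →* G') (a : Wr G X) :
    (wrMap X φ a).right = a.right := rfl

section Wreath

variable {π H X : Type} [Group π] [Group H] [Fintype X] [DecidableEq X] (Θ : π →* Wr H X)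

/-- the monomial matrices -/
def mon : π →* Matrix X X (MonoidAlgebra ℤ H) where
  toFun g := Matrix.of fun ξ η => if η = (Θ g).right⁻¹ ξ then MonoidAlgebra.of ℤ H ((Θ g).left ξ) else 0
  map_one' := by
    refine Matrix.ext fun ξ η => ?_
    rw [Matrix.of_apply, map_one, Matrix.one_apply]
    by_cases h : ξ = η
    · subst h
      simp [MonoidAlgebra.one_def]
    · rw [if_neg h, if_neg]
      intro h2
      apply h
      simpa using h2.symm
  map_mul' g h := by
    refine Matrix.ext fun ξ η => ?_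
    rw [Matrix.mul_apply]
    simp only [Matrix.of_apply, ite_mul, zero_mul]
    rw [Finset.sum_ite_eq' Finset.univ, if_pos (Finset.mem_univ _)]
    rw [map_mul Θ, Wr_mul_left, map_mul]
    have e : ((Θ g * Θ h).right)⁻¹ ξ = (Θ h).right⁻¹ ((Θ g).right⁻¹ ξ) := by
      rw [SemidirectProduct.mul_right, _root_.mul_inv_rev]
      rfl
    rw [e, mul_ite, mul_zero]

/-- the ring homomorphism `ℤ[π] → M_X(ℤ[H])` -/
def Phi : MonoidAlgebra ℤ π →+* Matrix X X (MonoidAlgebra ℤ H) :=
  (MonoidAlgebra.lift ℤ (Matrix X X (MonoidAlgebra ℤ H)) π (mon Θ)).toRingHom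

theorem Phi_of (g : π) : Phi Θ (MonoidAlgebra.of ℤ π g) = mon Θ g := by
  simp [Phi]

end Wreath

/-- matrices over matrices -/
def opM {R S : Type} [Ring R] [Ring S] {X ι : Type} [Fintype X] [DecidableEq X] [Fintype ι]
    [DecidableEq ι] (Φ : R →+* Matrix X X S) : (Matrix ι ι R)ˣ →* (Matrix (ι × X) (ι × X) S)ˣ :=
  Units.map (((Matrix.compRingEquiv ι X S).toRingHom.comp Φ.mapMatrix).toMonoidHom)

theorem opM_val {R S : Type} [Ring R] [Ring S] {X ι : Type} [Fintype X] [DecidableEq X] [Fintype ι]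
    [DecidableEq ι] (Φ : R →+* Matrix X X S) (B : (Matrix ι ι R)ˣ) (i j : ι) (ξ η : X) :
    ((opM Φ B : (Matrix (ι × X) (ι × X) S)ˣ) : Matrix (ι × X) (ι × X) S) (i, ξ) (j, η) =
      Φ ((B : Matrix ι ι R) i j) ξ η := rfl

/-- Realised torsions are mapped to realised torsions by all monomial representations. -/
theorem whStar_wreath {π : Type} [Group π] {x : Wh π} (hx : x ∈ WhStar π) :
    ∃ (n : ℕ) (B : (Matrix (Fin n) (Fin n) (MonoidAlgebra ℤ π))ˣ), x = Wh.mk B ∧
      ∀ (H X : Type) [Group H] [Fintype X] [DecidableEq X] (Θ : π →* Wr H X),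
        QuotientAddGroup.mk' (trivialUnits H) (cl (opM (Phi Θ) B)) ∈ WhStar H := by
  obtain ⟨n, r, ρ, D, B, hbij, hρ, hD, hB, rfl⟩ := hx
  refine ⟨n, B, rfl, fun H X _ _ _ Θ => ?_⟩
  obtain ⟨N, e⟩ : ∃ N, Nonempty (Fin n × X ≃ Fin N) := ⟨_, ⟨Fintype.equivFin _⟩⟩
  obtain ⟨e⟩ := e
  let Θ' : Pi1One π n →* Wr (Pi1One H N) X := Monoid.Coprod.lift
    ((wrMap X (Monoid.Coprod.inl : H →* Pi1One H N)).comp Θ)
    (FreeGroup.lift fun j => ⟨fun ξ => Monoid.Coprod.inr (FreeGroup.of (e (j, ξ))),
      (Θ (ρ (Monoid.Coprod.inr (FreeGroup.of j)))).right⟩)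
  let c' : Fin N → H := fun k =>
    (Θ (ρ (Monoid.Coprod.inr (FreeGroup.of (e.symm k).1)))).left (e.symm k).2
  let q : Pi1One H N →* H := Monoid.Coprod.lift (MonoidHom.id H) (FreeGroup.lift c')
  have hTinl : ∀ g, Θ' (Monoid.Coprod.inl g) = wrMap X Monoid.Coprod.inl (Θ g) := fun g => by
    simp [Θ']
  have hTinr : ∀ j, Θ' (Monoid.Coprod.inr (FreeGroup.of j)) =
      ⟨fun ξ => Monoid.Coprod.inr (FreeGroup.of (e (j, ξ))),
      (Θ (ρ (Monoid.Coprod.inr (FreeGroup.of j)))).right⟩ := fun j => by simp [Θ']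
  have hqinl : ∀ g, q (Monoid.Coprod.inl g) = g := fun g => by simp [q]
  have hqinr : ∀ k, q (Monoid.Coprod.inr (FreeGroup.of k)) = c' k := fun k => by simp [q]
  have hcomp : (wrMap X q).comp Θ' = Θ.comp ρ := by
    apply Monoid.Coprod.hom_ext
    · apply MonoidHom.ext
      intro g
      change wrMap X q (Θ' (Monoid.Coprod.inl g)) = Θ (ρ (Monoid.Coprod.inl g))
      rw [hTinl, rho_inl hbij.1 hρ]
      apply SemidirectProduct.ext
      · funext ξ
        rw [wrMap_left, wrMap_left, hqinl]
      · rfl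
    · apply FreeGroup.ext_hom
      intro j
      change wrMap X q (Θ' (Monoid.Coprod.inr (FreeGroup.of j))) =
        Θ (ρ (Monoid.Coprod.inr (FreeGroup.of j)))
      rw [hTinr]
      apply SemidirectProduct.ext
      · funext ξ
        rw [wrMap_left]
        simp only
        rw [hqinr]
        simp only [c', Equiv.symm_apply_apply]
      · rfl
  have hcomp' : ∀ u, wrMap X q (Θ' u) = Θ (ρ u) := fun u => DFunLike.congr_fun hcomp u
  have hleft : ∀ u ξ, q ((Θ' u).left ξ) = (Θ (ρ u)).left ξ := fun u ξ => by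
    rw [← hcomp', wrMap_left]
  have hright : ∀ u, (Θ' u).right = (Θ (ρ u)).right := fun u => by
    rw [← hcomp', wrMap_right]
  let r' : Fin N → Pi1One H N := fun k => (Θ' (r (e.symm k).1)).left (e.symm k).2
  have hr' : ∀ j ξ, r' (e (j, ξ)) = (Θ' (r j)).left ξ := fun j ξ => by
    simp only [r', Equiv.symm_apply_apply]
  have hqr : ∀ k, q (r' k) = 1 := by
    intro k
    simp only [r']
    rw [hleft, rho_r hbij.1 hρ, map_one]
    rfl
  let Ω : Pi1One π n →* Wr (Pi1 r') X := (wrMap X (toPi1 r')).comp Θ'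
  have hk : Subgroup.normalClosure (Set.range r) ≤ Ω.ker := by
    apply Subgroup.normalClosure_le_normal
    rintro _ ⟨j, rfl⟩
    change wrMap X (toPi1 r') (Θ' (r j)) = 1
    apply SemidirectProduct.ext
    · funext ξ
      rw [wrMap_left, ← hr', toPi1_r]
      rfl
    · rw [wrMap_right, hright, rho_r hbij.1 hρ, map_one]
      rfl
  let Q : Pi1 r →* Wr (Pi1 r') X := QuotientGroup.lift _ Ω (fun x hx => hk hx)
  have hΩ : ∀ u, Ω u = Ω (Monoid.Coprod.inl (ρ u)) := by
    intro u
    have h1 : Q (incl r (ρ u)) = Ω (Monoid.Coprod.inl (ρ u)) := rfl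
    have h2 : Q (toPi1 r u) = Ω u := rfl
    rw [← h1, ← h2, hρ]
  have hx : ∀ j ξ, toPi1 r' (Monoid.Coprod.inr (FreeGroup.of (e (j, ξ)))) =
      incl r' ((Θ (ρ (Monoid.Coprod.inr (FreeGroup.of j)))).left ξ) := by
    intro j ξ
    have h := congrArg (fun a => a.left ξ) (hΩ (Monoid.Coprod.inr (FreeGroup.of j)))
    simp only [Ω, MonoidHom.comp_apply, wrMap_left] at h
    rw [hTinl, hTinr, wrMap_left] at h
    exact h
  have hiq : (incl r').comp q = toPi1 r' := by
    apply Monoid.Coprod.hom_ext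
    · apply MonoidHom.ext
      intro g
      change incl r' (q (Monoid.Coprod.inl g)) = toPi1 r' (Monoid.Coprod.inl g)
      rw [hqinl]
      rfl
    · apply FreeGroup.ext_hom
      intro k
      change incl r' (q (Monoid.Coprod.inr (FreeGroup.of k))) =
        toPi1 r' (Monoid.Coprod.inr (FreeGroup.of k))
      obtain ⟨⟨j, ξ⟩, rfl⟩ := e.surjective k
      rw [hqinr, hx]
      simp only [c', Equiv.symm_apply_apply]
  have hiq' : ∀ u, incl r' (q u) = toPi1 r' u := fun u => DFunLike.congr_fun hiq u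
  have hker : Subgroup.normalClosure (Set.range r') ≤ q.ker := by
    apply Subgroup.normalClosure_le_normal
    rintro _ ⟨i, rfl⟩
    exact hqr i
  have hbijR : Function.Bijective (incl r') := by
    constructor
    · intro g h hgh
      let Q' : Pi1 r' →* H := QuotientGroup.lift _ q (fun x hx => hker hx)
      have h2 : ∀ g : H, Q' (incl r' g) = g := fun g => by
        change q (Monoid.Coprod.inl g) = g
        rw [hqinl]
      rw [← h2 g, ← h2 h, hgh]
    · intro y
      obtain ⟨x, rfl⟩ := QuotientGroup.mk'_surjective _ y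
      exact ⟨q x, hiq' x⟩
  have hF : IsFox q (fox c') := fox_isFox c'
  have hfox : ∀ u i, (Matrix.of fun ξ η => fox c' ((Θ' u).left ξ) (e (i, η)) :
      Matrix X X (MonoidAlgebra ℤ H)) = Phi Θ (D u i) := by
    intro u i
    refine der_extA ((mon Θ).comp ρ) (fun u => Matrix.of fun ξ η => fox c' ((Θ' u).left ξ) (e (i, η)))
      (fun u => Phi Θ (D u i)) (fun u v => ?_) (fun u v => ?_) (fun g => ?_) (fun j => ?_) u
    · refine Matrix.ext fun ξ η => ?_
      rw [Matrix.add_apply, Matrix.mul_apply]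
      simp only [Matrix.of_apply]
      rw [map_mul Θ', Wr_mul_left, hF.mul, hleft, hright]
      congr 1
      change _ = ∑ ζ, (if ζ = (Θ (ρ u)).right⁻¹ ξ then MonoidAlgebra.of ℤ H ((Θ (ρ u)).left ξ) else 0) *
        fox c' ((Θ' v).left ζ) (e (i, η))
      simp only [ite_mul, zero_mul]
      rw [Finset.sum_ite_eq' Finset.univ, if_pos (Finset.mem_univ _)]
    · rw [hD.mul, map_add, map_mul, Phi_of]
      rfl
    · rw [hD.base, map_zero]
      refine Matrix.ext fun ξ η => ?_
      rw [Matrix.of_apply, hTinl, wrMap_left, hF.base]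
      rfl
    · rw [hD.gen]
      refine Matrix.ext fun ξ η => ?_
      rw [Matrix.of_apply, hTinr]
      simp only
      rw [hF.gen]
      by_cases hji : j = i
      · subst hji
        rw [if_pos rfl, map_one, Matrix.one_apply]
        by_cases hξ : ξ = η
        · subst hξ
          rw [if_pos rfl, if_pos rfl]
        · rw [if_neg hξ, if_neg]
          intro h
          apply hξ
          exact (Prod.mk.inj (e.injective h)).2
      · rw [if_neg hji, map_zero, if_neg]
        · rfl
        · intro h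
          apply hji
          exact (Prod.mk.inj (e.injective h)).1
  refine ⟨N, r', q, fox c', rx e (opM (Phi Θ) B), hbijR, hiq', hF, ?_, ?_⟩
  · intro a b
    obtain ⟨⟨i, ξ⟩, rfl⟩ := e.surjective a
    obtain ⟨⟨j, η⟩, rfl⟩ := e.surjective b
    rw [rx_val, Matrix.submatrix_apply, Equiv.symm_apply_apply, Equiv.symm_apply_apply, opM_val,
      hB, ← hfox, hr']
    rfl
  · unfold Wh.mk
    rw [← cl_fin, cl_rx]

end

end Pool.Agent.Y942.WH
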